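import Pool.Agent.H980R2.Cross.Defs

/-! Asymptotics of the density of the crossing clusters: `N ρ(N) → √3 / 2`. -/

namespace Pool.Agent.TH601.CC

open Pool.Agent.H988R2.Perc Finset Filter Topology Real
open Pool.Agent.H980R2.Cross (RR)

theorem RR_step (N : ℕ) : RR (N+1) = RR N * ((2 * (mu (N+1) : ℝ)) / (2 * (mu (N+1) : ℝ) - 3)) := by
  unfold RR
  rw [Finset.prod_range_succ]
  ring

theorem RR_pos' (N : ℕ) : 0 < RR N := by
  induction N with
  | zero => unfold RR; simp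
  | succ N ih =>
    rw [RR_step]
    apply mul_pos ih
    have h : 2 ≤ mu (N+1) := by unfold mu; omega
    have h2 : (2:ℝ) ≤ mu (N+1) := by exact_mod_cast h
    apply div_pos <;> linarith

/-- two steps -/
theorem RR_two (n : ℕ) : RR (2*(n+1)+1) =
    RR (2*n+1) * (((6*(n:ℝ)+10) * (6*n+8)) / ((6*n+7) * (6*n+5))) := by
  have e : 2*(n+1)+1 = 2*n+1+1+1 := by ring
  rw [e, RR_step, RR_step]
  have m1 : mu (2*n+1+1) = 3*n+4 := by unfold mu; omega
  have m2 : mu (2*n+1+1+1) = 3*n+5 := by unfold mu; omega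
  rw [m1, m2]
  push_cast
  have hn : (0:ℝ) ≤ n := Nat.cast_nonneg n
  have h1 : (2 * (3*(n:ℝ)+4) - 3) ≠ 0 := by
    have : (0:ℝ) < 2 * (3*(n:ℝ)+4) - 3 := by linarith
    exact this.ne'
  have h2 : (2 * (3*(n:ℝ)+5) - 3) ≠ 0 := by
    have : (0:ℝ) < 2 * (3*(n:ℝ)+5) - 3 := by linarith
    exact this.ne'
  have h3 : ((6*(n:ℝ)+7) * (6*n+5)) ≠ 0 := by positivity
  field_simp
  ring

theorem RR_prod (n : ℕ) : RR (2*n+1) = 2 * (∏ j ∈ range (n+1), (2/3 + (j:ℝ))) /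
    (∏ j ∈ range (n+1), (1/6 + (j:ℝ))) * ((∏ j ∈ range (n+1), (4/3 + (j:ℝ))) /
    (∏ j ∈ range (n+1), (5/6 + (j:ℝ)))) * ((5/6 + (n:ℝ)) / (4/3 + n)) := by
  induction n with
  | zero =>
    rw [RR_step]
    have m1 : mu (2*0+1) = 2 := by unfold mu; omega
    unfold RR
    simp [mu]
    norm_num
  | succ n ih =>
    rw [RR_two, ih, Finset.prod_range_succ _ (n+1), Finset.prod_range_succ _ (n+1),
      Finset.prod_range_succ _ (n+1), Finset.prod_range_succ _ (n+1)]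
    have p : ∀ s : ℝ, 0 < s → (∏ j ∈ range (n+1), (s + (j:ℝ))) ≠ 0 := by
      intro s hs
      apply Finset.prod_ne_zero_iff.2
      intro j _
      positivity
    have p1 := p (1/6) (by norm_num)
    have p2 := p (5/6) (by norm_num)
    push_cast
    generalize (∏ j ∈ range (n+1), (2/3 + (j:ℝ))) = a at *
    generalize (∏ j ∈ range (n+1), (1/6 + (j:ℝ))) = b at *
    generalize (∏ j ∈ range (n+1), (4/3 + (j:ℝ))) = c at *
    generalize (∏ j ∈ range (n+1), (5/6 + (j:ℝ))) = d at *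
    have hn : (0:ℝ) ≤ n := Nat.cast_nonneg n
    field_simp
    ring

theorem const_eq : 2 * (Gamma (1/6) / Gamma (2/3)) * (Gamma (5/6) / Gamma (4/3)) = 6 * √3 := by
  have g1 : Gamma (1/6) * Gamma (5/6) = 2 * π := by
    have h := Real.Gamma_mul_Gamma_one_sub (1/6)
    have e : (1:ℝ) - 1/6 = 5/6 := by norm_num
    rw [e] at h
    have e2 : π * (1/6) = π / 6 := by ring
    rw [h, e2, Real.sin_pi_div_six]
    ring
  have g2 : Gamma (1/3) * Gamma (2/3) = 2 * π / √3 := by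
    have h := Real.Gamma_mul_Gamma_one_sub (1/3)
    have e : (1:ℝ) - 1/3 = 2/3 := by norm_num
    rw [e] at h
    have e2 : π * (1/3) = π / 3 := by ring
    rw [h, e2, Real.sin_pi_div_three]
    field_simp
  have g3 : Gamma (4/3) = 1/3 * Gamma (1/3) := by
    have h := Real.Gamma_add_one (s := 1/3) (by norm_num)
    have e : (1/3 : ℝ) + 1 = 4/3 := by norm_num
    rw [e] at h
    exact h
  have p1 : Gamma (1/3) ≠ 0 := (Real.Gamma_pos_of_pos (by norm_num)).ne'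
  have p2 : Gamma (2/3) ≠ 0 := (Real.Gamma_pos_of_pos (by norm_num)).ne'
  have hs : √3 ≠ 0 := by positivity
  have e : 2 * (Gamma (1/6) / Gamma (2/3)) * (Gamma (5/6) / Gamma (4/3)) =
      2 * (Gamma (1/6) * Gamma (5/6)) / (1/3 * (Gamma (1/3) * Gamma (2/3))) := by
    rw [g3]; field_simp
  rw [e, g1, g2]
  have hp : π ≠ 0 := Real.pi_ne_zero
  field_simp
  norm_num

theorem RR_lim : Tendsto (fun n : ℕ => RR (2*n+1) / n) atTop (𝓝 (6 * √3)) := by
  have l := fun s : ℝ => Real.GammaSeq_tendsto_Gamma s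
  have q : ∀ s : ℝ, 0 < s → Gamma s ≠ 0 := fun s hs => (Real.Gamma_pos_of_pos hs).ne'
  have l1 := ((l (1/6)).div (l (2/3)) (q _ (by norm_num))).const_mul 2
  have l2 := (l (5/6)).div (l (4/3)) (q _ (by norm_num))
  have l3 : Tendsto (fun n : ℕ => (5/6 + (n:ℝ)) / (4/3 + n)) atTop (𝓝 1) := by
    have h1 : Tendsto (fun n : ℕ => 1 - (1/2) / (4/3 + (n:ℝ))) atTop (𝓝 (1 - 0)) := by
      apply Tendsto.const_sub
      apply Tendsto.div_atTop tendsto_const_nhds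
      exact tendsto_atTop_add_const_left _ _ tendsto_natCast_atTop_atTop
    rw [sub_zero] at h1
    refine h1.congr ?_
    intro n
    have : (4/3 + (n:ℝ)) ≠ 0 := by positivity
    field_simp
    ring
  have l4 := (l1.mul l2).mul l3
  rw [mul_one, const_eq] at l4
  refine l4.congr' ?_
  filter_upwards [eventually_ge_atTop 1] with n hn
  have hn0 : (0:ℝ) < n := by exact_mod_cast hn
  rw [RR_prod]
  simp only [Pi.div_apply]
  unfold Real.GammaSeq
  have p : ∀ s : ℝ, 0 < s → (∏ j ∈ range (n+1), (s + (j:ℝ))) ≠ 0 := by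
    intro s hs
    apply Finset.prod_ne_zero_iff.2
    intro j _
    positivity
  have p1 := p (1/6) (by norm_num)
  have p2 := p (2/3) (by norm_num)
  have p3 := p (5/6) (by norm_num)
  have p4 := p (4/3) (by norm_num)
  have e1 : (n:ℝ)^(2/3:ℝ) = (n:ℝ)^(1/6:ℝ) * (n:ℝ)^(1/2:ℝ) := by
    rw [← Real.rpow_add hn0]; norm_num
  have e2 : (n:ℝ)^(4/3:ℝ) = (n:ℝ)^(5/6:ℝ) * (n:ℝ)^(1/2:ℝ) := by
    rw [← Real.rpow_add hn0]; norm_num
  have e3 : (n:ℝ)^(1/2:ℝ) * (n:ℝ)^(1/2:ℝ) = n := by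
    rw [← Real.rpow_add hn0]; norm_num
  have f1 : (n:ℝ)^(1/6:ℝ) ≠ 0 := (Real.rpow_pos_of_pos hn0 _).ne'
  have f2 : (n:ℝ)^(5/6:ℝ) ≠ 0 := (Real.rpow_pos_of_pos hn0 _).ne'
  have f3 : (n:ℝ)^(1/2:ℝ) ≠ 0 := (Real.rpow_pos_of_pos hn0 _).ne'
  have f4 : ((n.factorial : ℕ) : ℝ) ≠ 0 := by exact_mod_cast n.factorial_ne_zero
  have f5 : (4/3 + (n:ℝ)) ≠ 0 := by positivity
  rw [e1, e2]
  generalize (∏ j ∈ range (n+1), (2/3 + (j:ℝ))) = a at *
  generalize (∏ j ∈ range (n+1), (1/6 + (j:ℝ))) = b at *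
  generalize (∏ j ∈ range (n+1), (4/3 + (j:ℝ))) = c at *
  generalize (∏ j ∈ range (n+1), (5/6 + (j:ℝ))) = d at *
  generalize (n:ℝ)^(1/6:ℝ) = x at *
  generalize (n:ℝ)^(5/6:ℝ) = y at *
  generalize (n:ℝ)^(1/2:ℝ) = w at *
  rw [← e3]
  have hw2 : w * w ≠ 0 := mul_ne_zero f3 f3
  field_simp

/-- `3 N + 3/2` for `N = 2 n + 1` -/
noncomputable def yy (n : ℕ) : ℝ := 6 * (n:ℝ) + 9/2

/-- the comparison sequence -/
noncomputable def hh (β : ℝ) (n : ℕ) : ℝ := (RR (2*n+1))^2 / (3 * (yy n)^2 + β)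

theorem hh_step (β : ℝ) (hβ : 0 ≤ β) (n : ℕ) :
    (0 ≤ 6 * (β - 15/4) * (yy n + 3)^2 + (15/2 * (27+β) - 225/8) → hh β n ≤ hh β (n+1)) ∧
    (6 * (β - 15/4) * (yy n + 3)^2 + (15/2 * (27+β) - 225/8) ≤ 0 → hh β (n+1) ≤ hh β n) := by
  have hr := RR_two n
  have hpos := RR_pos' (2*n+1)
  have hn : (0:ℝ) ≤ n := Nat.cast_nonneg n
  set z : ℝ := yy n + 3 with hz
  have hz7 : 7 ≤ z := by rw [hz]; unfold yy; linarith
  have hy1 : yy n = z - 3 := by rw [hz]; ring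
  have hy2 : yy (n+1) = z + 3 := by rw [hz]; unfold yy; push_cast; ring
  have hn2 : (n:ℝ) = (z - 15/2) / 6 := by rw [hz]; unfold yy; ring
  unfold hh
  rw [hr, hy1, hy2, hn2]
  generalize RR (2*n+1) = r at *
  have d1 : 0 < 3 * (z-3)^2 + β := by nlinarith
  have d2 : 0 < 3 * (z+3)^2 + β := by nlinarith
  have d3 : 0 < (z - 1/2)^2 * (z - 5/2)^2 := by
    have : 0 < z - 1/2 := by linarith
    have : 0 < z - 5/2 := by linarith
    positivity
  have e1 : (r * (((6*((z - 15/2) / 6)+10) * (6*((z - 15/2) / 6)+8)) /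
      ((6*((z - 15/2) / 6)+7) * (6*((z - 15/2) / 6)+5))))^2 =
      r^2 * ((z + 5/2)^2 * (z+1/2)^2) / ((z - 1/2)^2 * (z - 5/2)^2) := by
    have a1 : 6*((z - 15/2) / 6)+10 = z + 5/2 := by ring
    have a2 : 6*((z - 15/2) / 6)+8 = z + 1/2 := by ring
    have a3 : 6*((z - 15/2) / 6)+7 = z - 1/2 := by ring
    have a4 : 6*((z - 15/2) / 6)+5 = z - 5/2 := by ring
    rw [a1, a2, a3, a4]
    rw [mul_pow, div_pow, mul_pow, mul_pow]
    ring
  rw [e1]
  have key : (z + 5/2)^2 * (z+1/2)^2 * (3 * (z-3)^2 + β) -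
      (z - 1/2)^2 * (z - 5/2)^2 * (3 * (z+3)^2 + β) =
      2 * z * (6 * (β - 15/4) * z^2 + (15/2 * (27+β) - 225/8)) := by ring
  have hr2 : 0 ≤ r^2 := sq_nonneg r
  constructor
  · intro h
    have hk : 0 ≤ 2 * z * (6 * (β - 15/4) * z^2 + (15/2 * (27+β) - 225/8)) :=
      mul_nonneg (by linarith) h
    rw [div_div, div_le_div_iff₀ d1 (mul_pos d3 d2)]
    have : (z - 1/2)^2 * (z - 5/2)^2 * (3 * (z+3)^2 + β) ≤
        (z + 5/2)^2 * (z+1/2)^2 * (3 * (z-3)^2 + β) := by linarith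
    calc r^2 * ((z - 1/2)^2 * (z - 5/2)^2 * (3 * (z+3)^2 + β))
        ≤ r^2 * ((z + 5/2)^2 * (z+1/2)^2 * (3 * (z-3)^2 + β)) := by gcongr
      _ = _ := by ring
  · intro h
    have hk : 2 * z * (6 * (β - 15/4) * z^2 + (15/2 * (27+β) - 225/8)) ≤ 0 :=
      mul_nonpos_of_nonneg_of_nonpos (by linarith) h
    rw [div_div, div_le_div_iff₀ (mul_pos d3 d2) d1]
    have : (z + 5/2)^2 * (z+1/2)^2 * (3 * (z-3)^2 + β) ≤
      (z - 1/2)^2 * (z - 5/2)^2 * (3 * (z+3)^2 + β) := by linarith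
    calc r^2 * ((z + 5/2)^2 * (z+1/2)^2) * (3 * (z-3)^2 + β)
        = r^2 * ((z + 5/2)^2 * (z+1/2)^2 * (3 * (z-3)^2 + β)) := by ring
      _ ≤ r^2 * ((z - 1/2)^2 * (z - 5/2)^2 * (3 * (z+3)^2 + β)) := by gcongr

theorem hh_lim (β : ℝ) (hβ : 0 ≤ β) : Tendsto (hh β) atTop (𝓝 1) := by
  have h1 := RR_lim.pow 2
  have h2 : Tendsto (fun n : ℕ => 3 * (6 + 9/2 / (n:ℝ))^2 + β / (n:ℝ)^2) atTop
      (𝓝 (3 * (6 + 0)^2 + 0)) := by
    apply Tendsto.add
    · apply Tendsto.const_mul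
      apply Tendsto.pow
      apply Tendsto.const_add
      exact tendsto_const_div_atTop_nhds_zero_nat _
    · apply Tendsto.div_atTop tendsto_const_nhds
      exact (tendsto_pow_atTop (by norm_num)).comp tendsto_natCast_atTop_atTop
  have h3 := h1.div h2 (by norm_num)
  have e : (6 * √3)^2 / (3 * (6 + 0)^2 + 0) = 1 := by
    rw [mul_pow, Real.sq_sqrt (by norm_num)]; norm_num
  rw [e] at h3
  refine h3.congr' ?_
  filter_upwards [eventually_ge_atTop 1] with n hn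
  have hn0 : (0:ℝ) < n := by exact_mod_cast hn
  simp only [Pi.div_apply]
  unfold hh yy
  have d1 : 0 < 3 * (6 * (n:ℝ) + 9/2)^2 + β := by positivity
  have d2 : 0 < 3 * (6 + 9/2 / (n:ℝ))^2 + β / (n:ℝ)^2 := by positivity
  rw [div_eq_div_iff d2.ne' d1.ne']
  field_simp

theorem RR_sq_upper (n : ℕ) : (RR (2*n+1))^2 ≤ 3 * (yy n)^2 + 15/4 := by
  have hm : Monotone (hh (15/4)) := monotone_nat_of_le_succ (fun n =>
    (hh_step (15/4) (by norm_num) n).1 (by norm_num))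
  have h1 := hm.ge_of_tendsto (hh_lim (15/4) (by norm_num)) n
  unfold hh at h1
  have d : 0 < 3 * (yy n)^2 + 15/4 := by positivity
  rwa [div_le_one d] at h1

theorem RR_sq_lower (β : ℝ) (hβ : 0 ≤ β) (hβ2 : β < 15/4) :
    ∀ᶠ n : ℕ in atTop, 3 * (yy n)^2 + β ≤ (RR (2*n+1))^2 := by
  have hev : ∀ᶠ n : ℕ in atTop, 6 * (β - 15/4) * (yy n + 3)^2 + (15/2 * (27+β) - 225/8) ≤ 0 := by
    have hy : Tendsto (fun n : ℕ => (yy n + 3)^2) atTop atTop := by
      refine (tendsto_pow_atTop (by norm_num)).comp ?_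
      unfold yy
      apply tendsto_atTop_add_const_right
      apply tendsto_atTop_add_const_right
      exact tendsto_natCast_atTop_atTop.const_mul_atTop (by norm_num)
    filter_upwards [hy.eventually_ge_atTop ((15/2 * (27+β) - 225/8) / (6 * (15/4 - β)))] with n hn
    have hp : 0 < 6 * (15/4 - β) := by linarith
    rw [div_le_iff₀ hp] at hn
    linarith
  obtain ⟨n0, hn0⟩ := eventually_atTop.1 hev
  have ha : Antitone (fun n => hh β (n + n0)) := antitone_nat_of_succ_le (fun n => by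
    have e : n + 1 + n0 = (n + n0) + 1 := by ring
    rw [e]
    exact (hh_step β hβ (n+n0)).2 (hn0 _ (by omega)))
  have hl : Tendsto (fun n => hh β (n + n0)) atTop (𝓝 1) :=
    (hh_lim β hβ).comp (tendsto_add_atTop_nat n0)
  filter_upwards [eventually_ge_atTop n0] with n hn
  have h1 := ha.le_of_tendsto hl (n - n0)
  rw [Nat.sub_add_cancel hn] at h1
  unfold hh at h1
  have d : 0 < 3 * (yy n)^2 + β := by
    have : 0 < yy n := by unfold yy; positivity
    positivity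
  rwa [one_le_div d] at h1

theorem RR_sq_lim : Tendsto (fun n : ℕ => (RR (2*n+1))^2 - 3 * (yy n)^2) atTop (𝓝 (15/4)) := by
  rw [tendsto_order]
  constructor
  · intro a ha
    have hb : max a 0 < 15/4 := max_lt ha (by norm_num)
    obtain ⟨b, hb1, hb2⟩ := exists_between hb
    filter_upwards [RR_sq_lower b ((le_max_right a 0).trans hb1.le) hb2] with n hn
    have := le_max_left a 0
    linarith
  · intro a ha
    filter_upwards with n
    have := RR_sq_upper n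
    linarith

/-- **asymptotics of the density** -/
theorem rho_lim : Tendsto (fun n : ℕ => ((2*n+1 : ℕ) : ℝ) * Pool.Agent.H980R2.Cross.rho (2*n+1))
    atTop (𝓝 (√3 / 2)) := by
  have h1 : Tendsto (fun n : ℕ => (2 + 1 / (n:ℝ)) / (RR (2*n+1) / n)) atTop
      (𝓝 ((2 + 0) / (6 * √3))) := by
    apply Tendsto.div _ RR_lim (by positivity)
    apply Tendsto.const_add
    exact tendsto_const_div_atTop_nhds_zero_nat _
  have h2 : Tendsto (fun n : ℕ => ((RR (2*n+1))^2 - 3 * (yy n)^2) + 3/4) atTop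
      (𝓝 (15/4 + 3/4)) := RR_sq_lim.add_const _
  have h3 := h1.mul h2
  have e : (2 + 0) / (6 * √3) * (15/4 + 3/4) = √3 / 2 := by
    have hs : √3 ≠ 0 := by positivity
    have hs2 : √3 * √3 = 3 := Real.mul_self_sqrt (by norm_num)
    field_simp
    nlinarith
  rw [e] at h3
  refine h3.congr' ?_
  filter_upwards [eventually_ge_atTop 1] with n hn
  have hn0 : (0:ℝ) < n := by exact_mod_cast hn
  have hR := (RR_pos' (2*n+1)).ne'
  unfold Pool.Agent.H980R2.Cross.rho yy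
  push_cast
  field_simp
  ring

end Pool.Agent.TH601.CC
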