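import Pool.Agent.H980R2.Cross.T24

/-! The chains `TK` and `UK` (`Pool.Agent.H980R2.Cross.Defs`) count the clusters of the strips:
`TK` with the right side wired, `UK 1` with both sides wired together, `UK 0` free. -/

namespace Pool.Agent.TH601.CC

open Pool.Agent.H988R2.Perc Pool.Agent.H980R2.Cross Finset Relation
open Pool.Agent.H988R2.Perc.T21 (Rep SF SB fF fB)

/-- the state `s.1` describes the connectivity of the frontier `α`, and `s.2` is the number of
clusters of `V` -/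
structure Inv (n : ℕ) (s : St × ℤ) (E : ℕ × ℕ → ℕ × ℕ → Prop) (V : Finset (ℕ × ℕ))
    (α : ℕ → ℕ × ℕ) : Prop where
  rep : Rep n s.1 E α
  cnt : (ncl E V : ℤ) = s.2
  mem : ∀ a, a % 2 = 1 → a ≤ n → α a ∈ V

/-- `ncl_add_vertex` for every decidability instance -/
theorem ncl_add_vertex' {α : Type*} (d : DecidableEq α) (E : α → α → Prop) (S : Finset α) (v : α)
    (h1 : ∀ a, ¬ E v a) (h2 : ∀ a, ¬ E a v) (hv : v ∉ S) :
    ncl E (insert v S) = ncl E S + 1 := by
  have e : d = fun a b => Classical.propDecidable (a = b) := Subsingleton.elim _ _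
  subst e
  exact ncl_add_vertex E S v h1 h2 hv

/-- `ncl_add_old` for every decidability instance -/
theorem ncl_add_old' {α : Type*} (d : DecidableEq α) (E : α → α → Prop) (S : Finset α) (v : α)
    (h : ∃ s ∈ S, EqvGen E v s) : ncl E (insert v S) = ncl E S := by
  have e : d = fun a b => Classical.propDecidable (a = b) := Subsingleton.elim _ _
  subst e
  exact ncl_add_old E S v h

theorem Inv.congr {n : ℕ} {s : St × ℤ} {E E' : ℕ × ℕ → ℕ × ℕ → Prop} {V V' : Finset (ℕ × ℕ)}
    {α α' : ℕ → ℕ × ℕ} (h : Inv n s E V α) (hE : ∀ a b, E a b ↔ E' a b) (hV : V = V')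
    (hα : ∀ a, a % 2 = 1 → a ≤ n → α a = α' a) : Inv n s E' V' α' := by
  have e : E = E' := by
    funext a b; exact propext (hE a b)
  subst e hV
  exact ⟨h.rep.congr (fun _ _ => Iff.rfl) hα, h.cnt, fun a ha hn => by
    rw [← hα a ha hn]; exact h.mem a ha hn⟩

theorem Inv.join {n i : ℕ} {s : St × ℤ} {E : ℕ × ℕ → ℕ × ℕ → Prop} {V : Finset (ℕ × ℕ)}
    {α : ℕ → ℕ × ℕ} (h : Inv n s E V α) (hi : i % 2 = 1) (hin : i + 2 ≤ n) (c : Bool)
    (p p' : ℕ × ℕ) (hp : (p = α i ∧ p' = α (i+2)) ∨ (p = α (i+2) ∧ p' = α i)) :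
    Inv n (stepT i c s) (fun a b => E a b ∨ (c = true ∧ a = p ∧ b = p')) V α := by
  classical
  have hr := h.rep.join hi hin c p p' hp
  have m1 := h.mem i hi (by omega)
  have m2 := h.mem (i+2) (by omega) hin
  have hrel := h.rep i (i+2) hi (by omega) (by omega) hin
  have hpV : p ∈ V ∧ p' ∈ V ∧ (s.1.rel i (i+2) ↔ EqvGen E p p') := by
    rcases hp with ⟨rfl, rfl⟩ | ⟨rfl, rfl⟩
    · exact ⟨m1, m2, hrel⟩
    · exact ⟨m2, m1, hrel.trans ⟨fun k => k.symm _ _, fun k => k.symm _ _⟩⟩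
  have hc := ncl_add_edge E V (c = true) p p' hpV.1 hpV.2.1
  have e : stepT i c s = (if c then St.act i s.1 else s.1,
      s.2 - (if c = true ∧ ¬ EqvGen E p p' then 1 else 0)) := by
    unfold stepT
    rw [if_pos hi]
    cases c with
    | false => simp
    | true =>
      by_cases hh : s.1.rel i (i+2)
      · have : EqvGen E p p' := hpV.2.2.1 hh
        simp [hh, this]
      · have : ¬ EqvGen E p p' := fun k => hh (hpV.2.2.2 k)
        simp [hh, this]
  rw [e]
  refine ⟨hr, ?_, h.mem⟩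
  rw [hc, h.cnt]
  change s.2 - _ = s.2 - _
  congr 1
  congr

theorem Inv.move {n i : ℕ} {s : St × ℤ} {E : ℕ × ℕ → ℕ × ℕ → Prop} {V : Finset (ℕ × ℕ)}
    {α α' : ℕ → ℕ × ℕ} (h : Inv n s E V α) (hi : i % 2 = 0) (hin : i + 1 ≤ n) (c : Bool)
    (v : ℕ × ℕ) (h1 : ∀ a, ¬ E v a) (h2 : ∀ a, ¬ E a v) (hvV : v ∉ V)
    (hv : α' (i+1) = v) (hα : ∀ a, a % 2 = 1 → a ≤ n → a ≠ i+1 → α' a = α a) :
    Inv n (stepT i c s) (fun a b => E a b ∨ (c = true ∧ a = α (i+1) ∧ b = v)) (insert v V) α' := by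
  have hne : ∀ a, a % 2 = 1 → a ≤ n → α a ≠ v := fun a ha hn e => hvV (e ▸ h.mem a ha hn)
  have hr := h.rep.move hi c v h1 h2 hv hα hne
  have m1 := h.mem (i+1) (by omega) hin
  have hnot : ¬ EqvGen E (α (i+1)) v := by
    intro k
    rcases T21.eqvGen_iso E v h1 h2 k with k | ⟨_, k⟩
    · exact hne _ (by omega) hin k
    · exact k rfl
  have hc := ncl_add_edge E (insert v V) (c = true) (α (i+1)) v (mem_insert_of_mem m1)
    (mem_insert_self _ _)
  have hc2 : ncl E (insert v V) = ncl E V + 1 := by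
    exact ncl_add_vertex' _ E V v h1 h2 hvV
  have e : stepT i c s = (if !c then St.act i s.1 else s.1,
      s.2 + 1 - (if c = true then 1 else 0)) := by
    unfold stepT
    rw [if_neg (by omega)]
    cases c with
    | false => simp
    | true => simp
  rw [e]
  refine ⟨hr, ?_, ?_⟩
  · rw [hc, hc2]
    push_cast
    rw [h.cnt]
    change s.2 + 1 - _ = s.2 + 1 - _
    congr 1
    simp [hnot]
  · intro a ha hn
    by_cases hai : a = i + 1
    · subst hai
      rw [hv]
      exact mem_insert_self _ _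
    · rw [hα a ha hn hai]
      exact mem_insert_of_mem (h.mem a ha hn)

theorem Inv.old {n : ℕ} {s : St × ℤ} {E : ℕ × ℕ → ℕ × ℕ → Prop} {V : Finset (ℕ × ℕ)}
    {α α' : ℕ → ℕ × ℕ} (h : Inv n s E V α) (v s0 : ℕ × ℕ) (hs0 : s0 ∈ V) (hv : EqvGen E v s0)
    (hα : ∀ a, a % 2 = 1 → a ≤ n → EqvGen E (α a) (α' a) ∧ α' a ∈ insert v V) :
    Inv n s E (insert v V) α' := by
  refine ⟨?_, ?_, fun a ha hn => (hα a ha hn).2⟩
  · intro a b ha hb han hbn
    rw [h.rep a b ha hb han hbn]
    have ea := (hα a ha han).1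
    have eb := (hα b hb hbn).1
    constructor
    · intro k
      exact ((ea.symm _ _).trans _ _ _ k).trans _ _ _ eb
    · intro k
      exact (ea.trans _ _ _ k).trans _ _ _ (eb.symm _ _)
  · have hc2 : ncl E (insert v V) = ncl E V := by
      exact ncl_add_old' _ E V v ⟨s0, hs0, hv⟩
    rw [hc2, h.cnt]

/-! ### adjacency -/

/-- adjacency by the open tiles of `S`, plus the wiring of the columns of `W` -/
def SW (lam : ℕ) (W : Finset ℕ) (o : ℕ → ℕ → Bool) (S : ℕ → ℕ → Prop) (a b : ℕ × ℕ) : Prop :=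
  (∃ i k, S i k ∧ o k i = true ∧
    (((i + k) % 2 = lam ∧ a = (i, k) ∧ b = (i-1, k+1)) ∨
     ((i + k) % 2 ≠ lam ∧ a = (i-1, k) ∧ b = (i, k+1)))) ∨ (a.1 ∈ W ∧ b.1 ∈ W)

theorem SW_add (lam : ℕ) (W : Finset ℕ) (o : ℕ → ℕ → Bool) (S S' : ℕ → ℕ → Prop) (i k : ℕ)
    (p p' : ℕ × ℕ) (hS : ∀ i' k', S' i' k' ↔ (S i' k' ∨ (i' = i ∧ k' = k)))
    (hp : ((i + k) % 2 = lam ∧ p = (i, k) ∧ p' = (i-1, k+1)) ∨
      ((i + k) % 2 ≠ lam ∧ p = (i-1, k) ∧ p' = (i, k+1))) (a b : ℕ × ℕ) :
    (SW lam W o S a b ∨ (o k i = true ∧ a = p ∧ b = p')) ↔ SW lam W o S' a b := by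
  unfold SW
  constructor
  · rintro ((⟨i', k', h1, h2, h3⟩ | h) | ⟨h1, h2, h3⟩)
    · exact Or.inl ⟨i', k', (hS _ _).2 (Or.inl h1), h2, h3⟩
    · exact Or.inr h
    · refine Or.inl ⟨i, k, (hS _ _).2 (Or.inr ⟨rfl, rfl⟩), h1, ?_⟩
      subst h2; subst h3; exact hp
  · rintro (⟨i', k', h1, h2, h3⟩ | h)
    · rcases (hS _ _).1 h1 with h1 | ⟨rfl, rfl⟩
      · exact Or.inl (Or.inl ⟨i', k', h1, h2, h3⟩)
      · refine Or.inr ⟨h2, ?_⟩
        rcases hp with ⟨hp, rfl, rfl⟩ | ⟨hp, rfl, rfl⟩ <;>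
          rcases h3 with ⟨h3, h4, h5⟩ | ⟨h3, h4, h5⟩ <;>
          first
          | exact ⟨h4, h5⟩
          | exact absurd h3 hp
          | exact absurd hp h3
    · exact Or.inl (Or.inr h)

theorem SW_iso (lam : ℕ) (W : Finset ℕ) (o : ℕ → ℕ → Bool) (S : ℕ → ℕ → Prop) (v : ℕ × ℕ)
    (hv : v.1 ∉ W)
    (hS : ∀ i k, S i k →
      ((i + k) % 2 = lam → v ≠ (i, k) ∧ v ≠ (i-1, k+1)) ∧
      ((i + k) % 2 ≠ lam → v ≠ (i-1, k) ∧ v ≠ (i, k+1))) :
    (∀ a, ¬ SW lam W o S v a) ∧ (∀ a, ¬ SW lam W o S a v) := by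
  constructor
  · rintro a (⟨i, k, h1, _, ⟨h3, h4, h5⟩ | ⟨h3, h4, h5⟩⟩ | ⟨h, _⟩)
    · exact ((hS i k h1).1 h3).1 h4
    · exact ((hS i k h1).2 h3).1 h4
    · exact hv h
  · rintro a (⟨i, k, h1, _, ⟨h3, h4, h5⟩ | ⟨h3, h4, h5⟩⟩ | ⟨_, h⟩)
    · exact ((hS i k h1).1 h3).2 h5
    · exact ((hS i k h1).2 h3).2 h5
    · exact hv h

theorem SW_S {lam : ℕ} {W : Finset ℕ} {o : ℕ → ℕ → Bool} {S S' : ℕ → ℕ → Prop}
    (h : ∀ i k, S i k ↔ S' i k) (a b : ℕ × ℕ) : SW lam W o S a b ↔ SW lam W o S' a b := by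
  have : S = S' := by
    funext i k; exact propext (h i k)
  rw [this]

open Classical in
/-- the vertices of parity `lam` of the columns `0..N` satisfying `P` -/
noncomputable def VP (lam N T : ℕ) (P : ℕ → ℕ → Prop) : Finset (ℕ × ℕ) :=
  ((range (N+1)) ×ˢ (range (T+1))).filter (fun p => (p.1 + p.2) % 2 = lam ∧ P p.1 p.2)

theorem mem_VP {lam N T : ℕ} {P : ℕ → ℕ → Prop} {p : ℕ × ℕ} :
    p ∈ VP lam N T P ↔ p.1 ≤ N ∧ p.2 ≤ T ∧ (p.1 + p.2) % 2 = lam ∧ P p.1 p.2 := by
  unfold VP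
  simp only [mem_filter, mem_product, mem_range]
  constructor
  · rintro ⟨⟨h1, h2⟩, h3⟩
    exact ⟨by omega, by omega, h3⟩
  · rintro ⟨h1, h2, h3⟩
    exact ⟨⟨by omega, by omega⟩, h3⟩

theorem VV_eq (lam N t : ℕ) (T : ℕ) (hT : t ≤ T) : VV lam N t = VP lam N T (fun _ k => k ≤ t) := by
  ext ⟨c, k⟩
  rw [mem_VP]
  unfold VV
  simp only [mem_filter, mem_product, mem_range]
  omega

/-! ### the sweeps at the positions `1..N` -/

/-- vertices at the stage `i` of the forward sweep -/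
noncomputable def VF (lam N t i : ℕ) : Finset (ℕ × ℕ) :=
  VP lam N (t+2) (fun c k => k ≤ t ∨ (k = t+1 ∧ c ≤ i))

/-- vertices at the stage `i` of the backward sweep -/
noncomputable def VB (lam N t i : ℕ) : Finset (ℕ × ℕ) :=
  VP lam N (t+2) (fun c k => k ≤ t+1 ∨ (k = t+2 ∧ i ≤ c))

theorem fwd1 {N t : ℕ} (ht : t % 2 = 0) (hN : N % 2 = 1) {W : Finset ℕ}
    (hW : ∀ c ∈ W, c = 0 ∨ c = N) {o : ℕ → ℕ → Bool} {s : St × ℤ}
    (h : Inv (N+2) s (SW 1 W o (SF N t 0)) (VF 1 N t 0) (fF t 0)) (i : ℕ) (hi : i ≤ N) :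
    Inv (N+2) (fwK 1 i (o t) s) (SW 1 W o (SF N t i)) (VF 1 N t i) (fF t i) := by
  induction i with
  | zero => simpa [fwK] using h
  | succ i ih =>
    have ih := ih (by omega)
    simp only [fwK]
    have hSadd : ∀ i' k', SF N t (i+1) i' k' ↔ (SF N t i i' k' ∨ (i' = i+1 ∧ k' = t)) := by
      intro i' k'; unfold SF; omega
    by_cases hodd : (i+1) % 2 = 1
    · have key := ih.join (i := i+1) hodd (by omega) (o t (i+1)) (i+1, t) (i+1-1, t+1)
        (by
          right
          constructor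
          · unfold fF; rw [if_neg (by omega)]; simp
          · unfold fF; rw [if_pos (by omega)])
      refine key.congr ?_ ?_ ?_
      · intro a b
        exact SW_add 1 W o (SF N t i) (SF N t (i+1)) (i+1) t _ _ hSadd
          (Or.inl ⟨by omega, rfl, rfl⟩) a b
      · ext ⟨c, k⟩
        simp only [VF, mem_VP]
        omega
      · intro a ha haL
        unfold fF
        by_cases h1 : a ≤ i + 1
        · rw [if_pos h1, if_pos (by omega)]
        · rw [if_neg h1, if_neg (by omega)]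
    · have hv := SW_iso 1 W o (SF N t i) (i+1, t+1)
        (by
          intro hc
          have := hW _ hc
          simp only at this
          omega)
        (by
          rintro i' k ⟨h1, h2, h3⟩
          refine ⟨fun _ => ⟨?_, ?_⟩, fun _ => ⟨?_, ?_⟩⟩ <;>
          · intro h
            simp only [Prod.mk.injEq] at h
            omega)
      have key := ih.move (i := i+1) (α' := fF t (i+1)) (by omega) (by omega) (o t (i+1))
        (i+1, t+1) hv.1 hv.2
        (by
          simp only [VF, mem_VP]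
          omega)
        (by unfold fF; rw [if_pos (by omega)]; simp)
        (by
          intro a ha haL hai
          unfold fF
          by_cases h1 : a ≤ i + 1
          · rw [if_pos h1, if_pos (by omega)]
          · rw [if_neg h1, if_neg (by omega)])
      refine key.congr ?_ ?_ ?_
      · intro a b
        have e : fF t i (i+1+1) = (i+1-1, t) := by
          unfold fF; rw [if_neg (by omega)]; simp
        rw [e]
        exact SW_add 1 W o (SF N t i) (SF N t (i+1)) (i+1) t _ _ hSadd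
          (Or.inr ⟨by omega, rfl, rfl⟩) a b
      · ext ⟨c, k⟩
        simp only [VF, mem_insert, mem_VP, Prod.mk.injEq]
        omega
      · intro a ha haL; rfl

theorem turn1 {N t : ℕ} (ht : t % 2 = 0) (hN : N % 2 = 1) {W : Finset ℕ} (hNW : N ∈ W)
    {o : ℕ → ℕ → Bool} {s : St × ℤ}
    (h : Inv (N+2) s (SW 1 W o (SF N t N)) (VF 1 N t N) (fF t N)) :
    Inv (N+2) s (SW 1 W o (SB N t N)) (VB 1 N t N) (fB t N) := by
  have hw : EqvGen (SW 1 W o (SF N t N)) (N, t+2) (N, t) := EqvGen.rel _ _ (Or.inr ⟨hNW, hNW⟩)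
  have key := h.old (α' := fB t N) (N, t+2) (N, t)
    (by simp only [VF, mem_VP]; omega) hw
    (by
      intro a ha haL
      by_cases h1 : a ≤ N + 1
      · have e1 : fF t N a = (a-1, t+1) := by unfold fF; rw [if_pos h1]
        have e2 : fB t N a = (a-1, t+1) := by unfold fB; rw [if_pos h1]
        rw [e1, e2]
        refine ⟨EqvGen.refl _, mem_insert_of_mem ?_⟩
        simp only [VF, mem_VP]
        refine ⟨by omega, by omega, by omega, Or.inr ⟨trivial, by omega⟩⟩
      · have ea : a = N + 2 := by omega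
        subst ea
        have e1 : fF t N (N+2) = (N, t) := by unfold fF; rw [if_neg h1]; simp
        have e2 : fB t N (N+2) = (N, t+2) := by unfold fB; rw [if_neg h1]; simp
        rw [e1, e2]
        exact ⟨hw.symm _ _, mem_insert_self _ _⟩)
  refine key.congr ?_ ?_ (fun _ _ _ => rfl)
  · intro a b
    apply SW_S
    intro i k
    unfold SF SB
    omega
  · ext ⟨c, k⟩
    simp only [VF, VB, mem_insert, mem_VP, Prod.mk.injEq]
    omega

theorem bwd1 {N t : ℕ} (ht : t % 2 = 0) (hN : N % 2 = 1) {W : Finset ℕ}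
    (hW : ∀ c ∈ W, c = 0 ∨ c = N) {o : ℕ → ℕ → Bool} (i : ℕ) (hi : i ≤ N) : ∀ {s : St × ℤ}
    (_ : Inv (N+2) s (SW 1 W o (SB N t i)) (VB 1 N t i) (fB t i)),
    Inv (N+2) (bwK 1 i (o (t+1)) s) (SW 1 W o (SB N t 0)) (VB 1 N t 0) (fB t 0) := by
  induction i with
  | zero => intro s h; simpa [bwK] using h
  | succ i ih =>
    intro s h
    simp only [bwK]
    apply ih (by omega)
    have hSadd : ∀ i' k', SB N t i i' k' ↔ (SB N t (i+1) i' k' ∨ (i' = i+1 ∧ k' = t+1)) := by
      intro i' k'; unfold SB; omega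
    by_cases hodd : (i+1) % 2 = 1
    · have key := h.join (i := i+1) hodd (by omega) (o (t+1) (i+1)) (i+1-1, t+1) (i+1, t+1+1)
        (by
          left
          constructor
          · unfold fB; rw [if_pos (by omega)]
          · unfold fB; rw [if_neg (by omega)]; simp)
      refine key.congr ?_ ?_ ?_
      · intro a b
        exact SW_add 1 W o (SB N t (i+1)) (SB N t i) (i+1) (t+1) _ _ hSadd
          (Or.inr ⟨by omega, rfl, rfl⟩) a b
      · ext ⟨c, k⟩
        simp only [VB, mem_VP]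
        omega
      · intro a ha haL
        unfold fB
        by_cases h1 : a ≤ i + 1
        · rw [if_pos (by omega), if_pos (by omega)]
        · rw [if_neg (by omega), if_neg (by omega)]
    · have hv := SW_iso 1 W o (SB N t (i+1)) (i, t+2)
        (by
          intro hc
          have := hW _ hc
          simp only at this
          omega)
        (by
          rintro i' k ⟨h1, h2, h3⟩
          refine ⟨fun _ => ⟨?_, ?_⟩, fun _ => ⟨?_, ?_⟩⟩ <;>
          · intro h
            simp only [Prod.mk.injEq] at h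
            omega)
      have key := h.move (i := i+1) (α' := fB t i) (by omega) (by omega) (o (t+1) (i+1))
        (i, t+2) hv.1 hv.2
        (by
          simp only [VB, mem_VP]
          omega)
        (by unfold fB; rw [if_neg (by omega)]; simp)
        (by
          intro a ha haL hai
          unfold fB
          by_cases h1 : a ≤ i + 1
          · rw [if_pos h1, if_pos (by omega)]
          · rw [if_neg h1, if_neg (by omega)])
      refine key.congr ?_ ?_ ?_
      · intro a b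
        have e : fB t (i+1) (i+1+1) = (i+1, t+1) := by
          unfold fB; rw [if_pos (by omega)]; simp
        rw [e]
        exact SW_add 1 W o (SB N t (i+1)) (SB N t i) (i+1) (t+1) _ _ hSadd
          (Or.inl ⟨by omega, rfl, by simp⟩) a b
      · ext ⟨c, k⟩
        simp only [VB, mem_insert, mem_VP, Prod.mk.injEq]
        omega
      · intro a ha haL; rfl

/-! ### the strip with the right side wired -/

theorem SW_SA (N : ℕ) (o : ℕ → ℕ → Bool) (S : ℕ → ℕ → Prop) (a b : ℕ × ℕ) :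
    SW 1 {N} o S a b ↔ T21.SA N o S a b := by
  unfold SW T21.SA
  simp only [mem_singleton]
  constructor
  · rintro (⟨i, k, h1, h2, h3 | ⟨h3, h4⟩⟩ | h)
    · exact Or.inl ⟨i, k, h1, h2, Or.inl h3⟩
    · exact Or.inl ⟨i, k, h1, h2, Or.inr ⟨by omega, h4⟩⟩
    · exact Or.inr h
  · rintro (⟨i, k, h1, h2, h3 | ⟨h3, h4⟩⟩ | h)
    · exact Or.inl ⟨i, k, h1, h2, Or.inl h3⟩
    · exact Or.inl ⟨i, k, h1, h2, Or.inr ⟨by omega, h4⟩⟩
    · exact Or.inr h

/-- the tiles of the rows before `t` -/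
def TT (N t : ℕ) (j k : ℕ) : Prop := 1 ≤ j ∧ j ≤ N ∧ k < t

theorem insT {N t : ℕ} (ht : t % 2 = 0) (hN : N % 2 = 1) {o : ℕ → ℕ → Bool} {s : St × ℤ}
    (h : Inv N s (SW 1 {N} o (TT N t)) (VV 1 N t) (fun a => (a, t))) :
    Inv (N+2) (St.ins 0 s.1, s.2 + 1) (SW 1 {N} o (SF N t 0)) (VF 1 N t 0) (fF t 0) := by
  have hr : Rep N s.1 (T21.SA N o (fun j k => 1 ≤ j ∧ j ≤ N ∧ k < t)) (fun a => (a, t)) :=
    h.rep.congr (fun a b => SW_SA N o (TT N t) a b) (fun _ _ _ => rfl)
  have hr2 := T21.rep_ins ht hN hr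
  have hE : SW 1 {N} o (TT N t) = SW 1 {N} o (SF N t 0) := by
    funext a b
    apply propext
    apply SW_S
    intro i k
    unfold TT SF
    omega
  have hv := SW_iso 1 {N} o (SF N t 0) (0, t+1)
    (by
      intro hc
      rw [mem_singleton] at hc
      simp only at hc
      omega)
    (by
      rintro i' k ⟨h1, h2, h3⟩
      refine ⟨fun _ => ⟨?_, ?_⟩, fun _ => ⟨?_, ?_⟩⟩ <;>
      · intro h
        simp only [Prod.mk.injEq] at h
        omega)
  have hnot : ((0, t+1) : ℕ × ℕ) ∉ VV 1 N t := by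
    rw [VV_eq 1 N t t le_rfl, mem_VP]
    simp
  have hins : insert ((0, t+1) : ℕ × ℕ) (VV 1 N t) = VF 1 N t 0 := by
    rw [VV_eq 1 N t (t+2) (by omega)]
    ext ⟨c, k⟩
    simp only [VF, mem_insert, mem_VP, Prod.mk.injEq]
    omega
  refine ⟨hr2.congr (fun a b => (SW_SA N o (SF N t 0) a b).symm) (fun _ _ _ => rfl), ?_, ?_⟩
  · have hc2 : ncl (SW 1 {N} o (SF N t 0)) (insert (0, t+1) (VV 1 N t)) =
        ncl (SW 1 {N} o (SF N t 0)) (VV 1 N t) + 1 := by
      exact ncl_add_vertex' _ (SW 1 {N} o (SF N t 0)) (VV 1 N t) (0, t+1) hv.1 hv.2 hnot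
    rw [← hins, hc2, ← hE]
    push_cast
    rw [h.cnt]
  · intro a ha haN
    rw [← hins]
    unfold fF
    by_cases h1 : a ≤ 1
    · rw [if_pos h1]
      have : a = 1 := by omega
      subst this
      exact mem_insert_self _ _
    · rw [if_neg (by omega)]
      exact mem_insert_of_mem (h.mem (a-2) (by omega) (by omega))

theorem capT {N t : ℕ} {o : ℕ → ℕ → Bool} {s : St × ℤ} (ht : t % 2 = 0)
    (h : Inv (N+2) s (SW 1 {N} o (SB N t 0)) (VB 1 N t 0) (fB t 0)) :
    Inv N (St.cap 0 s.1, s.2) (SW 1 {N} o (TT N (t+2))) (VV 1 N (t+2)) (fun a => (a, t+2)) := by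
  have hr : Rep (N+2) s.1 (T21.SA N o (SB N t 0)) (fB t 0) :=
    h.rep.congr (fun a b => SW_SA N o (SB N t 0) a b) (fun _ _ _ => rfl)
  have hr2 := T21.rep_cap hr
  have hE : SW 1 {N} o (TT N (t+2)) = SW 1 {N} o (SB N t 0) := by
    funext a b
    apply propext
    apply SW_S
    intro i k
    unfold TT SB
    omega
  have hV : VV 1 N (t+2) = VB 1 N t 0 := by
    rw [VV_eq 1 N (t+2) (t+2) le_rfl]
    ext ⟨c, k⟩
    simp only [VB, mem_VP]
    omega
  refine ⟨hr2.congr (fun a b => (SW_SA N o (TT N (t+2)) a b).symm) (fun _ _ _ => rfl), ?_, ?_⟩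
  · rw [hV, hE, h.cnt]
  · intro a ha haN
    rw [VV_eq 1 N (t+2) (t+2) le_rfl, mem_VP]
    refine ⟨haN, le_rfl, ?_, le_rfl⟩
    simp only
    omega

theorem ncl_bot {N : ℕ} (hN : N % 2 = 1) {lam : ℕ} (hlam : lam < 2) {W : Finset ℕ}
    {o : ℕ → ℕ → Bool}
    (hW : ∀ c ∈ W, ∀ c' ∈ W, c ≤ N → c' ≤ N → c % 2 = lam → c' % 2 = lam → c = c') :
    ncl (SW lam W o (TT N 0)) (VV lam N 0) = (N+1)/2 ∧
    ∀ a b : ℕ, a ≤ N → b ≤ N → a % 2 = lam → b % 2 = lam →
      EqvGen (SW lam W o (TT N 0)) (a, 0) (b, 0) → a = b := by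
  classical
  have key : ∀ x y : ℕ × ℕ, EqvGen (SW lam W o (TT N 0)) x y →
      x = y ∨ (x.1 ∈ W ∧ y.1 ∈ W) := by
    intro x y h
    induction h with
    | rel a b h =>
      rcases h with ⟨i, k, ⟨_, _, h⟩, _⟩ | h
      · omega
      · exact Or.inr h
    | refl a => exact Or.inl rfl
    | symm a b _ ih =>
      rcases ih with h | ⟨h, h'⟩
      · exact Or.inl h.symm
      · exact Or.inr ⟨h', h⟩
    | trans a b d _ _ ih1 ih2 =>
      rcases ih1 with h | ⟨h, h'⟩ <;> rcases ih2 with k | ⟨k, k'⟩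
      · exact Or.inl (h.trans k)
      · subst h; exact Or.inr ⟨k, k'⟩
      · subst k; exact Or.inr ⟨h, h'⟩
      · exact Or.inr ⟨h, k'⟩
  have key2 : ∀ a b : ℕ, a ≤ N → b ≤ N → a % 2 = lam → b % 2 = lam →
      EqvGen (SW lam W o (TT N 0)) (a, 0) (b, 0) → a = b := by
    intro a b ha hb ha2 hb2 h
    rcases key _ _ h with h | ⟨h, h'⟩
    · simpa using h
    · exact hW _ h _ h' ha hb ha2 hb2
  refine ⟨?_, key2⟩
  have hV : VV lam N 0 = (range ((N+1)/2)).image (fun j => ((2*j+lam, 0) : ℕ × ℕ)) := by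
    ext ⟨c, k⟩
    unfold VV
    simp only [mem_filter, mem_product, mem_range, mem_image, Prod.mk.injEq]
    constructor
    · rintro ⟨⟨h1, h2⟩, h3⟩
      exact ⟨c / 2, by omega, by omega, by omega⟩
    · rintro ⟨j, h1, h2, h3⟩
      refine ⟨⟨?_, ?_⟩, ?_⟩ <;> omega
  unfold ncl
  rw [hV, image_image, card_image_of_injOn, card_range]
  intro j hj j' hj' h
  rw [mem_coe, mem_range] at hj hj'
  have h2 := (T23Aux.cls_eq_iff _ _ _).1 h
  have := key2 (2*j+lam) (2*j'+lam) (by omega) (by omega) (by omega) (by omega) h2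
  omega

theorem inv_TK (N : ℕ) (hN : N % 2 = 1) (o : ℕ → ℕ → Bool) (M : ℕ) :
    Inv N (TK N o M) (SW 1 {N} o (TT N (2*M))) (VV 1 N (2*M)) (fun a => (a, 2*M)) := by
  induction M with
  | zero =>
    have h0 := ncl_bot hN (lam := 1) (by norm_num) (W := {N}) (o := o)
      (by intro c hc c' hc' _ _ _ _; rw [mem_singleton] at hc hc'; omega)
    refine ⟨?_, ?_, ?_⟩
    · intro a b ha hb haN hbN
      change a = b ↔ _
      constructor
      · rintro rfl; exact EqvGen.refl _
      · intro h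
        exact h0.2 a b haN hbN ha hb h
    · simp only [Nat.mul_zero, TK]
      rw [h0.1]
    · intro a ha haN
      rw [VV_eq 1 N _ _ le_rfl, mem_VP]
      refine ⟨haN, le_rfl, ?_, le_rfl⟩
      simp only
      omega
  | succ M ih =>
    have h1 := insT (t := 2*M) (by omega) hN ih
    have hW : ∀ c ∈ ({N} : Finset ℕ), c = 0 ∨ c = N := by
      intro c hc; rw [mem_singleton] at hc; exact Or.inr hc
    have h2 := fwd1 (t := 2*M) (by omega) hN hW h1 N le_rfl
    have h3 := turn1 (t := 2*M) (by omega) hN (mem_singleton_self N) h2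
    have h4 := bwd1 (t := 2*M) (by omega) hN hW N le_rfl h3
    have h5 := capT (t := 2*M) (by omega) h4
    exact h5

/-! ### both sides wired together -/

/-- frontier of the strip with both sides wired -/
def fW (N t j : ℕ) : ℕ × ℕ := if j ≤ 1 then (N, t) else (j-2, t)

theorem startU {N t : ℕ} (ht : t % 2 = 0) (hN : N % 2 = 1) {o : ℕ → ℕ → Bool} {s : St × ℤ}
    (h : Inv (N+2) s (SW 1 {0, N} o (TT N t)) (VV 1 N t) (fW N t)) :
    Inv (N+2) s (SW 1 {0, N} o (SF N t 0)) (VF 1 N t 0) (fF t 0) := by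
  have m0 : (0:ℕ) ∈ ({0, N} : Finset ℕ) := by simp
  have mN : N ∈ ({0, N} : Finset ℕ) := by simp
  have hw : EqvGen (SW 1 {0, N} o (TT N t)) (0, t+1) (N, t) := EqvGen.rel _ _ (Or.inr ⟨m0, mN⟩)
  have hmem : ∀ c, c % 2 = 1 → c ≤ N → ((c, t) : ℕ × ℕ) ∈ VV 1 N t := by
    intro c hc hcN
    rw [VV_eq 1 N _ _ le_rfl, mem_VP]
    refine ⟨hcN, le_rfl, ?_, le_rfl⟩
    simp only
    omega
  have key := h.old (α' := fF t 0) (0, t+1) (N, t) (hmem N hN le_rfl) hw
    (by
      intro a ha haN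
      by_cases h1 : a ≤ 1
      · have e1 : fW N t a = (N, t) := by unfold fW; rw [if_pos h1]
        have e2 : fF t 0 a = (0, t+1) := by
          unfold fF; rw [if_pos (by omega)]
          have : a = 1 := by omega
          subst this; simp
        rw [e1, e2]
        exact ⟨hw.symm _ _, mem_insert_self _ _⟩
      · have e1 : fW N t a = (a-2, t) := by unfold fW; rw [if_neg h1]
        have e2 : fF t 0 a = (a-2, t) := by unfold fF; rw [if_neg (by omega)]
        rw [e1, e2]
        exact ⟨EqvGen.refl _, mem_insert_of_mem (hmem _ (by omega) (by omega))⟩)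
  refine key.congr ?_ ?_ (fun _ _ _ => rfl)
  · intro a b
    apply SW_S
    intro i k
    unfold TT SF
    omega
  · rw [VV_eq 1 N t (t+2) (by omega)]
    ext ⟨c, k⟩
    simp only [VF, mem_insert, mem_VP, Prod.mk.injEq]
    omega

theorem endU {N t : ℕ} (ht : t % 2 = 0) (hN : N % 2 = 1) {o : ℕ → ℕ → Bool} {s : St × ℤ}
    (h : Inv (N+2) s (SW 1 {0, N} o (SB N t 0)) (VB 1 N t 0) (fB t 0)) :
    Inv (N+2) s (SW 1 {0, N} o (TT N (t+2))) (VV 1 N (t+2)) (fW N (t+2)) := by
  have m0 : (0:ℕ) ∈ ({0, N} : Finset ℕ) := by simp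
  have mN : N ∈ ({0, N} : Finset ℕ) := by simp
  have hE : SW 1 {0, N} o (TT N (t+2)) = SW 1 {0, N} o (SB N t 0) := by
    funext a b
    apply propext
    apply SW_S
    intro i k
    unfold TT SB
    omega
  have hV : VV 1 N (t+2) = VB 1 N t 0 := by
    rw [VV_eq 1 N (t+2) (t+2) le_rfl]
    ext ⟨c, k⟩
    simp only [VB, mem_VP]
    omega
  have hw : EqvGen (SW 1 {0, N} o (SB N t 0)) (0, t+1) (N, t+2) :=
    EqvGen.rel _ _ (Or.inr ⟨m0, mN⟩)
  have hmem : ∀ c, c % 2 = 1 → c ≤ N → ((c, t+2) : ℕ × ℕ) ∈ VV 1 N (t+2) := by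
    intro c hc hcN
    rw [VV_eq 1 N _ _ le_rfl, mem_VP]
    refine ⟨hcN, le_rfl, ?_, le_rfl⟩
    simp only
    omega
  have hα : ∀ a, a % 2 = 1 → a ≤ N+2 →
      EqvGen (SW 1 {0, N} o (SB N t 0)) (fB t 0 a) (fW N (t+2) a) := by
    intro a ha haN
    by_cases h1 : a ≤ 1
    · have e1 : fW N (t+2) a = (N, t+2) := by unfold fW; rw [if_pos h1]
      have e2 : fB t 0 a = (0, t+1) := by
        unfold fB; rw [if_pos (by omega)]
        have : a = 1 := by omega
        subst this; simp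
      rw [e1, e2]
      exact hw
    · have e1 : fW N (t+2) a = (a-2, t+2) := by unfold fW; rw [if_neg h1]
      have e2 : fB t 0 a = (a-2, t+2) := by unfold fB; rw [if_neg (by omega)]
      rw [e1, e2]
      exact EqvGen.refl _
  refine ⟨?_, by rw [hE, hV, h.cnt], ?_⟩
  · rw [hE]
    intro a b ha hb han hbn
    rw [h.rep a b ha hb han hbn]
    have ea := hα a ha han
    have eb := hα b hb hbn
    constructor
    · intro k
      exact ((ea.symm _ _).trans _ _ _ k).trans _ _ _ eb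
    · intro k
      exact (ea.trans _ _ _ k).trans _ _ _ (eb.symm _ _)
  · intro a ha haN
    unfold fW
    split_ifs
    · exact hmem N hN le_rfl
    · exact hmem _ (by omega) (by omega)

theorem inv_UK1 (N : ℕ) (hN : N % 2 = 1) (o : ℕ → ℕ → Bool) (M : ℕ) :
    Inv (N+2) (UK 1 N o M) (SW 1 {0, N} o (TT N (2*M))) (VV 1 N (2*M)) (fW N (2*M)) := by
  have hW : ∀ c ∈ ({0, N} : Finset ℕ), c = 0 ∨ c = N := by
    intro c hc
    rw [mem_insert, mem_singleton] at hc
    exact hc
  have m0 : (0:ℕ) ∈ ({0, N} : Finset ℕ) := by simp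
  have mN : N ∈ ({0, N} : Finset ℕ) := by simp
  induction M with
  | zero =>
    have h0 := ncl_bot hN (lam := 1) (by norm_num) (W := {0, N}) (o := o)
      (by
        intro c hc c' hc' _ _ _ _
        have := hW c hc
        have := hW c' hc'
        omega)
    refine ⟨?_, ?_, ?_⟩
    · intro a b ha hb haN hbN
      have e : (UK 1 N o 0).1 = RW N := rfl
      rw [e]
      have hR : (RW N).rel a b ↔ a = b ∨ ((a = 1 ∨ a = N+2) ∧ (b = 1 ∨ b = N+2)) := by
        change (a = b ∨ (N % 2 = 1 ∧ (a = 1 ∨ a = N+2) ∧ (b = 1 ∨ b = N+2))) ↔ _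
        rw [hN]
        simp
      rw [hR]
      have key : ∀ j, j % 2 = 1 → j ≤ N + 2 → ∃ c, c % 2 = 1 ∧ c ≤ N ∧ fW N (2*0) j = (c, 0) ∧
          ((j = 1 ∨ j = N+2) ↔ c = N) ∧ (j ≠ 1 → c = j - 2) := by
        intro j hj hjN
        by_cases h1 : j ≤ 1
        · refine ⟨N, hN, le_rfl, ?_, ?_, ?_⟩
          · unfold fW; rw [if_pos h1]
          · omega
          · omega
        · refine ⟨j-2, by omega, by omega, ?_, ?_, ?_⟩
          · unfold fW; rw [if_neg h1]
          · omega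
          · omega
      obtain ⟨c, hc1, hc2, hc3, hc4, hc5⟩ := key a ha haN
      obtain ⟨d, hd1, hd2, hd3, hd4, hd5⟩ := key b hb hbN
      rw [hc3, hd3]
      constructor
      · rintro (h | ⟨h1, h2⟩)
        · subst h
          rw [hc3] at hd3
          rw [hd3]
          exact EqvGen.refl _
        · rw [hc4.1 h1, hd4.1 h2]
          exact EqvGen.refl _
      · intro h
        have e := h0.2 c d hc2 hd2 hc1 hd1 h
        by_cases h1 : c = N
        · exact Or.inr ⟨hc4.2 h1, hd4.2 (e ▸ h1)⟩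
        · left
          have k1 : ¬ (a = 1 ∨ a = N+2) := fun k => h1 (hc4.1 k)
          have k2 : ¬ (b = 1 ∨ b = N+2) := fun k => h1 (e.trans (hd4.1 k))
          have := hc5 (by omega)
          have := hd5 (by omega)
          omega
    · simp only [Nat.mul_zero, UK]
      rw [h0.1]
    · intro a ha haN
      rw [VV_eq 1 N _ _ le_rfl, mem_VP]
      unfold fW
      split_ifs
      · refine ⟨le_rfl, le_rfl, ?_, le_rfl⟩
        simp only
        omega
      · refine ⟨?_, le_rfl, ?_, le_rfl⟩ <;> simp only <;> omega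
  | succ M ih =>
    have h1 := startU (t := 2*M) (by omega) hN ih
    have h2 := fwd1 (t := 2*M) (by omega) hN hW h1 N le_rfl
    have h3 := turn1 (t := 2*M) (by omega) hN mN h2
    have h4 := bwd1 (t := 2*M) (by omega) hN hW N le_rfl h3
    exact endU (t := 2*M) (by omega) hN h4

/-! ### the free strip -/

def gF (t i j : ℕ) : ℕ × ℕ := if j ≤ i then (j, t+1) else (j-1, t)

def gB (t i j : ℕ) : ℕ × ℕ := if j ≤ i then (j, t+1) else (j-1, t+2)

theorem fwd0 {N t : ℕ} (ht : t % 2 = 0) (hN : N % 2 = 1) {o : ℕ → ℕ → Bool} {s : St × ℤ}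
    (h : Inv N s (SW 0 ∅ o (SF N t 0)) (VF 0 N t 0) (gF t 0)) (i : ℕ) (hi : i ≤ N) :
    Inv N (fwK 0 i (o t) s) (SW 0 ∅ o (SF N t i)) (VF 0 N t i) (gF t i) := by
  induction i with
  | zero => simpa [fwK] using h
  | succ i ih =>
    have ih := ih (by omega)
    simp only [fwK, Nat.add_zero]
    have hSadd : ∀ i' k', SF N t (i+1) i' k' ↔ (SF N t i i' k' ∨ (i' = i+1 ∧ k' = t)) := by
      intro i' k'; unfold SF; omega
    by_cases hodd : i % 2 = 1
    · have key := ih.join (i := i) hodd (by omega) (o t (i+1)) (i+1, t) (i+1-1, t+1)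
        (by
          right
          constructor
          · unfold gF; rw [if_neg (by omega)]; simp
          · unfold gF; rw [if_pos (by omega)]; simp)
      refine key.congr ?_ ?_ ?_
      · intro a b
        exact SW_add 0 ∅ o (SF N t i) (SF N t (i+1)) (i+1) t _ _ hSadd
          (Or.inl ⟨by omega, rfl, rfl⟩) a b
      · ext ⟨c, k⟩
        simp only [VF, mem_VP]
        omega
      · intro a ha haL
        unfold gF
        by_cases h1 : a ≤ i
        · rw [if_pos h1, if_pos (by omega)]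
        · rw [if_neg h1, if_neg (by omega)]
    · have hv := SW_iso 0 ∅ o (SF N t i) (i+1, t+1) (by simp)
        (by
          rintro i' k ⟨h1, h2, h3⟩
          refine ⟨fun _ => ⟨?_, ?_⟩, fun _ => ⟨?_, ?_⟩⟩ <;>
          · intro h
            simp only [Prod.mk.injEq] at h
            omega)
      have key := ih.move (i := i) (α' := gF t (i+1)) (by omega) (by omega) (o t (i+1))
        (i+1, t+1) hv.1 hv.2
        (by
          simp only [VF, mem_VP]
          omega)
        (by unfold gF; rw [if_pos (by omega)])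
        (by
          intro a ha haL hai
          unfold gF
          by_cases h1 : a ≤ i
          · rw [if_pos h1, if_pos (by omega)]
          · rw [if_neg h1, if_neg (by omega)])
      refine key.congr ?_ ?_ ?_
      · intro a b
        have e : gF t i (i+1) = (i+1-1, t) := by
          unfold gF; rw [if_neg (by omega)]
        rw [e]
        exact SW_add 0 ∅ o (SF N t i) (SF N t (i+1)) (i+1) t _ _ hSadd
          (Or.inr ⟨by omega, rfl, rfl⟩) a b
      · ext ⟨c, k⟩
        simp only [VF, mem_insert, mem_VP, Prod.mk.injEq]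
        omega
      · intro a ha haL; rfl

theorem bwd0 {N t : ℕ} (ht : t % 2 = 0) (hN : N % 2 = 1) {o : ℕ → ℕ → Bool} (i : ℕ)
    (hi : i ≤ N) : ∀ {s : St × ℤ}
    (_ : Inv N s (SW 0 ∅ o (SB N t i)) (VP 0 N (t+2) (fun c k => k ≤ t+1 ∨ (k = t+2 ∧ i ≤ c)))
      (gB t i)),
    Inv N (bwK 0 i (o (t+1)) s) (SW 0 ∅ o (SB N t 0))
      (VP 0 N (t+2) (fun c k => k ≤ t+1 ∨ (k = t+2 ∧ 0 ≤ c))) (gB t 0) := by
  induction i with
  | zero => intro s h; simpa [bwK] using h
  | succ i ih =>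
    intro s h
    simp only [bwK, Nat.add_zero]
    apply ih (by omega)
    have hSadd : ∀ i' k', SB N t i i' k' ↔ (SB N t (i+1) i' k' ∨ (i' = i+1 ∧ k' = t+1)) := by
      intro i' k'; unfold SB; omega
    by_cases hodd : i % 2 = 1
    · have key := h.join (i := i) hodd (by omega) (o (t+1) (i+1)) (i+1-1, t+1) (i+1, t+1+1)
        (by
          left
          constructor
          · unfold gB; rw [if_pos (by omega)]; simp
          · unfold gB; rw [if_neg (by omega)]; simp)
      refine key.congr ?_ ?_ ?_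
      · intro a b
        exact SW_add 0 ∅ o (SB N t (i+1)) (SB N t i) (i+1) (t+1) _ _ hSadd
          (Or.inr ⟨by omega, rfl, rfl⟩) a b
      · ext ⟨c, k⟩
        simp only [mem_VP]
        omega
      · intro a ha haL
        unfold gB
        by_cases h1 : a ≤ i
        · rw [if_pos (by omega), if_pos (by omega)]
        · rw [if_neg (by omega), if_neg (by omega)]
    · have hv := SW_iso 0 ∅ o (SB N t (i+1)) (i, t+2) (by simp)
        (by
          rintro i' k ⟨h1, h2, h3⟩
          refine ⟨fun _ => ⟨?_, ?_⟩, fun _ => ⟨?_, ?_⟩⟩ <;>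
          · intro h
            simp only [Prod.mk.injEq] at h
            omega)
      have key := h.move (i := i) (α' := gB t i) (by omega) (by omega) (o (t+1) (i+1))
        (i, t+2) hv.1 hv.2
        (by
          simp only [mem_VP]
          omega)
        (by unfold gB; rw [if_neg (by omega)]; simp)
        (by
          intro a ha haL hai
          unfold gB
          by_cases h1 : a ≤ i
          · rw [if_pos h1, if_pos (by omega)]
          · rw [if_neg h1, if_neg (by omega)])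
      refine key.congr ?_ ?_ ?_
      · intro a b
        have e : gB t (i+1) (i+1) = (i+1, t+1) := by
          unfold gB; rw [if_pos (by omega)]
        rw [e]
        exact SW_add 0 ∅ o (SB N t (i+1)) (SB N t i) (i+1) (t+1) _ _ hSadd
          (Or.inl ⟨by omega, rfl, by simp⟩) a b
      · ext ⟨c, k⟩
        simp only [mem_insert, mem_VP, Prod.mk.injEq]
        omega
      · intro a ha haL; rfl

theorem inv_UK0 (N : ℕ) (hN : N % 2 = 1) (o : ℕ → ℕ → Bool) (M : ℕ) :
    Inv N (UK 0 N o M) (SW 0 ∅ o (TT N (2*M))) (VV 0 N (2*M)) (fun a => (a-1, 2*M)) := by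
  induction M with
  | zero =>
    have h0 := ncl_bot hN (lam := 0) (by norm_num) (W := ∅) (o := o) (by simp)
    refine ⟨?_, ?_, ?_⟩
    · intro a b ha hb haN hbN
      change a = b ↔ _
      constructor
      · rintro rfl; exact EqvGen.refl _
      · intro h
        have := h0.2 (a-1) (b-1) (by omega) (by omega) (by omega) (by omega) h
        omega
    · simp only [Nat.mul_zero, UK]
      rw [h0.1]
    · intro a ha haN
      rw [VV_eq 0 N _ _ le_rfl, mem_VP]
      refine ⟨?_, le_rfl, ?_, le_rfl⟩ <;> simp only <;> omega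
  | succ M ih =>
    have h1 : Inv N (UK 0 N o M) (SW 0 ∅ o (SF N (2*M) 0)) (VF 0 N (2*M) 0) (gF (2*M) 0) := by
      refine ih.congr ?_ ?_ ?_
      · intro a b
        apply SW_S
        intro i k
        unfold TT SF
        omega
      · rw [VV_eq 0 N (2*M) (2*M+2) (by omega)]
        ext ⟨c, k⟩
        simp only [VF, mem_VP]
        omega
      · intro a ha haN
        unfold gF
        rw [if_neg (by omega)]
    have h2 := fwd0 (t := 2*M) (by omega) hN h1 N le_rfl
    have h3 : Inv N (fwK 0 N (o (2*M)) (UK 0 N o M)) (SW 0 ∅ o (SB N (2*M) N))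
        (VP 0 N (2*M+2) (fun c k => k ≤ 2*M+1 ∨ (k = 2*M+2 ∧ N ≤ c))) (gB (2*M) N) := by
      refine h2.congr ?_ ?_ ?_
      · intro a b
        apply SW_S
        intro i k
        unfold SF SB
        omega
      · ext ⟨c, k⟩
        simp only [VF, mem_VP]
        omega
      · intro a ha haN
        unfold gF gB
        rw [if_pos haN, if_pos haN]
    have h4 := bwd0 (t := 2*M) (by omega) hN N le_rfl h3
    refine h4.congr ?_ ?_ ?_
    · intro a b
      apply SW_S
      intro i k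
      unfold TT SB
      omega
    · rw [VV_eq 0 N (2*(M+1)) (2*M+2) (by omega)]
      ext ⟨c, k⟩
      simp only [mem_VP]
      omega
    · intro a ha haN
      unfold gB
      rw [if_neg (by omega)]
      rfl

/-! ### the numbers of clusters -/

theorem SW_TE (lam N K : ℕ) (W : Finset ℕ) (o : ℕ → ℕ → Bool) :
    SW lam W o (TT N K) = fun a b => TE lam N K o a b ∨ (a.1 ∈ W ∧ b.1 ∈ W) := by
  funext a b
  apply propext
  unfold SW TE TT
  constructor
  · rintro (⟨i, k, ⟨h1, h2, h3⟩, h4, h5⟩ | h)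
    · exact Or.inl ⟨i, k, h1, h2, h3, h4, h5⟩
    · exact Or.inr h
  · rintro (⟨i, k, h1, h2, h3, h4, h5⟩ | h)
    · exact Or.inl ⟨i, k, ⟨h1, h2, h3⟩, h4, h5⟩
    · exact Or.inr h

theorem kk_TK (N : ℕ) (hN : N % 2 = 1) (o : ℕ → ℕ → Bool) (M : ℕ) :
    (kk 1 N (2*M) {N} o : ℤ) = (TK N o M).2 := by
  have := (inv_TK N hN o M).cnt
  rw [SW_TE] at this
  exact this

theorem kk_UK1 (N : ℕ) (hN : N % 2 = 1) (o : ℕ → ℕ → Bool) (M : ℕ) :
    (kk 1 N (2*M) {0, N} o : ℤ) = (UK 1 N o M).2 := by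
  have := (inv_UK1 N hN o M).cnt
  rw [SW_TE] at this
  exact this

theorem kk_UK0 (N : ℕ) (hN : N % 2 = 1) (o : ℕ → ℕ → Bool) (M : ℕ) :
    (kk 0 N (2*M) ∅ o : ℤ) = (UK 0 N o M).2 := by
  have := (inv_UK0 N hN o M).cnt
  rw [SW_TE] at this
  exact this

end Pool.Agent.TH601.CC
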