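import Pool.Agent.TH601.CC.Sym

/-! The limit of the mean number of crossing clusters. -/

namespace Pool.Agent.TH601.CC

open Pool.Agent.H988R2.Perc Pool.Agent.H980R2.Cross Finset Filter Topology MeasureTheory

/-- mean of the number of clusters -/
noncomputable def ak (lam N K : ℕ) (W : Finset ℕ) : ℝ := avg N K (fun o => (kk lam N K W o : ℝ))

theorem kk_row_real (lam N K : ℕ) (hlam : lam < 2) (W : Finset ℕ) (o : ℕ → ℕ → Bool) :
    (kk lam N (K+1) W o : ℝ) ≤ kk lam N K W o + (N+1) ∧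
    (kk lam N K W o : ℝ) ≤ kk lam N (K+1) W o + (N+1) := by
  obtain ⟨h1, h2⟩ := kk_row lam N K hlam W o
  constructor
  · exact_mod_cast h1
  · have : kk lam N K W o ≤ kk lam N (K+1) W o + (N+1) := by omega
    exact_mod_cast this

theorem ak_row (lam N K : ℕ) (hlam : lam < 2) (W : Finset ℕ) :
    ak lam N (K+1) W ≤ ak lam N K W + (N+1) ∧ ak lam N K W ≤ ak lam N (K+1) W + (N+1) := by
  have e : ak lam N K W = avg N (K+1) (fun o => (kk lam N K W o : ℝ)) := by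
    unfold ak
    rw [avg_row N K _ (fun o o' h => by rw [kk_congr lam N K W o o' h])]
  rw [e]
  unfold ak
  constructor
  · have h := avg_add N (K+1) (fun o => (kk lam N K W o : ℝ)) (fun _ => (N:ℝ)+1)
    rw [avg_const] at h
    rw [← h]
    exact avg_mono _ _ _ _ (fun o => (kk_row_real lam N K hlam W o).1)
  · have h := avg_add N (K+1) (fun o => (kk lam N (K+1) W o : ℝ)) (fun _ => (N:ℝ)+1)
    rw [avg_const] at h
    rw [← h]
    exact avg_mono _ _ _ _ (fun o => (kk_row_real lam N K hlam W o).2)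

theorem ak_refl (N K : ℕ) (hN : N % 2 = 1) : ak 0 N K ∅ = ak 1 N K ∅ := by
  unfold ak
  have h := avg_invol N K (fun p => (p.1, N+1-p.2))
    (by
      rintro ⟨k, i⟩ h
      simp only [mem_product, mem_range, mem_Icc, Prod.mk.injEq, true_and] at h ⊢
      omega)
    (fun o => (kk 0 N K ∅ o : ℝ)) (fun o o' h => by rw [kk_congr 0 N K ∅ o o' h])
  rw [← h]
  congr 1
  funext o
  simp only
  rw [kk_refl N K hN ∅ ∅ (by simp) (by simp) o]

theorem ak_rot (N K : ℕ) (hN : N % 2 = 1) (hK : K % 2 = 1) : ak 1 N K {N} = ak 1 N K {0} := by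
  unfold ak
  have h := avg_invol N K (fun p => (K-1-p.1, N+1-p.2))
    (by
      rintro ⟨k, i⟩ h
      simp only [mem_product, mem_range, mem_Icc, Prod.mk.injEq] at h ⊢
      omega)
    (fun o => (kk 1 N K {N} o : ℝ)) (fun o o' h => by rw [kk_congr 1 N K {N} o o' h])
  rw [← h]
  congr 1
  funext o
  simp only
  rw [kk_rot N K hN hK {0} {N} (by simp) (by simp) o]

theorem ak_sides (N M : ℕ) (hN : N % 2 = 1) :
    |ak 1 N (2*M) {0} - ak 1 N (2*M) {N}| ≤ 2 * ((N:ℝ) + 1) := by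
  have h1 := ak_row 1 N (2*M) (by norm_num) {0}
  have h2 := ak_row 1 N (2*M) (by norm_num) {N}
  have h3 := ak_rot N (2*M+1) hN (by omega)
  rw [abs_le]
  constructor <;> linarith [h1.1, h1.2, h2.1, h2.2]

/-- the mean number of crossing clusters -/
noncomputable def ec (N K : ℕ) : ℝ := ∫ ω, ((crossingClusters N K ω).ncard : ℝ) ∂perc

theorem ec_eq (N K : ℕ) (hN : 1 ≤ N) (hK : 1 ≤ K) :
    ec N K = ak 1 N K ∅ + ak 1 N K {0, N} + 1 - ak 1 N K {0} - ak 1 N K {N} := by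
  unfold ec
  rw [expected_crossing]
  have h : avg N K (fun o => (CC 1 N K o : ℝ)) + ak 1 N K {0} + ak 1 N K {N} =
      ak 1 N K ∅ + ak 1 N K {0, N} + 1 := by
    unfold ak
    rw [← avg_add, ← avg_add, ← avg_add]
    have h := avg_add N K (fun o => (kk 1 N K ∅ o : ℝ) + (kk 1 N K {0, N} o : ℝ)) (fun _ => (1:ℝ))
    rw [avg_const] at h
    rw [← h]
    congr 1
    funext o
    exact_mod_cast crossing_identity 1 N K (by norm_num) hN hK o
  linarith

theorem ak_UK (N M : ℕ) (hN : Odd N) :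
    ((ak 1 N (2*M) ∅ + ak 1 N (2*M) {0, N} : ℝ) : ℂ) =
      2 * ((N+1)/2 : ℕ) + 1/2 * ∑ j ∈ range M,
        (JU 0 N ((UV 0 N)^[j] (Finsupp.single (st0 0 N) 1)) +
         JU 1 N ((UV 1 N)^[j] (Finsupp.single (st0 1 N) 1))) := by
  have hN' : N % 2 = 1 := Nat.odd_iff.mp hN
  rw [← avg_UK N M hN, ← ak_refl N (2*M) hN']
  unfold ak
  have e0 : (fun o => (kk 0 N (2*M) ∅ o : ℝ)) = fun o => ((UK 0 N o M).2 : ℝ) := by
    funext o
    rw [← kk_UK0 N hN' o M]; simp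
  have e1 : (fun o => (kk 1 N (2*M) {0, N} o : ℝ)) = fun o => ((UK 1 N o M).2 : ℝ) := by
    funext o
    rw [← kk_UK1 N hN' o M]; simp
  rw [e0, e1]

theorem ak_TK (N M : ℕ) (hN : Odd N) :
    ((ak 1 N (2*M) {N} : ℝ) : ℂ) = ((N+1)/2 : ℕ) + 1/2 * ∑ j ∈ range M, JT N (law N j) := by
  have hN' : N % 2 = 1 := Nat.odd_iff.mp hN
  rw [← avg_TK N M hN]
  unfold ak
  have e1 : (fun o => (kk 1 N (2*M) {N} o : ℝ)) = fun o => ((TK N o M).2 : ℝ) := by
    funext o
    rw [← kk_TK N hN' o M]; simp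
  rw [e1]

/-- **the exact density of the crossing clusters of the strip** -/
theorem ec_tendsto (N : ℕ) (hN : Odd N) :
    Tendsto (fun M : ℕ => ec N (2*M) / M) atTop (𝓝 (Pool.Agent.H980R2.Cross.rho N)) := by
  have hN' : N % 2 = 1 := Nat.odd_iff.mp hN
  set a : ℕ → ℂ := fun j => JU 0 N ((UV 0 N)^[j] (Finsupp.single (st0 0 N) 1)) +
         JU 1 N ((UV 1 N)^[j] (Finsupp.single (st0 1 N) 1)) with ha
  set b : ℕ → ℂ := fun j => JT N (law N j) with hb
  have la : Tendsto a atTop (𝓝 (2 * (N : ℂ) + 2 * LD (-q) (List.replicate N 1))) :=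
    JU_tendsto N hN
  have lb : Tendsto b atTop (𝓝 ((N : ℂ) + 1 + LD (-q) ((-q^2) :: (List.replicate N 1 ++ [0])))) :=
    JT_law_tendsto N hN
  rw [(LD_Z N hN).2] at la
  rw [(LD_T N hN).2] at lb
  have hre : ∀ M : ℕ, 1 ≤ M → ec N (2*M) / M =
      (2 + (ak 1 N (2*M) {N} - ak 1 N (2*M) {0} - 1)) / M +
      (1/2 * ((M:ℝ)⁻¹ * ∑ j ∈ range M, (a j).re) - ((M:ℝ)⁻¹ * ∑ j ∈ range M, (b j).re)) := by
    intro M hM
    have h1 := congrArg Complex.re (ak_UK N M hN)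
    have h2 := congrArg Complex.re (ak_TK N M hN)
    rw [Complex.ofReal_re] at h1 h2
    have e1 : (2 * (((N+1)/2 : ℕ) : ℂ) + 1/2 * ∑ j ∈ range M, a j).re =
        2 * (((N+1)/2 : ℕ) : ℝ) + 1/2 * ∑ j ∈ range M, (a j).re := by
      rw [Complex.add_re, ← Complex.re_sum]
      have : (1/2 : ℂ) = ((1/2 : ℝ) : ℂ) := by push_cast; ring
      rw [this, Complex.re_ofReal_mul]
      have : (2 : ℂ) = ((2 : ℝ) : ℂ) := by push_cast; ring
      rw [this, Complex.re_ofReal_mul, Complex.natCast_re]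
    have e2 : ((((N+1)/2 : ℕ) : ℂ) + 1/2 * ∑ j ∈ range M, b j).re =
        (((N+1)/2 : ℕ) : ℝ) + 1/2 * ∑ j ∈ range M, (b j).re := by
      rw [Complex.add_re, ← Complex.re_sum]
      have : (1/2 : ℂ) = ((1/2 : ℝ) : ℂ) := by push_cast; ring
      rw [this, Complex.re_ofReal_mul, Complex.natCast_re]
    have h1' : ak 1 N (2*M) ∅ + ak 1 N (2*M) {0, N} =
        2 * (((N+1)/2 : ℕ) : ℝ) + 1/2 * ∑ j ∈ range M, (a j).re := by
      rw [← e1, ← h1]
    have h2' : ak 1 N (2*M) {N} = (((N+1)/2 : ℕ) : ℝ) + 1/2 * ∑ j ∈ range M, (b j).re := by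
      rw [← e2, ← h2]
    rw [ec_eq N (2*M) (by omega) (by omega)]
    have hM' : (M:ℝ) ≠ 0 := by positivity
    field_simp
    linarith
  have l1 : Tendsto (fun M : ℕ => (2 + (ak 1 N (2*M) {N} - ak 1 N (2*M) {0} - 1)) / (M:ℝ)) atTop
      (𝓝 0) := by
    have hlim : Tendsto (fun M : ℕ => (2 * ((N:ℝ) + 1) + 3) / (M:ℝ)) atTop (𝓝 0) :=
      tendsto_const_div_atTop_nhds_zero_nat _
    refine squeeze_zero_norm ?_ hlim
    intro M
    rw [Real.norm_eq_abs, abs_div, Nat.abs_cast]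
    gcongr
    have h := abs_le.1 (ak_sides N M hN')
    rw [abs_le]
    constructor <;> linarith [h.1, h.2]
  have ra : Tendsto (fun j => (a j).re) atTop (𝓝 (2 * (N:ℝ) + 2 * (RR N - 6 * N - 2))) := by
    have e : (2 * (N : ℂ) + 2 * ((RR N - 6 * N - 2 : ℝ) : ℂ)) =
        ((2 * (N:ℝ) + 2 * (RR N - 6 * N - 2) : ℝ) : ℂ) := by
      push_cast; ring
    rw [e] at la
    exact (Complex.continuous_re.tendsto _).comp la
  have rb : Tendsto (fun j => (b j).re) atTop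
      (𝓝 ((N:ℝ) + 1 + (3 * (3 * N + 1) * (3 * N + 2) / RR N - 6 * N - 3))) := by
    have e : ((N : ℂ) + 1 + ((3 * (3 * N + 1) * (3 * N + 2) / RR N - 6 * N - 3 : ℝ) : ℂ)) =
      ((((N:ℝ) + 1 + (3 * (3 * N + 1) * (3 * N + 2) / RR N - 6 * N - 3) : ℝ)) : ℂ) := by
      push_cast; ring
    rw [e] at lb
    exact (Complex.continuous_re.tendsto _).comp lb
  have ca := ra.cesaro
  have cb := rb.cesaro
  have l2 := (ca.const_mul (1/2 : ℝ)).sub cb
  have l3 := l1.add l2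
  have e : 0 + (1 / 2 * (2 * (N:ℝ) + 2 * (RR N - 6 * N - 2)) -
      ((N:ℝ) + 1 + (3 * (3 * N + 1) * (3 * N + 2) / RR N - 6 * N - 3))) =
      Pool.Agent.H980R2.Cross.rho N := by
    unfold Pool.Agent.H980R2.Cross.rho; ring
  rw [e] at l3
  refine l3.congr' ?_
  filter_upwards [eventually_ge_atTop 1] with M hM
  rw [hre M hM]

end Pool.Agent.TH601.CC
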