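import Pool.Agent.TH601.CC.Count
import Pool.Agent.H980R2.Cross.T21
import Pool.Agent.H980R2.Cross.T22
import Pool.Agent.H988R2.Perc.T23
import Pool.Agent.H980R2.Cross.T19
import Pool.Agent.H980R2.Cross.T20

/-! The mean numbers of clusters, in terms of the linear chains. -/

namespace Pool.Agent.TH601.CC

open Pool.Agent.H988R2.Perc Pool.Agent.H980R2.Cross Finset
open Pool.Agent.H988R2.Perc.T23 (bits row SS mem_row mem_SS SS_succ row_succ row_succ' bits_insert
  bits_insert_self bits_not_mem tile_single_sum mapDomain_sum_single)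

/-! ### dependence on the bits -/

theorem fwK_congr (d n : ℕ) (c c' : ℕ → Bool) (s : St × ℤ)
    (h : ∀ i, 1 ≤ i → i ≤ n → c i = c' i) : fwK d n c s = fwK d n c' s := by
  induction n with
  | zero => rfl
  | succ n ih =>
    simp only [fwK]
    rw [ih (fun i h1 h2 => h i h1 (by omega)), h (n+1) (by omega) le_rfl]

theorem bwK_congr (d n : ℕ) (c c' : ℕ → Bool) (s : St × ℤ)
    (h : ∀ i, 1 ≤ i → i ≤ n → c i = c' i) : bwK d n c s = bwK d n c' s := by
  induction n generalizing s with
  | zero => rfl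
  | succ n ih =>
    simp only [bwK]
    rw [h (n+1) (by omega) le_rfl, ih _ (fun i h1 h2 => h i h1 (by omega))]

theorem UK_congr (d N : ℕ) (o o' : ℕ → ℕ → Bool) (M : ℕ)
    (h : ∀ k i, k < 2*M → 1 ≤ i → i ≤ N → o k i = o' k i) : UK d N o M = UK d N o' M := by
  induction M with
  | zero => rfl
  | succ M ih =>
    simp only [UK]
    rw [ih (fun k i hk h1 h2 => h k i (by omega) h1 h2),
      fwK_congr d N (o (2*M)) (o' (2*M)) _ (fun i h1 h2 => h _ i (by omega) h1 h2),
      bwK_congr d N (o (2*M+1)) (o' (2*M+1)) _ (fun i h1 h2 => h _ i (by omega) h1 h2)]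

theorem TK_congr (N : ℕ) (o o' : ℕ → ℕ → Bool) (M : ℕ)
    (h : ∀ k i, k < 2*M → 1 ≤ i → i ≤ N → o k i = o' k i) : TK N o M = TK N o' M := by
  induction M with
  | zero => rfl
  | succ M ih =>
    simp only [TK]
    rw [ih (fun k i hk h1 h2 => h k i (by omega) h1 h2),
      fwK_congr 1 N (o (2*M)) (o' (2*M)) _ (fun i h1 h2 => h _ i (by omega) h1 h2),
      bwK_congr 1 N (o (2*M+1)) (o' (2*M+1)) _ (fun i h1 h2 => h _ i (by omega) h1 h2)]

/-! ### one tile -/

/-- vector of the states -/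
noncomputable def vec (P : Finset (Finset (ℕ × ℕ))) (Y : Finset (ℕ × ℕ) → St × ℤ) : St →₀ ℂ :=
  ∑ t ∈ P, Finsupp.single (Y t).1 (1:ℂ)

/-- sum of the counts -/
noncomputable def cnt (P : Finset (Finset (ℕ × ℕ))) (Y : Finset (ℕ × ℕ) → St × ℤ) : ℂ :=
  ∑ t ∈ P, ((Y t).2 : ℂ)

/-- mean change by one tile at the position `p` (twice) -/
noncomputable def one (p : ℕ) (m : ℂ) (f : St →₀ ℂ) : ℂ := if p % 2 = 1 then phi p f - m else m

theorem one_smul' (p : ℕ) (c m : ℂ) (f : St →₀ ℂ) : one p (c * m) (c • f) = c * one p m f := by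
  unfold one
  split_ifs
  · rw [phi_smul]; ring
  · rfl

theorem phi_vec (p : ℕ) (P : Finset (Finset (ℕ × ℕ))) (Y : Finset (ℕ × ℕ) → St × ℤ) :
    phi p (vec P Y) = ∑ t ∈ P, (by classical exact if (Y t).1.rel p (p+2) then (1:ℂ) else 0) := by
  classical
  unfold vec
  rw [phi_sum]
  apply Finset.sum_congr rfl
  intro t _
  rw [phi_single]

theorem vec_step (S : Finset (ℕ × ℕ)) (k i p : ℕ) (hS : (k, i) ∉ S)
    (Y : Finset (ℕ × ℕ) → St × ℤ) (hY : ∀ t, Y (insert (k, i) t) = Y t) :
    vec (insert (k, i) S).powerset (fun t => stepT p (bits t k i) (Y t)) =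
      (2:ℂ) • tile p (vec S.powerset Y) := by
  unfold vec
  rw [tile_single_sum, Finset.sum_powerset_insert hS, ← Finset.sum_add_distrib, smul_smul]
  norm_num
  apply Finset.sum_congr rfl
  intro t ht
  have hnt : (k, i) ∉ t := fun h => hS (Finset.mem_powerset.mp ht h)
  rw [hY, bits_not_mem t k i hnt, bits_insert_self t k i]
  unfold stepT
  by_cases h : p % 2 = 1
  · simp [h]
  · simp only [h, if_false, if_true, Bool.false_eq_true]
    rw [add_comm]

theorem cnt_step (S : Finset (ℕ × ℕ)) (k i p : ℕ) (hS : (k, i) ∉ S)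
    (Y : Finset (ℕ × ℕ) → St × ℤ) (hY : ∀ t, Y (insert (k, i) t) = Y t) :
    cnt (insert (k, i) S).powerset (fun t => stepT p (bits t k i) (Y t)) =
      2 * cnt S.powerset Y + one p (S.powerset.card : ℂ) (vec S.powerset Y) := by
  classical
  unfold one
  rw [phi_vec]
  unfold cnt
  rw [Finset.sum_powerset_insert hS, ← Finset.sum_add_distrib]
  have key : ∀ t ∈ S.powerset, ((stepT p (bits t k i) (Y t)).2 : ℂ) +
      ((stepT p (bits (insert (k, i) t) k i) (Y (insert (k, i) t))).2 : ℂ) =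
      2 * ((Y t).2 : ℂ) + (if p % 2 = 1 then (if (Y t).1.rel p (p+2) then (1:ℂ) else 0) - 1
        else 1) := by
    intro t ht
    have hnt : (k, i) ∉ t := fun h => hS (Finset.mem_powerset.mp ht h)
    rw [hY, bits_not_mem t k i hnt, bits_insert_self t k i]
    unfold stepT
    by_cases h : p % 2 = 1
    · simp only [h, if_true, Bool.false_eq_true, if_false]
      by_cases h2 : (Y t).1.rel p (p+2)
      · simp only [h2, if_true]; push_cast; ring
      · simp only [h2, if_false]; push_cast; ring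
    · simp only [h, if_false, if_true, Bool.false_eq_true]
      push_cast; ring
  rw [Finset.sum_congr rfl key, Finset.sum_add_distrib, ← Finset.mul_sum]
  congr 1
  by_cases h : p % 2 = 1
  · simp only [h, if_true]
    rw [Finset.sum_sub_distrib]
    simp
  · simp only [h, if_false]
    simp

theorem card_insert_pow (S : Finset (ℕ × ℕ)) (x : ℕ × ℕ) (hS : x ∉ S) :
    ((insert x S).powerset.card : ℂ) = 2 * (S.powerset.card : ℂ) := by
  rw [Finset.card_powerset, Finset.card_powerset, Finset.card_insert_of_notMem hS, pow_succ]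
  push_cast
  ring

/-! ### the sweeps -/

/-- number of even minus number of odd positions -/
noncomputable def dlt (d : ℕ) : ℕ → ℂ
  | 0 => 0
  | L+1 => dlt d L + (if (L+d) % 2 = 1 then -1 else 1)

theorem row_zero (S : Finset (ℕ × ℕ)) (k : ℕ) : S ∪ row k 0 = S := by
  ext j; simp only [mem_union, mem_row]; constructor
  · rintro (h | h)
    · exact h
    · omega
  · exact Or.inl

theorem one_eq (d L : ℕ) (m : ℂ) (f : St →₀ ℂ) :
    one (L+d) m f = (if (L+d) % 2 = 1 then -1 else 1) * m +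
      (if (L+d) % 2 = 1 then phi (L+d) f else 0) := by
  unfold one
  split_ifs <;> ring

theorem fw_sum (d n : ℕ) (S : Finset (ℕ × ℕ)) (k : ℕ) (hS : ∀ i, 1 ≤ i → i ≤ n → (k, i) ∉ S)
    (Y : Finset (ℕ × ℕ) → St × ℤ) (hY : ∀ i t, 1 ≤ i → i ≤ n → Y (insert (k, i) t) = Y t) :
    ((S ∪ row k n).powerset.card : ℂ) = 2^n * S.powerset.card ∧
    vec (S ∪ row k n).powerset (fun t => fwK d n (bits t k) (Y t)) =
      ((2:ℂ)^n) • fwV d n (vec S.powerset Y) ∧
    cnt (S ∪ row k n).powerset (fun t => fwK d n (bits t k) (Y t)) =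
      (2:ℂ)^n * (cnt S.powerset Y + 1/2 * (dlt d n * S.powerset.card +
        JF d n (vec S.powerset Y))) := by
  induction n with
  | zero =>
    rw [row_zero]
    refine ⟨by simp, by simp [fwV, fwK], by simp [fwK, JF, dlt]⟩
  | succ n ih =>
    obtain ⟨ih0, ih1, ih2⟩ := ih (fun i h1 h2 => hS i h1 (by omega))
      (fun i t h1 h2 => hY i t h1 (by omega))
    have hn : (k, n+1) ∉ S ∪ row k n := by
      simp only [mem_union, mem_row, not_or]
      exact ⟨hS (n+1) (by omega) le_rfl, by omega⟩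
    have hY' : ∀ t, fwK d n (bits (insert (k, n+1) t) k) (Y (insert (k, n+1) t)) =
        fwK d n (bits t k) (Y t) := by
      intro t
      rw [hY (n+1) t (by omega) le_rfl]
      exact fwK_congr d n _ _ _ (fun i _ h2 => bits_insert t k i (n+1) (by omega))
    rw [row_succ]
    refine ⟨?_, ?_, ?_⟩
    · rw [card_insert_pow _ _ hn, ih0]; ring
    · have := vec_step (S ∪ row k n) k (n+1) (n+d) hn (fun t => fwK d n (bits t k) (Y t)) hY'
      simp only [fwK]
      rw [this, ih1]
      simp only [fwV]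
      rw [Pool.Agent.H988R2.Perc.T20.tile_smul, smul_smul, pow_succ, mul_comm]
    · have := cnt_step (S ∪ row k n) k (n+1) (n+d) hn (fun t => fwK d n (bits t k) (Y t)) hY'
      simp only [fwK]
      rw [this, ih1, ih2, ih0, one_smul', one_eq]
      simp only [JF, dlt]
      ring

theorem bw_sum (d n : ℕ) (S : Finset (ℕ × ℕ)) (k : ℕ) (hS : ∀ i, 1 ≤ i → i ≤ n → (k, i) ∉ S)
    (Y : Finset (ℕ × ℕ) → St × ℤ) (hY : ∀ i t, 1 ≤ i → i ≤ n → Y (insert (k, i) t) = Y t) :
    ((S ∪ row k n).powerset.card : ℂ) = 2^n * S.powerset.card ∧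
    vec (S ∪ row k n).powerset (fun t => bwK d n (bits t k) (Y t)) =
      ((2:ℂ)^n) • bwV d n (vec S.powerset Y) ∧
    cnt (S ∪ row k n).powerset (fun t => bwK d n (bits t k) (Y t)) =
      (2:ℂ)^n * (cnt S.powerset Y + 1/2 * (dlt d n * S.powerset.card +
        JB d n (vec S.powerset Y))) := by
  induction n generalizing S Y with
  | zero =>
    rw [row_zero]
    refine ⟨by simp, by simp [bwV, bwK], by simp [bwK, JB, dlt]⟩
  | succ n ih =>
    have hn : (k, n+1) ∉ S := hS (n+1) (by omega) le_rfl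
    have hY1 : ∀ t, Y (insert (k, n+1) t) = Y t := fun t => hY (n+1) t (by omega) le_rfl
    have v1 := vec_step S k (n+1) (n+d) hn Y hY1
    have c1 := cnt_step S k (n+1) (n+d) hn Y hY1
    obtain ⟨ih0, ih1, ih2⟩ := ih (insert (k, n+1) S)
      (by
        intro i h1 h2 h
        rw [mem_insert] at h
        rcases h with h | h
        · simp only [Prod.mk.injEq] at h; omega
        · exact hS i h1 (by omega) h)
      (fun t => stepT (n+d) (bits t k (n+1)) (Y t))
      (by
        intro i t h1 h2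
        rw [hY i t h1 (by omega), bits_insert t k (n+1) i (by omega)])
    rw [row_succ']
    refine ⟨?_, ?_, ?_⟩
    · rw [ih0, card_insert_pow _ _ hn]; ring
    · simp only [bwK]
      rw [ih1, v1]
      simp only [bwV]
      rw [T20.bwV_smul, smul_smul, pow_succ]
    · simp only [bwK]
      rw [ih2, v1, c1, card_insert_pow _ _ hn, T20.JB_smul, one_eq]
      simp only [JB, dlt]
      ring

/-! ### the chains -/

theorem SS_zero (N : ℕ) : SS N 0 = ∅ := by simp [SS]

theorem UK_sum (d N M : ℕ) :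
    ((SS N M).powerset.card : ℂ) = 2^(2*M*N) ∧
    vec (SS N M).powerset (fun t => UK d N (bits t) M) =
      ((2:ℂ)^(2*M*N)) • (UV d N)^[M] (Finsupp.single (st0 d N) 1) ∧
    cnt (SS N M).powerset (fun t => UK d N (bits t) M) =
      (2:ℂ)^(2*M*N) * (((N+1)/2 : ℕ) + 1/2 * ∑ j ∈ range M, (2 * dlt d N +
        JU d N ((UV d N)^[j] (Finsupp.single (st0 d N) 1)))) := by
  induction M with
  | zero =>
    rw [SS_zero]
    refine ⟨by simp, by simp [vec, UK], by simp [cnt, UK]; norm_cast⟩
  | succ M ih =>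
    obtain ⟨ih0, ih1, ih2⟩ := ih
    have hI : ∀ k i t, 2*M ≤ k → UK d N (bits (insert (k, i) t)) M = UK d N (bits t) M := by
      intro k i t hk
      apply UK_congr
      intro k' i' hk' _ _
      have : k' ≠ k := by omega
      simp [bits, this]
    obtain ⟨f0, f1, f2⟩ := fw_sum d N (SS N M) (2*M)
      (fun i _ _ h => by rw [mem_SS] at h; simp at h)
      (fun t => UK d N (bits t) M) (fun i t _ _ => hI (2*M) i t le_rfl)
    obtain ⟨b0, b1, b2⟩ := bw_sum d N (SS N M ∪ row (2*M) N) (2*M+1)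
      (fun i _ _ h => by
        rw [mem_union, mem_SS, mem_row] at h
        simp only at h
        omega)
      (fun t => fwK d N (bits t (2*M)) (UK d N (bits t) M))
      (by
        intro i t _ _
        rw [hI (2*M+1) i t (by omega)]
        apply fwK_congr
        intro i' _ _
        simp [bits])
    rw [SS_succ]
    refine ⟨?_, ?_, ?_⟩
    · rw [b0, f0, ih0, ← mul_assoc, ← pow_add, ← pow_add]
      congr 1
      ring
    · simp only [UK]
      rw [b1, f1, ih1, Function.iterate_succ_apply', T20.fwV_smul, T20.bwV_smul, T20.bwV_smul,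
        smul_smul, smul_smul]
      congr 1
      rw [← pow_add, ← pow_add]
      congr 1
      ring
    · simp only [UK]
      rw [b2, f2, f0, f1, ih0, ih1, ih2, Finset.sum_range_succ, T20.fwV_smul,
        T20.JB_smul, T20.JB_smul, T22.JF_smul]
      have e : (2:ℂ)^(2*(M+1)*N) = 2^N * 2^N * 2^(2*M*N) := by
        rw [← pow_add, ← pow_add]
        congr 1
        ring
      rw [e]
      unfold JU
      ring

theorem bwV_one (L : ℕ) (f : St →₀ ℂ) : bwV 1 L f = bwd L f := by
  induction L generalizing f with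
  | zero => rfl
  | succ L ih => simp only [bwV, bwd]; rw [ih]

theorem vec_map (g : St → St) (P : Finset (Finset (ℕ × ℕ))) (Y : Finset (ℕ × ℕ) → St × ℤ)
    (e : ℤ) : vec P (fun t => (g (Y t).1, (Y t).2 + e)) = Finsupp.mapDomain g (vec P Y) := by
  unfold vec
  rw [mapDomain_sum_single]

theorem cnt_map (g : St → St) (P : Finset (Finset (ℕ × ℕ))) (Y : Finset (ℕ × ℕ) → St × ℤ)
    (e : ℤ) : cnt P (fun t => (g (Y t).1, (Y t).2 + e)) = cnt P Y + e * P.card := by
  unfold cnt
  simp only [Int.cast_add]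
  rw [Finset.sum_add_distrib]
  simp [mul_comm]

theorem TK_sum (N M : ℕ) :
    vec (SS N M).powerset (fun t => TK N (bits t) M) = ((2:ℂ)^(2*M*N)) • law N M ∧
    cnt (SS N M).powerset (fun t => TK N (bits t) M) =
      (2:ℂ)^(2*M*N) * (((N+1)/2 : ℕ) + ∑ j ∈ range M, (1 + 1/2 * (2 * dlt 1 N +
        JT N (law N j)))) := by
  induction M with
  | zero =>
    rw [SS_zero]
    refine ⟨by simp [vec, TK, law], by simp [cnt, TK]; norm_cast⟩
  | succ M ih =>
    obtain ⟨ih1, ih2⟩ := ih
    have ih0 := (UK_sum 0 N M).1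
    have hI : ∀ k i t, 2*M ≤ k → TK N (bits (insert (k, i) t)) M = TK N (bits t) M := by
      intro k i t hk
      apply TK_congr
      intro k' i' hk' _ _
      have : k' ≠ k := by omega
      simp [bits, this]
    obtain ⟨f0, f1, f2⟩ := fw_sum 1 N (SS N M) (2*M)
      (fun i _ _ h => by rw [mem_SS] at h; simp at h)
      (fun t => (St.ins 0 (TK N (bits t) M).1, (TK N (bits t) M).2 + 1))
      (fun i t _ _ => by rw [hI (2*M) i t le_rfl])
    obtain ⟨b0, b1, b2⟩ := bw_sum 1 N (SS N M ∪ row (2*M) N) (2*M+1)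
      (fun i _ _ h => by
        rw [mem_union, mem_SS, mem_row] at h
        simp only at h
        omega)
      (fun t => fwK 1 N (bits t (2*M)) (St.ins 0 (TK N (bits t) M).1, (TK N (bits t) M).2 + 1))
      (by
        intro i t _ _
        rw [hI (2*M+1) i t (by omega)]
        apply fwK_congr
        intro i' _ _
        simp [bits])
    have v0 : vec (SS N M).powerset (fun t => (St.ins 0 (TK N (bits t) M).1,
        (TK N (bits t) M).2 + 1)) = ((2:ℂ)^(2*M*N)) • ins0 (law N M) := by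
      rw [vec_map (St.ins 0) (SS N M).powerset (fun t => TK N (bits t) M) 1, ih1]
      unfold ins0
      rw [Finsupp.mapDomain_smul]
    have c0 : cnt (SS N M).powerset (fun t => (St.ins 0 (TK N (bits t) M).1,
        (TK N (bits t) M).2 + 1)) = (2:ℂ)^(2*M*N) * (((N+1)/2 : ℕ) + ∑ j ∈ range M, (1 + 1/2 *
          (2 * dlt 1 N + JT N (law N j))) + 1) := by
      rw [cnt_map (St.ins 0) (SS N M).powerset (fun t => TK N (bits t) M) 1, ih2, ih0]
      push_cast
      ring
    have hl : law N (M+1) = Finsupp.mapDomain (St.cap 0)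
        (bwV 1 N (fwV 1 N (ins0 (law N M)))) := by
      have h1 : law N (M+1) = Tvec N (law N M) := by
        unfold law; rw [Function.iterate_succ_apply']
      rw [h1, bwV_one, T19.fwV_one]
      rfl
    rw [SS_succ]
    refine ⟨?_, ?_⟩
    · have := vec_map (St.cap 0) ((SS N M ∪ row (2*M) N ∪ row (2*M+1) N).powerset)
        (fun t => bwK 1 N (bits t (2*M+1)) (fwK 1 N (bits t (2*M))
          (St.ins 0 (TK N (bits t) M).1, (TK N (bits t) M).2 + 1))) 0
      simp only [add_zero] at this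
      simp only [TK]
      rw [this, b1, f1, v0, hl, T20.fwV_smul, T20.bwV_smul, T20.bwV_smul, smul_smul, smul_smul,
        Finsupp.mapDomain_smul]
      congr 1
      rw [← pow_add, ← pow_add]
      congr 1
      ring
    · have := cnt_map (St.cap 0) ((SS N M ∪ row (2*M) N ∪ row (2*M+1) N).powerset)
        (fun t => bwK 1 N (bits t (2*M+1)) (fwK 1 N (bits t (2*M))
          (St.ins 0 (TK N (bits t) M).1, (TK N (bits t) M).2 + 1))) 0
      simp only [add_zero] at this
      simp only [TK]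
      rw [this, b2, f2, f1, v0, c0, f0, ih0, Finset.sum_range_succ, T20.fwV_smul,
        T20.JB_smul, T20.JB_smul, T22.JF_smul]
      have e : (2:ℂ)^(2*(M+1)*N) = 2^N * 2^N * 2^(2*M*N) := by
        rw [← pow_add, ← pow_add]
        congr 1
        ring
      rw [e]
      unfold JT
      push_cast
      ring

theorem dlt_pos (d L : ℕ) (h : (L+d) % 2 = 1) : dlt d (L+1) = dlt d L - 1 := by
  simp only [dlt]
  rw [if_pos h]; ring

theorem dlt_neg (d L : ℕ) (h : (L+d) % 2 = 0) : dlt d (L+1) = dlt d L + 1 := by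
  simp only [dlt]
  rw [if_neg (by omega)]

theorem dlt_add (n : ℕ) : dlt 0 (2*n) = 0 ∧ dlt 1 (2*n) = 0 := by
  induction n with
  | zero => simp [dlt]
  | succ n ih =>
    have e : 2*(n+1) = 2*n+1+1 := by ring
    rw [e, dlt_pos 0 (2*n+1) (by omega), dlt_neg 0 (2*n) (by omega), dlt_neg 1 (2*n+1) (by omega),
      dlt_pos 1 (2*n) (by omega), ih.1, ih.2]
    constructor <;> ring

theorem dlt_odd {N : ℕ} (hN : Odd N) : dlt 0 N = 1 ∧ dlt 1 N = -1 := by
  obtain ⟨n, rfl⟩ := hN
  rw [dlt_neg 0 (2*n) (by omega), dlt_pos 1 (2*n) (by omega), (dlt_add n).1, (dlt_add n).2]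
  constructor <;> ring

/-- means of the counts -/
theorem avg_cnt (N M : ℕ) (Y : (ℕ → ℕ → Bool) → St × ℤ) (c : ℂ)
    (h : cnt (SS N M).powerset (fun t => Y (bits t)) = (2:ℂ)^(2*M*N) * c) :
    ((avg N (2*M) (fun o => ((Y o).2 : ℝ)) : ℝ) : ℂ) = c := by
  unfold avg
  unfold cnt at h
  push_cast
  have h2 : (∑ t ∈ (range (2*M) ×ˢ Icc 1 N).powerset,
      (((Y (fun k i => decide ((k, i) ∈ t))).2 : ℤ) : ℂ)) = (2:ℂ)^(2*M*N) * c := h
  rw [h2]
  have : (2:ℂ)^(2*M*N) ≠ 0 := pow_ne_zero _ (by norm_num)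
  field_simp

theorem avg_UK (N M : ℕ) (hN : Odd N) :
    ((avg N (2*M) (fun o => ((UK 0 N o M).2 : ℝ)) + avg N (2*M) (fun o => ((UK 1 N o M).2 : ℝ)) : ℝ) : ℂ) =
      2 * ((N+1)/2 : ℕ) + 1/2 * ∑ j ∈ range M,
        (JU 0 N ((UV 0 N)^[j] (Finsupp.single (st0 0 N) 1)) +
         JU 1 N ((UV 1 N)^[j] (Finsupp.single (st0 1 N) 1))) := by
  have h0 := avg_cnt N M (fun o => UK 0 N o M) _ (UK_sum 0 N M).2.2
  have h1 := avg_cnt N M (fun o => UK 1 N o M) _ (UK_sum 1 N M).2.2
  push_cast
  rw [h0, h1, (dlt_odd hN).1, (dlt_odd hN).2, Finset.sum_add_distrib, Finset.sum_add_distrib,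
    Finset.sum_add_distrib]
  simp only [Finset.sum_const, card_range, nsmul_eq_mul]
  ring

theorem avg_TK (N M : ℕ) (hN : Odd N) :
    ((avg N (2*M) (fun o => ((TK N o M).2 : ℝ)) : ℝ) : ℂ) =
      ((N+1)/2 : ℕ) + 1/2 * ∑ j ∈ range M, JT N (law N j) := by
  have h0 := avg_cnt N M (fun o => TK N o M) _ (TK_sum N M).2
  rw [h0, (dlt_odd hN).2, Finset.mul_sum]
  congr 1
  apply Finset.sum_congr rfl
  intro j _
  ring

end Pool.Agent.TH601.CC
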