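import Pool.Agent.TH601.CC.Asym

/-! The rate: `√3/(2N+1) - 1/(2N³) ≤ ρ(N) ≤ √3/(2N+1)` for odd `N`. -/

namespace Pool.Agent.TH601.CC

open Pool.Agent.H988R2.Perc Finset Filter Topology Real
open Pool.Agent.H980R2.Cross (RR)

/-- the comparison sequence -/
noncomputable def dd (y : ℝ) : ℝ := 3 * y^2 + 15/4 - 17 / y^2

theorem dd_pos {y : ℝ} (hy : 9/2 ≤ y) : 0 < dd y := by
  unfold dd
  have h1 : 17 / y^2 ≤ 17 / (9/2)^2 := by
    apply div_le_div_of_nonneg_left (by norm_num) (by norm_num)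
    nlinarith
  have h2 : 0 < y^2 := by positivity
  nlinarith

theorem dd_step {z : ℝ} (hz : 15/2 ≤ z) :
    (z + 5/2)^2 * (z + 1/2)^2 * dd (z - 3) ≤ (z - 1/2)^2 * (z - 5/2)^2 * dd (z + 3) := by
  unfold dd
  have h1 : 0 < z - 3 := by linarith
  have h2 : 0 < z + 3 := by linarith
  have key : (z - 1/2)^2 * (z - 5/2)^2 * (3 * (z+3)^2 + 15/4 - 17 / (z+3)^2) -
      (z + 5/2)^2 * (z + 1/2)^2 * (3 * (z-3)^2 + 15/4 - 17 / (z-3)^2) =
      z * (17 * (24 * z^4 + 261 * z^2 + 615/4) - 405 * (z^2-9)^2) / ((z-3)^2 * (z+3)^2) := by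
    field_simp
    ring
  have h3 : 0 ≤ z * (17 * (24 * z^4 + 261 * z^2 + 615/4) - 405 * (z^2-9)^2) := by
    apply mul_nonneg (by linarith)
    nlinarith [sq_nonneg (z^2), mul_self_nonneg (z^2 - 9)]
  have h4 : 0 ≤ z * (17 * (24 * z^4 + 261 * z^2 + 615/4) - 405 * (z^2-9)^2) /
      ((z-3)^2 * (z+3)^2) := div_nonneg h3 (by positivity)
  linarith

/-- the ratio -/
noncomputable def gg (n : ℕ) : ℝ := (RR (2*n+1))^2 / dd (yy n)

theorem yy_ge (n : ℕ) : 9/2 ≤ yy n := by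
  unfold yy
  have hn : (0:ℝ) ≤ n := Nat.cast_nonneg n
  linarith

theorem gg_step (n : ℕ) : gg (n+1) ≤ gg n := by
  have hr := RR_two n
  have hn : (0:ℝ) ≤ n := Nat.cast_nonneg n
  have q1 := dd_pos (yy_ge n)
  have q2 := dd_pos (yy_ge (n+1))
  unfold gg
  set z : ℝ := yy n + 3 with hz
  have hz7 : 15/2 ≤ z := by rw [hz]; unfold yy; linarith
  have hy1 : yy n = z - 3 := by rw [hz]; ring
  have hy2 : yy (n+1) = z + 3 := by rw [hz]; unfold yy; push_cast; ring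
  have hn2 : (n:ℝ) = (z - 15/2) / 6 := by rw [hz]; unfold yy; ring
  rw [hr, hn2]
  rw [hy2] at q2 ⊢
  rw [hy1] at q1 ⊢
  generalize RR (2*n+1) = r at *
  have d3 : 0 < (z - 1/2)^2 * (z - 5/2)^2 := by
    have : 0 < z - 1/2 := by linarith
    have : 0 < z - 5/2 := by linarith
    positivity
  have e1 : (r * (((6*((z - 15/2) / 6)+10) * (6*((z - 15/2) / 6)+8)) /
      ((6*((z - 15/2) / 6)+7) * (6*((z - 15/2) / 6)+5))))^2 =
      r^2 * ((z + 5/2)^2 * (z+1/2)^2) / ((z - 1/2)^2 * (z - 5/2)^2) := by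
    have a1 : 6*((z - 15/2) / 6)+10 = z + 5/2 := by ring
    have a2 : 6*((z - 15/2) / 6)+8 = z + 1/2 := by ring
    have a3 : 6*((z - 15/2) / 6)+7 = z - 1/2 := by ring
    have a4 : 6*((z - 15/2) / 6)+5 = z - 5/2 := by ring
    rw [a1, a2, a3, a4]
    rw [mul_pow, div_pow, mul_pow, mul_pow]
    ring
  rw [e1]
  have key := dd_step hz7
  have hr2 : 0 ≤ r^2 := sq_nonneg r
  rw [div_div, div_le_div_iff₀ (mul_pos d3 q2) q1]
  calc r^2 * ((z + 5/2)^2 * (z+1/2)^2) * dd (z - 3)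
      = r^2 * ((z + 5/2)^2 * (z+1/2)^2 * dd (z - 3)) := by ring
    _ ≤ r^2 * ((z - 1/2)^2 * (z - 5/2)^2 * dd (z + 3)) := by gcongr

theorem gg_lim : Tendsto gg atTop (𝓝 1) := by
  have h1 := RR_lim.pow 2
  have h2 : Tendsto (fun n : ℕ => 3 * (6 + 9/2 / (n:ℝ))^2 + 15/4 / (n:ℝ)^2 -
      17 / (yy n)^2 / (n:ℝ)^2) atTop (𝓝 (3 * (6 + 0)^2 + 0 - 0)) := by
    apply Tendsto.sub
    · apply Tendsto.add
      · apply Tendsto.const_mul
        apply Tendsto.pow
        apply Tendsto.const_add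
        exact tendsto_const_div_atTop_nhds_zero_nat _
      · apply Tendsto.div_atTop tendsto_const_nhds
        exact (tendsto_pow_atTop (by norm_num)).comp tendsto_natCast_atTop_atTop
    · have b : ∀ n : ℕ, 17 / (yy n)^2 / (n:ℝ)^2 ≤ 17 / (n:ℝ)^2 := by
        intro n
        have hy := yy_ge n
        have : 17 / (yy n)^2 ≤ 17 := by
          rw [div_le_iff₀ (by positivity)]
          nlinarith
        gcongr
      refine squeeze_zero (fun n => by
        have := yy_ge n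
        positivity) b ?_
      apply Tendsto.div_atTop tendsto_const_nhds
      exact (tendsto_pow_atTop (by norm_num)).comp tendsto_natCast_atTop_atTop
  have h3 := h1.div h2 (by norm_num)
  have e : (6 * √3)^2 / (3 * (6 + 0)^2 + 0 - 0) = 1 := by
    rw [mul_pow, Real.sq_sqrt (by norm_num)]; norm_num
  rw [e] at h3
  refine h3.congr' ?_
  filter_upwards [eventually_ge_atTop 1] with n hn
  have hn0 : (0:ℝ) < n := by exact_mod_cast hn
  simp only [Pi.div_apply]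
  unfold gg
  have q := dd_pos (yy_ge n)
  have e2 : 3 * (6 + 9/2 / (n:ℝ))^2 + 15/4 / (n:ℝ)^2 - 17 / (yy n)^2 / (n:ℝ)^2 =
      dd (yy n) / (n:ℝ)^2 := by
    have hy := yy_ge n
    have hy0 : yy n ≠ 0 := by positivity
    unfold dd
    have e3 : 6 + 9/2 / (n:ℝ) = yy n / n := by unfold yy; field_simp
    rw [e3]
    field_simp
  rw [e2]
  field_simp

theorem RR_sq_lower' (n : ℕ) : dd (yy n) ≤ (RR (2*n+1))^2 := by
  have ha : Antitone gg := antitone_nat_of_succ_le gg_step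
  have h1 := ha.le_of_tendsto gg_lim n
  unfold gg at h1
  rwa [one_le_div (dd_pos (yy_ge n))] at h1

theorem rho_eq (n : ℕ) : Pool.Agent.H980R2.Cross.rho (2*n+1) =
    ((RR (2*n+1))^2 - 3 * (yy n)^2 + 3/4) / RR (2*n+1) := by
  have hR := (RR_pos' (2*n+1)).ne'
  unfold Pool.Agent.H980R2.Cross.rho yy
  push_cast
  field_simp
  ring

theorem rho_bounds (n : ℕ) :
    √3 / (2 * ((2*n+1 : ℕ):ℝ) + 1) - 1 / (2 * ((2*n+1 : ℕ):ℝ)^3) ≤
      Pool.Agent.H980R2.Cross.rho (2*n+1) ∧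
    Pool.Agent.H980R2.Cross.rho (2*n+1) ≤ √3 / (2 * ((2*n+1 : ℕ):ℝ) + 1) := by
  have hy := yy_ge n
  have hy0 : 0 < yy n := by linarith
  have hR := RR_pos' (2*n+1)
  have hs : 0 < √3 := by positivity
  have hs2 : √3 * √3 = 3 := Real.mul_self_sqrt (by norm_num)
  have hlow := RR_sq_lower' n
  have hup := RR_sq_upper n
  unfold dd at hlow
  have hN : 2 * ((2*n+1 : ℕ):ℝ) + 1 = 2/3 * yy n := by unfold yy; push_cast; ring
  have h17 : 17 / (yy n)^2 ≤ 15/4 := by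
    rw [div_le_iff₀ (by positivity)]
    nlinarith
  -- `√3 y ≤ R`
  have hRlow : √3 * yy n ≤ RR (2*n+1) := by
    refine (pow_le_pow_iff_left₀ (by positivity) hR.le two_ne_zero).1 ?_
    rw [mul_pow, Real.sq_sqrt (by norm_num)]
    linarith
  rw [rho_eq, hN]
  have etar : √3 / (2/3 * yy n) = (9/2) / (√3 * yy n) := by
    rw [div_eq_div_iff (by positivity) (by positivity)]
    nlinarith
  constructor
  · -- lower bound
    have hRup : RR (2*n+1) ≤ √3 * yy n * (1 + 5 / (8 * (yy n)^2)) := by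
      refine (pow_le_pow_iff_left₀ hR.le (by positivity) two_ne_zero).1 ?_
      have e : (√3 * yy n * (1 + 5 / (8 * (yy n)^2)))^2 =
          3 * (yy n)^2 + 15/4 + 3 * (yy n)^2 * (5 / (8 * (yy n)^2))^2 := by
        rw [mul_pow, mul_pow, Real.sq_sqrt (by norm_num)]
        field_simp
        ring
      rw [e]
      have : 0 ≤ 3 * (yy n)^2 * (5 / (8 * (yy n)^2))^2 := by positivity
      linarith
    have hnum : 9/2 - 17 / (yy n)^2 ≤ (RR (2*n+1))^2 - 3 * (yy n)^2 + 3/4 := by linarith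
    have hnum0 : 0 ≤ 9/2 - 17 / (yy n)^2 := by linarith
    have h1 : (9/2 - 17 / (yy n)^2) / (√3 * yy n * (1 + 5 / (8 * (yy n)^2))) ≤
        ((RR (2*n+1))^2 - 3 * (yy n)^2 + 3/4) / RR (2*n+1) := by
      apply div_le_div₀ (hnum0.trans hnum) hnum hR hRup
    refine le_trans ?_ h1
    rw [etar]
    have hNy : ((2*n+1 : ℕ):ℝ) ≤ yy n / 3 := by unfold yy; push_cast; linarith
    have hNpos : (0:ℝ) < ((2*n+1 : ℕ):ℝ) := by positivity
    have hcube : 27 / (2 * (yy n)^3) ≤ 1 / (2 * ((2*n+1 : ℕ):ℝ)^3) := by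
      rw [div_le_div_iff₀ (by positivity) (by positivity)]
      have : ((2*n+1 : ℕ):ℝ)^3 ≤ (yy n / 3)^3 := pow_le_pow_left₀ hNpos.le hNy 3
      nlinarith
    have h2 : 9/2 / (√3 * yy n) - 27 / (2 * (yy n)^3) ≤
        (9/2 - 17 / (yy n)^2) / (√3 * yy n * (1 + 5 / (8 * (yy n)^2))) := by
      have hs17 : 17/10 ≤ √3 := by
        apply Real.le_sqrt_of_sq_le; norm_num
      rw [le_div_iff₀ (by positivity)]
      have e : (9/2 / (√3 * yy n) - 27 / (2 * (yy n)^3)) * (√3 * yy n * (1 + 5 / (8 * (yy n)^2))) =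
          9/2 + (45/16 - 27/2 * √3) / (yy n)^2 - √3 * (135/16) / (yy n)^4 := by
        field_simp
        ring
      rw [e]
      have h3 : (45/16 - 27/2 * √3) / (yy n)^2 ≤ (-17) / (yy n)^2 := by
        apply div_le_div_of_nonneg_right _ (by positivity)
        linarith
      have h4 : 0 ≤ √3 * (135/16) / (yy n)^4 := by positivity
      have h5 : (-17) / (yy n)^2 = - (17 / (yy n)^2) := by ring
      linarith
    linarith
  · rw [etar]
    apply div_le_div₀ (by norm_num) _ (by positivity) hRlow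
    linarith

theorem rho_bounds' (N : ℕ) (hN : Odd N) :
    √3 / (2 * (N:ℝ) + 1) - 1 / (2 * (N:ℝ)^3) ≤ Pool.Agent.H980R2.Cross.rho N ∧
    Pool.Agent.H980R2.Cross.rho N ≤ √3 / (2 * (N:ℝ) + 1) := by
  obtain ⟨n, rfl⟩ := hN
  exact rho_bounds n

end Pool.Agent.TH601.CC
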