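import Pool.Agent.TH601.CC.Mean
import Pool.Agent.H980R2.Cross.T30
import Pool.Agent.H980R2.Cross.T14
import Pool.Agent.H980R2.Cross.T15

/-! Symmetries, and the limit of the mean number of crossing clusters. -/

namespace Pool.Agent.TH601.CC

open Pool.Agent.H988R2.Perc Pool.Agent.H980R2.Cross Finset Relation

/-! ### counting classes -/

theorem ncl_map {α : Type*} [DecidableEq α] {E E' : α → α → Prop} {S S' : Finset α}
    (g g' : α → α) (hg : ∀ a b, E a b → E' (g a) (g b)) (hg' : ∀ a b, E' a b → E (g' a) (g' b))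
    (hgg : ∀ a ∈ S, g' (g a) = a) (hS : S.image g = S') : ncl E' S' = ncl E S := by
  classical
  have m1 : ∀ x y, EqvGen E x y → EqvGen E' (g x) (g y) := by
    intro x y h
    induction h with
    | rel a b h => exact EqvGen.rel _ _ (hg a b h)
    | refl a => exact EqvGen.refl _
    | symm a b _ ih => exact EqvGen.symm _ _ ih
    | trans a b d _ _ ih1 ih2 => exact EqvGen.trans _ _ _ ih1 ih2
  have m2 : ∀ x y, EqvGen E' x y → EqvGen E (g' x) (g' y) := by
    intro x y h
    induction h with
    | rel a b h => exact EqvGen.rel _ _ (hg' a b h)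
    | refl a => exact EqvGen.refl _
    | symm a b _ ih => exact EqvGen.symm _ _ ih
    | trans a b d _ _ ih1 ih2 => exact EqvGen.trans _ _ _ ih1 ih2
  subst hS
  unfold ncl
  have e : (S.image g).image (fun a => {b | EqvGen E' a b}) =
      S.image (fun a => {b | EqvGen E' (g a) b}) := by
    rw [Finset.image_image]; rfl
  have h2 : ((S.image g).image (fun a => {b | EqvGen E' a b})).card =
      (S.image (fun a => {b | EqvGen E a b})).card := by
    rw [e]
    apply T23Aux.card_image_congr
    intro a ha b hb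
    rw [T23Aux.cls_eq_iff, T23Aux.cls_eq_iff E a b]
    constructor
    · intro h
      have := m2 _ _ (T23Aux.cls_eq_iff E' (g a) (g b) |>.1 (by
        ext c
        exact ⟨fun k => (h.symm _ _).trans _ _ _ k, fun k => h.trans _ _ _ k⟩))
      rw [hgg a ha, hgg b hb] at this
      exact this
    · intro h
      exact m1 _ _ h
  convert h2

theorem ncl_mono_set {α : Type*} [DecidableEq α] (E : α → α → Prop) {S S' : Finset α}
    (h : S ⊆ S') : ncl E S ≤ ncl E S' ∧ ncl E S' ≤ ncl E S + (S' \ S).card := by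
  classical
  unfold ncl
  constructor
  · exact Finset.card_le_card (Finset.image_subset_image h)
  · have e : S' = S ∪ (S' \ S) := (Finset.union_sdiff_of_subset h).symm
    calc (S'.image (fun a => {b | EqvGen E a b})).card
        = ((S ∪ (S' \ S)).image (fun a => {b | EqvGen E a b})).card := by rw [← e]
      _ ≤ (S.image (fun a => {b | EqvGen E a b})).card +
          ((S' \ S).image (fun a => {b | EqvGen E a b})).card := by
            rw [Finset.image_union]; exact Finset.card_union_le _ _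
      _ ≤ _ := by
            gcongr
            convert Finset.card_image_le

/-! ### reflection and rotation of the strip -/

theorem mem_VV' {lam N K : ℕ} {p : ℕ × ℕ} :
    p ∈ VV lam N K ↔ p.1 ≤ N ∧ p.2 ≤ K ∧ (p.1 + p.2) % 2 = lam := by
  unfold VV
  simp only [mem_filter, mem_product, mem_range]
  omega

/-- reflection of the columns -/
theorem kk_refl (N K : ℕ) (hN : N % 2 = 1) (W W' : Finset ℕ) (hW : ∀ c ∈ W, N - c ∈ W')
    (hW' : ∀ c ∈ W', N - c ∈ W) (o : ℕ → ℕ → Bool) :
    kk 0 N K W' (fun k i => o k (N+1-i)) = kk 1 N K W o := by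
  unfold kk
  apply ncl_map (fun p : ℕ × ℕ => (N - p.1, p.2)) (fun p : ℕ × ℕ => (N - p.1, p.2))
  · rintro a b (⟨i, k, h1, h2, h3, h4, h5⟩ | ⟨h1, h2⟩)
    · left
      refine ⟨N+1-i, k, by omega, by omega, h3, ?_, ?_⟩
      · have : N + 1 - (N + 1 - i) = i := by omega
        simp only [this]; exact h4
      · rcases h5 with ⟨h5, rfl, rfl⟩ | ⟨h5, rfl, rfl⟩
        · right
          refine ⟨by omega, ?_, ?_⟩ <;> apply Prod.ext <;> simp only <;> omega
        · left
          refine ⟨by omega, ?_, ?_⟩ <;> apply Prod.ext <;> simp only <;> omega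
    · exact Or.inr ⟨hW _ h1, hW _ h2⟩
  · rintro a b (⟨i, k, h1, h2, h3, h4, h5⟩ | ⟨h1, h2⟩)
    · left
      refine ⟨N+1-i, k, by omega, by omega, h3, h4, ?_⟩
      rcases h5 with ⟨h5, rfl, rfl⟩ | ⟨h5, rfl, rfl⟩
      · right
        refine ⟨by omega, ?_, ?_⟩ <;> apply Prod.ext <;> simp only <;> omega
      · left
        refine ⟨by omega, ?_, ?_⟩ <;> apply Prod.ext <;> simp only <;> omega
    · exact Or.inr ⟨hW' _ h1, hW' _ h2⟩
  · rintro ⟨c, k⟩ h
    rw [mem_VV'] at h
    simp only at h
    apply Prod.ext <;> simp only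
    omega
  · ext ⟨c, k⟩
    simp only [mem_image, mem_VV', Prod.mk.injEq]
    constructor
    · rintro ⟨⟨c', k'⟩, h1, h2, h3⟩
      simp only at h1 h2 h3
      omega
    · rintro ⟨h1, h2, h3⟩
      refine ⟨(N - c, k), ?_, ?_, rfl⟩
      · simp only; omega
      · simp only; omega

/-- rotation by the angle `π`; here `K` is odd -/
theorem kk_rot (N K : ℕ) (hN : N % 2 = 1) (hK : K % 2 = 1) (W W' : Finset ℕ)
    (hW : ∀ c ∈ W, N - c ∈ W') (hW' : ∀ c ∈ W', N - c ∈ W) (o : ℕ → ℕ → Bool) :
    kk 1 N K W' (fun k i => o (K-1-k) (N+1-i)) = kk 1 N K W o := by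
  unfold kk
  have aux : ∀ (o' : ℕ → ℕ → Bool) (a b : ℕ × ℕ), (TE 1 N K o' a b ∨ TE 1 N K o' b a) →
      (TE 1 N K (fun k i => o' (K-1-k) (N+1-i)) (N - a.1, K - a.2) (N - b.1, K - b.2) ∨
       TE 1 N K (fun k i => o' (K-1-k) (N+1-i)) (N - b.1, K - b.2) (N - a.1, K - a.2)) := by
    intro o' a b h
    rcases h with ⟨i, k, h1, h2, h3, h4, h5⟩ | ⟨i, k, h1, h2, h3, h4, h5⟩
    all_goals
      have e1 : N + 1 - (N + 1 - i) = i := by omega
      have e2 : K - 1 - (K - 1 - k) = k := by omega
    · right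
      refine ⟨N+1-i, K-1-k, by omega, by omega, by omega, ?_, ?_⟩
      · simp only [e1, e2]; exact h4
      · rcases h5 with ⟨h5, rfl, rfl⟩ | ⟨h5, rfl, rfl⟩
        · left
          refine ⟨by omega, ?_, ?_⟩ <;> apply Prod.ext <;> simp only <;> omega
        · right
          refine ⟨by omega, ?_, ?_⟩ <;> apply Prod.ext <;> simp only <;> omega
    · left
      refine ⟨N+1-i, K-1-k, by omega, by omega, by omega, ?_, ?_⟩
      · simp only [e1, e2]; exact h4
      · rcases h5 with ⟨h5, rfl, rfl⟩ | ⟨h5, rfl, rfl⟩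
        · left
          refine ⟨by omega, ?_, ?_⟩ <;> apply Prod.ext <;> simp only <;> omega
        · right
          refine ⟨by omega, ?_, ?_⟩ <;> apply Prod.ext <;> simp only <;> omega
  -- symmetric versions
  have hsym : ∀ (o' : ℕ → ℕ → Bool) (W0 : Finset ℕ),
      ncl (fun a b : ℕ × ℕ => TE 1 N K o' a b ∨ (a.1 ∈ W0 ∧ b.1 ∈ W0)) (VV 1 N K) =
      ncl (fun a b : ℕ × ℕ => (TE 1 N K o' a b ∨ TE 1 N K o' b a) ∨ (a.1 ∈ W0 ∧ b.1 ∈ W0))
        (VV 1 N K) := by
    intro o' W0
    apply ncl_congr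
    intro a ha b
    clear ha
    constructor
    · intro h
      exact T23Aux.eqvGen_mono (fun x y h => by
        rcases h with h | h
        · exact Or.inl (Or.inl h)
        · exact Or.inr h) h
    · intro h
      induction h with
      | rel a b h =>
        rcases h with (h | h) | h
        · exact EqvGen.rel _ _ (Or.inl h)
        · exact EqvGen.symm _ _ (EqvGen.rel _ _ (Or.inl h))
        · exact EqvGen.rel _ _ (Or.inr h)
      | refl a => exact EqvGen.refl _
      | symm a b _ ih => exact EqvGen.symm _ _ ih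
      | trans a b d _ _ ih1 ih2 => exact EqvGen.trans _ _ _ ih1 ih2
  have e1 := hsym o W
  have e2 := hsym (fun k i => o (K-1-k) (N+1-i)) W'
  refine e2.trans (Eq.trans ?_ e1.symm)
  apply ncl_map (fun p : ℕ × ℕ => (N - p.1, K - p.2)) (fun p : ℕ × ℕ => (N - p.1, K - p.2))
  · rintro a b (h | ⟨h1, h2⟩)
    · exact Or.inl (aux o a b h)
    · exact Or.inr ⟨hW _ h1, hW _ h2⟩
  · rintro a b (h | ⟨h1, h2⟩)
    · left
      have h := aux _ a b h
      have hc : ∀ x y : ℕ × ℕ, TE 1 N K (fun k i => o (K-1-(K-1-k)) (N+1-(N+1-i))) x y →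
          TE 1 N K o x y := by
        rintro x y ⟨i, k, h1, h2, h3, h4, h5⟩
        refine ⟨i, k, h1, h2, h3, ?_, h5⟩
        have e1 : N + 1 - (N + 1 - i) = i := by omega
        have e2 : K - 1 - (K - 1 - k) = k := by omega
        simp only [e1, e2] at h4
        exact h4
      rcases h with h | h
      · exact Or.inl (hc _ _ h)
      · exact Or.inr (hc _ _ h)
    · exact Or.inr ⟨hW' _ h1, hW' _ h2⟩
  · rintro ⟨c, k⟩ h
    rw [mem_VV'] at h
    simp only at h
    apply Prod.ext <;> simp only <;> omega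
  · ext ⟨c, k⟩
    simp only [mem_image, mem_VV', Prod.mk.injEq]
    constructor
    · rintro ⟨⟨c', k'⟩, h1, h2, h3⟩
      simp only at h1 h2 h3
      omega
    · rintro ⟨h1, h2, h3⟩
      refine ⟨(N - c, K - k), ?_, ?_, ?_⟩
      · simp only; omega
      · simp only; omega
      · simp only; omega

/-! ### one more row -/

theorem kk_row (lam N K : ℕ) (hlam : lam < 2) (W : Finset ℕ) (o : ℕ → ℕ → Bool) :
    kk lam N (K+1) W o ≤ kk lam N K W o + (N+1) ∧ kk lam N K W o ≤ kk lam N (K+1) W o + N := by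
  classical
  have hE : ∀ K', (fun a b : ℕ × ℕ => TE lam N K' o a b ∨ (a.1 ∈ W ∧ b.1 ∈ W)) =
      SW lam W o (TT N K') := fun K' => (SW_TE lam N K' W o).symm
  unfold kk
  rw [hE, hE]
  set V := VV lam N K with hV
  set V' := VV lam N (K+1) with hV'
  have hsub : V ⊆ V' := by
    intro p hp
    rw [hV, mem_VV'] at hp
    rw [hV', mem_VV']
    omega
  have hcard : (V' \ V).card ≤ N + 1 := by
    have : V' \ V ⊆ (range (N+1)).image (fun c => ((c, K+1) : ℕ × ℕ)) := by
      rintro ⟨c, k⟩ hp
      rw [mem_sdiff, hV, hV', mem_VV', mem_VV'] at hp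
      rw [mem_image]
      refine ⟨c, ?_, ?_⟩
      · rw [mem_range]; simp only at hp; omega
      · apply Prod.ext
        · rfl
        · simp only at hp ⊢; omega
    calc _ ≤ _ := Finset.card_le_card this
      _ ≤ _ := Finset.card_image_le
      _ = N + 1 := card_range _
  have hm := ncl_mono_set (SW lam W o (TT N K)) hsub
  -- adding the tiles of the row one by one
  have hstep : ∀ i, i ≤ N →
      ncl (SW lam W o (T21.SF N K i)) V' ≤ ncl (SW lam W o (TT N K)) V' ∧
      ncl (SW lam W o (TT N K)) V' ≤ ncl (SW lam W o (T21.SF N K i)) V' + i := by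
    intro i
    induction i with
    | zero =>
      intro _
      have : SW lam W o (T21.SF N K 0) = SW lam W o (TT N K) := by
        funext a b
        apply propext
        apply SW_S
        intro i k
        unfold TT T21.SF
        omega
      rw [this]
      exact ⟨le_rfl, le_rfl⟩
    | succ i ih =>
      intro hi
      have ih := ih (by omega)
      have hSadd : ∀ i' k', T21.SF N K (i+1) i' k' ↔
          (T21.SF N K i i' k' ∨ (i' = i+1 ∧ k' = K)) := by
        intro i' k'; unfold T21.SF; omega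
      obtain ⟨p, p', hpp, hp, hp'⟩ : ∃ p p' : ℕ × ℕ,
          (((i + 1 + K) % 2 = lam ∧ p = (i+1, K) ∧ p' = (i+1-1, K+1)) ∨
          ((i + 1 + K) % 2 ≠ lam ∧ p = (i+1-1, K) ∧ p' = (i+1, K+1))) ∧ p ∈ V' ∧ p' ∈ V' := by
        by_cases h : (i + 1 + K) % 2 = lam
        · refine ⟨_, _, Or.inl ⟨h, rfl, rfl⟩, ?_, ?_⟩ <;> rw [hV', mem_VV'] <;> simp only <;>
            omega
        · refine ⟨_, _, Or.inr ⟨h, rfl, rfl⟩, ?_, ?_⟩ <;> rw [hV', mem_VV'] <;> simp only <;>
            omega
      have hadd := SW_add lam W o (T21.SF N K i) (T21.SF N K (i+1)) (i+1) K p p' hSadd hpp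
      have e : SW lam W o (T21.SF N K (i+1)) =
          fun a b => SW lam W o (T21.SF N K i) a b ∨ (o K (i+1) = true ∧ a = p ∧ b = p') := by
        funext a b
        exact propext (hadd a b).symm
      have hc := ncl_add_edge (SW lam W o (T21.SF N K i)) V' (o K (i+1) = true) p p' hp hp'
      rw [← e] at hc
      by_cases hcond : o K (i+1) = true ∧ ¬ EqvGen (SW lam W o (T21.SF N K i)) p p'
      · rw [if_pos hcond] at hc
        omega
      · rw [if_neg hcond] at hc
        omega
  have hlast : SW lam W o (T21.SF N K N) = SW lam W o (TT N (K+1)) := by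
    funext a b
    apply propext
    apply SW_S
    intro i k
    unfold TT T21.SF
    omega
  have h2 := hstep N le_rfl
  rw [hlast] at h2
  omega

theorem kk_congr (lam N K : ℕ) (W : Finset ℕ) (o o' : ℕ → ℕ → Bool)
    (h : ∀ k i, k < K → 1 ≤ i → i ≤ N → o k i = o' k i) : kk lam N K W o = kk lam N K W o' := by
  have : TE lam N K o = TE lam N K o' := by
    funext a b
    apply propext
    constructor
    · rintro ⟨i, k, h1, h2, h3, h4, h5⟩
      exact ⟨i, k, h1, h2, h3, by rw [← h k i h3 h1 h2]; exact h4, h5⟩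
    · rintro ⟨i, k, h1, h2, h3, h4, h5⟩
      exact ⟨i, k, h1, h2, h3, by rw [h k i h3 h1 h2]; exact h4, h5⟩
  unfold kk
  rw [this]

/-! ### averages -/

theorem avg_add (N K : ℕ) (F G : (ℕ → ℕ → Bool) → ℝ) :
    avg N K (fun o => F o + G o) = avg N K F + avg N K G := by
  unfold avg
  rw [Finset.sum_add_distrib, add_div]

theorem avg_const (N K : ℕ) (c : ℝ) : avg N K (fun _ => c) = c := by
  unfold avg
  rw [Finset.sum_const, Finset.card_powerset, Finset.card_product, card_range, Nat.card_Icc,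
    nsmul_eq_mul]
  simp only [Nat.add_sub_cancel]
  push_cast
  have : (2:ℝ)^(K*N) ≠ 0 := pow_ne_zero _ (by norm_num)
  field_simp

theorem avg_mono (N K : ℕ) (F G : (ℕ → ℕ → Bool) → ℝ) (h : ∀ o, F o ≤ G o) :
    avg N K F ≤ avg N K G := by
  unfold avg
  gcongr
  exact h _

/-- invariance under an involution of the tiles -/
theorem avg_invol (N K : ℕ) (e : ℕ × ℕ → ℕ × ℕ)
    (he : ∀ p ∈ (range K) ×ˢ (Icc 1 N), e p ∈ (range K) ×ˢ (Icc 1 N) ∧ e (e p) = p)
    (F : (ℕ → ℕ → Bool) → ℝ)
    (hF : ∀ o o' : ℕ → ℕ → Bool, (∀ k i, k < K → 1 ≤ i → i ≤ N → o k i = o' k i) → F o = F o') :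
    avg N K (fun o => F (fun k i => o (e (k, i)).1 (e (k, i)).2)) = avg N K F := by
  unfold avg
  congr 1
  set S := (range K) ×ˢ (Icc 1 N) with hS
  have hmem : ∀ t ∈ S.powerset, t.image e ∈ S.powerset := by
    intro t ht
    rw [mem_powerset] at ht ⊢
    intro p hp
    rw [mem_image] at hp
    obtain ⟨p', hp', rfl⟩ := hp
    exact (he p' (ht hp')).1
  have hinv : ∀ t ∈ S.powerset, (t.image e).image e = t := by
    intro t ht
    rw [mem_powerset] at ht
    rw [image_image]
    ext p
    rw [mem_image]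
    constructor
    · rintro ⟨p', hp', h⟩
      rw [Function.comp_apply, (he p' (ht hp')).2] at h
      rw [← h]; exact hp'
    · intro hp
      exact ⟨p, hp, (he p (ht hp)).2⟩
  refine Finset.sum_nbij' (fun t => t.image e) (fun t => t.image e) hmem hmem hinv hinv ?_
  intro t ht
  apply hF
  intro k i hk h1 h2
  have hp : (k, i) ∈ S := by
    rw [hS, mem_product, mem_range, mem_Icc]
    exact ⟨hk, h1, h2⟩
  have hts := mem_powerset.1 ht
  simp only [decide_eq_decide]
  rw [mem_image]
  constructor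
  · intro h
    exact ⟨e (k, i), h, (he _ hp).2⟩
  · rintro ⟨p', hp', h⟩
    have := (he p' (hts hp')).2
    rw [h] at this
    rw [this]; exact hp'

/-- a function of the first `K` rows -/
theorem avg_row (N K : ℕ) (F : (ℕ → ℕ → Bool) → ℝ)
    (hF : ∀ o o' : ℕ → ℕ → Bool, (∀ k i, k < K → 1 ≤ i → i ≤ N → o k i = o' k i) → F o = F o') :
    avg N (K+1) F = avg N K F := by
  unfold avg
  have key : ∀ n, n ≤ N →
      ∑ t ∈ ((range K) ×ˢ (Icc 1 N) ∪ T23.row K n).powerset, F (fun k i => decide ((k, i) ∈ t)) =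
      2^n * ∑ t ∈ ((range K) ×ˢ (Icc 1 N)).powerset, F (fun k i => decide ((k, i) ∈ t)) := by
    intro n
    induction n with
    | zero =>
      intro _
      rw [row_zero]; simp
    | succ n ih =>
      intro hn
      have hnot : (K, n+1) ∉ (range K) ×ˢ (Icc 1 N) ∪ T23.row K n := by
        rw [mem_union, mem_product, mem_range, T23.mem_row]
        simp only
        omega
      rw [T23.row_succ, Finset.sum_powerset_insert hnot, ih (by omega)]
      have : ∀ t ∈ ((range K) ×ˢ (Icc 1 N) ∪ T23.row K n).powerset,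
          F (fun k i => decide ((k, i) ∈ insert (K, n+1) t)) =
          F (fun k i => decide ((k, i) ∈ t)) := by
        intro t _
        apply hF
        intro k i hk _ _
        have : ¬ k = K := by omega
        simp [this]
      rw [Finset.sum_congr rfl this, ih (by omega)]
      ring
  have e : (range (K+1)) ×ˢ (Icc 1 N) = (range K) ×ˢ (Icc 1 N) ∪ T23.row K N := by
    ext ⟨k, i⟩
    simp only [mem_product, mem_range, mem_Icc, mem_union, T23.mem_row]
    omega
  rw [e, key N le_rfl]
  have h2 : (2:ℝ)^((K+1)*N) = 2^N * 2^(K*N) := by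
    rw [← pow_add]; congr 1; ring
  rw [h2, mul_div_mul_left _ _ (pow_ne_zero _ (by norm_num))]

end Pool.Agent.TH601.CC
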