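import Pool.Agent.H980R2.Unif.U4
import Pool.Agent.TH601.CC.Limit

/-! Cutting a rotated rectangle along a line `u + v = c`. -/

namespace Pool.Agent.TH601.CC

open Pool.Agent.H988R2.Perc Pool.Agent.H980R2.Cross Pool.Agent.H980R2.Unif Finset Filter Topology
  MeasureTheory

theorem OpenAdj.symm' {ω : Conf} {x y : ℤ × ℤ} (h : OpenAdj ω x y) : OpenAdj ω y x := by
  unfold OpenAdj at h ⊢
  obtain ⟨x1, x2⟩ := x
  obtain ⟨y1, y2⟩ := y
  rcases h with ⟨e, h⟩ | ⟨e, h⟩ | ⟨e, h⟩ | ⟨e, h⟩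
  · exact Or.inr (Or.inl ⟨e, h⟩)
  · exact Or.inl ⟨e, h⟩
  · exact Or.inr (Or.inr (Or.inr ⟨e, h⟩))
  · exact Or.inr (Or.inr (Or.inl ⟨e, h⟩))

theorem OpenAdj.sum {ω : Conf} {x y : ℤ × ℤ} (h : OpenAdj ω x y) :
    (y.1 + y.2 = x.1 + x.2 + 1 ∨ x.1 + x.2 = y.1 + y.2 + 1) := by
  unfold OpenAdj at h
  rcases h with ⟨e, h⟩ | ⟨e, h⟩ | ⟨e, h⟩ | ⟨e, h⟩
  · left; rw [e]; simp only; ring
  · right; rw [e]; simp only; ring
  · left; rw [e]; simp only; ring
  · right; rw [e]; simp only; ring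

theorem OpenAdj.diff {ω : Conf} {x y : ℤ × ℤ} (h : OpenAdj ω x y) :
    (y.1 - y.2 = x.1 - x.2 + 1 ∨ x.1 - x.2 = y.1 - y.2 + 1) := by
  unfold OpenAdj at h
  rcases h with ⟨e, h⟩ | ⟨e, h⟩ | ⟨e, h⟩ | ⟨e, h⟩
  · left; rw [e]; simp only; ring
  · right; rw [e]; simp only; ring
  · right; rw [e]; simp only; ring
  · left; rw [e]; simp only; ring

theorem cluO_self (S : Set (ℤ × ℤ)) (ω : Conf) (a : ℤ × ℤ) : a ∈ cluO S ω a :=
  Relation.ReflTransGen.refl

theorem cluO_sub {S : Set (ℤ × ℤ)} {ω : Conf} {a b : ℤ × ℤ} (ha : a ∈ S) (h : b ∈ cluO S ω a) :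
    b ∈ S := by
  have h' : Relation.ReflTransGen (fun x y => OpenAdj ω x y ∧ x ∈ S ∧ y ∈ S) a b := h
  cases h' with
  | refl => exact ha
  | tail _ hs => exact hs.2.2

theorem cluO_symm {S : Set (ℤ × ℤ)} {ω : Conf} {a b : ℤ × ℤ} (h : b ∈ cluO S ω a) :
    a ∈ cluO S ω b := by
  have h' : Relation.ReflTransGen (fun x y => OpenAdj ω x y ∧ x ∈ S ∧ y ∈ S) a b := h
  show Relation.ReflTransGen (fun x y => OpenAdj ω x y ∧ x ∈ S ∧ y ∈ S) b a
  induction h' with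
  | refl => exact Relation.ReflTransGen.refl
  | tail hp hs ih => exact Relation.ReflTransGen.head ⟨OpenAdj.symm' hs.1, hs.2.2, hs.2.1⟩ (ih hp)

theorem cluO_trans {S : Set (ℤ × ℤ)} {ω : Conf} {a b c : ℤ × ℤ} (h : b ∈ cluO S ω a)
    (h2 : c ∈ cluO S ω b) : c ∈ cluO S ω a :=
  Relation.ReflTransGen.trans (show Relation.ReflTransGen _ a b from h) h2

theorem cluO_eq {S : Set (ℤ × ℤ)} {ω : Conf} {a b : ℤ × ℤ} (h : b ∈ cluO S ω a) :
    cluO S ω b = cluO S ω a := by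
  ext x
  exact ⟨fun hx => cluO_trans h hx, fun hx => cluO_trans (cluO_symm h) hx⟩

theorem cluO_mono {S T : Set (ℤ × ℤ)} (hST : S ⊆ T) (ω : Conf) (a : ℤ × ℤ) :
    cluO S ω a ⊆ cluO T ω a := by
  intro b h
  show Relation.ReflTransGen (fun x y => OpenAdj ω x y ∧ x ∈ T ∧ y ∈ T) a b
  have h' : Relation.ReflTransGen (fun x y => OpenAdj ω x y ∧ x ∈ S ∧ y ∈ S) a b := h
  induction h' with
  | refl => exact Relation.ReflTransGen.refl
  | tail hp hs ih => exact (ih hp).tail ⟨hs.1, hST hs.2.1, hST hs.2.2⟩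

/-- `S ⊆ T` separated by `Z`: the two clusters agree when one of them avoids `Z` -/
theorem cluO_sep {S T : Set (ℤ × ℤ)} (hST : S ⊆ T) (Z : Set (ℤ × ℤ)) (ω : Conf)
    (hsep : ∀ x y, x ∈ S → x ∉ Z → y ∈ T → OpenAdj ω x y → y ∈ S) {a : ℤ × ℤ} (ha : a ∈ S)
    (hav : ∀ x ∈ cluO S ω a, x ∉ Z) : cluO T ω a = cluO S ω a := by
  apply Set.Subset.antisymm _ (cluO_mono hST ω a)
  intro b h
  have h' : Relation.ReflTransGen (fun x y => OpenAdj ω x y ∧ x ∈ T ∧ y ∈ T) a b := h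
  induction h' with
  | refl => exact cluO_self S ω a
  | tail hp hs ih =>
    have i := ih hp
    have hx := cluO_sub ha i
    have hy := hsep _ _ hx (hav _ i) hs.2.2 hs.1
    exact Relation.ReflTransGen.tail (show Relation.ReflTransGen _ a _ from i) ⟨hs.1, hx, hy⟩

/-- the crossing clusters which avoid `Z` -/
def avo (N : ℕ) (S : Set (ℤ × ℤ)) (c : ℤ) (ω : Conf) : Set (Set (ℤ × ℤ)) :=
  {C | C ∈ crossO N S ω ∧ ∀ x ∈ C, x.1 + x.2 ≠ c}

theorem avo_sep (N : ℕ) {S T : Set (ℤ × ℤ)} (hST : S ⊆ T) (c : ℤ) (ω : Conf)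
    (hsep : ∀ x y, x ∈ S → x.1 + x.2 ≠ c → y ∈ T → OpenAdj ω x y → y ∈ S) :
    avo N S c ω = {C | C ∈ avo N T c ω ∧ C ⊆ S} := by
  ext C
  constructor
  · rintro ⟨⟨a, ha, ha0, rfl, b, hb, hbN⟩, hav⟩
    have e : cluO T ω a = cluO S ω a := cluO_sep hST {x | x.1 + x.2 = c} ω hsep ha hav
    refine ⟨⟨⟨a, hST ha, ha0, e.symm, b, hb, hbN⟩, hav⟩, fun x hx => cluO_sub ha hx⟩
  · rintro ⟨⟨⟨a, ha, ha0, rfl, b, hb, hbN⟩, hav⟩, hS⟩
    have haS : a ∈ S := hS (cluO_self T ω a)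
    have e : cluO T ω a = cluO S ω a := cluO_sep hST {x | x.1 + x.2 = c} ω hsep haS
      (fun x hx => hav x (cluO_mono hST ω a hx))
    refine ⟨⟨a, haS, ha0, e, b, hb, hbN⟩, hav⟩

theorem clu_side {T : Set (ℤ × ℤ)} {ω : Conf} {a : ℤ × ℤ} (c : ℤ)
    (hav : ∀ x ∈ cluO T ω a, x.1 + x.2 ≠ c) :
    (∀ x ∈ cluO T ω a, x.1 + x.2 < c) ∨ (∀ x ∈ cluO T ω a, c < x.1 + x.2) := by
  have key : ∀ x ∈ cluO T ω a, (x.1 + x.2 < c ↔ a.1 + a.2 < c) := by
    intro x hx
    have h' : Relation.ReflTransGen (fun x y => OpenAdj ω x y ∧ x ∈ T ∧ y ∈ T) a x := hx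
    induction h' with
    | refl => exact Iff.rfl
    | @tail y z hp hs ih =>
      have i := ih hp
      have hz := hav _ hx
      have hy := hav _ hp
      have := OpenAdj.sum hs.1
      omega
  rcases lt_trichotomy (a.1 + a.2) c with h | h | h
  · left
    intro x hx
    exact (key x hx).2 h
  · exact absurd h (hav a (cluO_self T ω a))
  · right
    intro x hx
    have h1 := key x hx
    have h2 := hav x hx
    omega

theorem BoxO_finite (N : ℕ) (a b : ℤ) : (BoxO N a b).Finite := by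
  apply Set.Finite.subset
    ((Finset.Icc (-(|a| + |b| + N)) (|a| + |b| + N) ×ˢ
      Finset.Icc (-(|a| + |b| + N)) (|a| + |b| + N) : Finset (ℤ × ℤ)).finite_toSet)
  rintro ⟨x, y⟩ ⟨h1, h2, h3, h4⟩
  simp only at h1 h2 h3 h4
  simp only [Finset.coe_product, Set.mem_prod, Finset.mem_coe, Finset.mem_Icc]
  have ha := neg_abs_le a
  have ha' := le_abs_self a
  have hb := neg_abs_le b
  have hb' := le_abs_self b
  omega

theorem crossO_finite (N : ℕ) {S : Set (ℤ × ℤ)} (hS : S.Finite) (ω : Conf) :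
    (crossO N S ω).Finite := by
  apply Set.Finite.subset (hS.image (cluO S ω))
  rintro C ⟨a, ha, _, rfl, _⟩
  exact ⟨a, ha, rfl⟩

theorem ncard_split (N : ℕ) {S : Set (ℤ × ℤ)} (hS : S.Finite) (c : ℤ) (ω : Conf) :
    (crossO N S ω).ncard = (avo N S c ω).ncard + (touch N S c ω).ncard := by
  have hf := crossO_finite N hS ω
  have e : crossO N S ω = avo N S c ω ∪ touch N S c ω := by
    ext C
    constructor
    · intro h
      by_cases h2 : ∃ x ∈ C, x.1 + x.2 = c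
      · exact Or.inr ⟨h, h2⟩
      · left
        refine ⟨h, ?_⟩
        push Not at h2
        exact h2
    · rintro (h | h)
      · exact h.1
      · exact h.1
  have hd : Disjoint (avo N S c ω) (touch N S c ω) := by
    rw [Set.disjoint_left]
    rintro C ⟨_, h1⟩ ⟨_, x, hx, h2⟩
    exact h1 x hx h2
  have f1 : (avo N S c ω).Finite := hf.subset (fun C h => h.1)
  have f2 : (touch N S c ω).Finite := hf.subset (fun C h => h.1)
  conv_lhs => rw [e]
  rw [Set.ncard_union_eq hd f1 f2]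

/-- **cutting along the line `u + v = c`** -/
theorem cut (N : ℕ) (a c b : ℤ) (hac : a ≤ c) (hcb : c ≤ b) (ω : Conf) :
    (crossO N (BoxO N a b) ω).ncard + (touch N (BoxO N a c) c ω).ncard +
      (touch N (BoxO N c b) c ω).ncard =
    (crossO N (BoxO N a c) ω).ncard + (crossO N (BoxO N c b) ω).ncard +
      (touch N (BoxO N a b) c ω).ncard := by
  rw [ncard_split N (BoxO_finite N a b) c ω, ncard_split N (BoxO_finite N a c) c ω,
    ncard_split N (BoxO_finite N c b) c ω]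
  have s1 : BoxO N a c ⊆ BoxO N a b := by
    rintro x ⟨h1, h2, h3, h4⟩; exact ⟨h1, h2, h3, h4.trans hcb⟩
  have s2 : BoxO N c b ⊆ BoxO N a b := by
    rintro x ⟨h1, h2, h3, h4⟩; exact ⟨h1, h2, hac.trans h3, h4⟩
  have e1 := avo_sep N s1 c ω (by
    rintro x y ⟨h1, h2, h3, h4⟩ hne ⟨k1, k2, k3, k4⟩ hadj
    have := OpenAdj.sum hadj
    exact ⟨k1, k2, k3, by omega⟩)
  have e2 := avo_sep N s2 c ω (by
    rintro x y ⟨h1, h2, h3, h4⟩ hne ⟨k1, k2, k3, k4⟩ hadj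
    have := OpenAdj.sum hadj
    exact ⟨k1, k2, by omega, k4⟩)
  have e : avo N (BoxO N a b) c ω = avo N (BoxO N a c) c ω ∪ avo N (BoxO N c b) c ω := by
    rw [e1, e2]
    ext C
    constructor
    · intro h
      have h' := h
      obtain ⟨⟨x, hx, hx0, rfl, _⟩, hav⟩ := h'
      rcases clu_side c hav with h2 | h2
      · left
        refine ⟨h, fun y hy => ?_⟩
        have := h2 y hy
        obtain ⟨k1, k2, k3, k4⟩ := cluO_sub hx hy
        exact ⟨k1, k2, k3, by omega⟩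
      · right
        refine ⟨h, fun y hy => ?_⟩
        have := h2 y hy
        obtain ⟨k1, k2, k3, k4⟩ := cluO_sub hx hy
        exact ⟨k1, k2, by omega, k4⟩
    · rintro (h | h)
      · exact h.1
      · exact h.1
  have hd : Disjoint (avo N (BoxO N a c) c ω) (avo N (BoxO N c b) c ω) := by
    rw [Set.disjoint_left]
    rintro C ⟨⟨x, hx, hx0, rfl, _⟩, hav⟩ h2
    rw [e2] at h2
    have h3 := h2.2 (cluO_self _ ω x)
    have h4 := hav x (cluO_self _ ω x)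
    obtain ⟨_, _, _, k4⟩ := hx
    obtain ⟨_, _, k3, _⟩ := h3
    omega
  have f1 : (avo N (BoxO N a c) c ω).Finite :=
    (crossO_finite N (BoxO_finite N a c) ω).subset (fun C h => h.1)
  have f2 : (avo N (BoxO N c b) c ω).Finite :=
    (crossO_finite N (BoxO_finite N c b) ω).subset (fun C h => h.1)
  rw [e, Set.ncard_union_eq hd f1 f2]
  ring

end Pool.Agent.TH601.CC
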