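import Pool.Agent.TH601.CC.Unif1

/-! The number of crossing clusters touching a line has bounded mean. -/

namespace Pool.Agent.TH601.CC

open Pool.Agent.H988R2.Perc Pool.Agent.H980R2.Cross Pool.Agent.H980R2.Unif Finset Filter Topology
  MeasureTheory

open Classical in
/-- the edges with both end points in the finite set `S` -/
noncomputable def ES {S : Set (ℤ × ℤ)} (hS : S.Finite) : Finset H974.Edg :=
  ((hS.toFinset ×ˢ (Finset.univ : Finset Bool)).image (fun p => (p.1.1, p.1.2, p.2))).filter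
    (fun e => H974.tgt e ∈ S)

theorem mem_ES {S : Set (ℤ × ℤ)} (hS : S.Finite) (e : H974.Edg) :
    e ∈ ES hS ↔ H974.src e ∈ S ∧ H974.tgt e ∈ S := by
  classical
  obtain ⟨x, y, t⟩ := e
  unfold ES
  simp only [Finset.mem_filter, Finset.mem_image, Finset.mem_product, Set.Finite.mem_toFinset,
    Finset.mem_univ, and_true, Prod.mk.injEq, Prod.exists]
  constructor
  · rintro ⟨⟨x', y', t', h, rfl, rfl, rfl⟩, h2⟩
    exact ⟨h, h2⟩
  · rintro ⟨h, h2⟩
    exact ⟨⟨x, y, t, h, rfl, rfl, rfl⟩, h2⟩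

theorem step_congr {S : Set (ℤ × ℤ)} (hS : S.Finite) {ω ω' : Conf}
    (h : ∀ e : Edge, (e.1, e.2.1, !e.2.2) ∈ ES hS → ω e = ω' e) (x y : ℤ × ℤ)
    (hx : x ∈ S) (hy : y ∈ S) (ha : OpenAdj ω x y) : OpenAdj ω' x y := by
  obtain ⟨x1, x2⟩ := x
  unfold OpenAdj at ha ⊢
  simp only at ha ⊢
  rcases ha with ⟨rfl, k⟩ | ⟨e, k⟩ | ⟨rfl, k⟩ | ⟨e, k⟩
  · refine Or.inl ⟨rfl, ?_⟩
    rw [← h _ _]
    · exact k
    · rw [mem_ES]
      exact ⟨hx, hy⟩
  · refine Or.inr (Or.inl ⟨e, ?_⟩)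
    rw [← h _ _]
    · exact k
    · rw [mem_ES]
      refine ⟨hy, ?_⟩
      rw [e] at hx
      exact hx
  · refine Or.inr (Or.inr (Or.inl ⟨rfl, ?_⟩))
    rw [← h _ _]
    · exact k
    · rw [mem_ES]
      exact ⟨hx, hy⟩
  · refine Or.inr (Or.inr (Or.inr ⟨e, ?_⟩))
    rw [← h _ _]
    · exact k
    · rw [mem_ES]
      refine ⟨hy, ?_⟩
      rw [e] at hx
      exact hx

theorem cluO_congr {S : Set (ℤ × ℤ)} (hS : S.Finite) {ω ω' : Conf}
    (h : ∀ e : Edge, (e.1, e.2.1, !e.2.2) ∈ ES hS → ω e = ω' e) (a : ℤ × ℤ) :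
    cluO S ω a = cluO S ω' a := by
  have e : (fun x y => OpenAdj ω x y ∧ x ∈ S ∧ y ∈ S) =
      (fun x y => OpenAdj ω' x y ∧ x ∈ S ∧ y ∈ S) := by
    funext x y
    apply propext
    constructor
    · rintro ⟨h1, h2, h3⟩
      exact ⟨step_congr hS h x y h2 h3 h1, h2, h3⟩
    · rintro ⟨h1, h2, h3⟩
      exact ⟨step_congr hS (fun e he => (h e he).symm) x y h2 h3 h1, h2, h3⟩
  unfold cluO
  rw [e]

theorem crossO_congr (N : ℕ) {S : Set (ℤ × ℤ)} (hS : S.Finite) {ω ω' : Conf}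
    (h : ∀ e : Edge, (e.1, e.2.1, !e.2.2) ∈ ES hS → ω e = ω' e) :
    crossO N S ω = crossO N S ω' := by
  unfold crossO
  simp only [cluO_congr hS h]

theorem touch_congr (N : ℕ) {S : Set (ℤ × ℤ)} (hS : S.Finite) (c : ℤ) {ω ω' : Conf}
    (h : ∀ e : Edge, (e.1, e.2.1, !e.2.2) ∈ ES hS → ω e = ω' e) :
    touch N S c ω = touch N S c ω' := by
  unfold touch
  rw [crossO_congr N hS h]

theorem cluO_cf {S : Set (ℤ × ℤ)} (hS : S.Finite) {F : Finset H974.Edg} (hF : F ⊆ ES hS)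
    (a : ℤ × ℤ) : cluO S (cf F) a = H974.clu H974.src H974.tgt (↑F : Set H974.Edg) a := by
  have e : (fun x y => OpenAdj (cf F) x y ∧ x ∈ S ∧ y ∈ S) =
      H974.GAdj H974.src H974.tgt (↑F : Set H974.Edg) := by
    funext x y
    apply propext
    rw [openAdj_cf]
    constructor
    · rintro ⟨h, _, _⟩
      exact h
    · intro h
      refine ⟨h, ?_⟩
      obtain ⟨e, he, h2⟩ := h
      have := (mem_ES hS e).1 (hF (Finset.mem_coe.1 he))
      rcases h2 with ⟨rfl, rfl⟩ | ⟨rfl, rfl⟩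
      · exact this
      · exact this.symm
  unfold cluO H974.clu H974.GR
  rw [e]

/-- seven boxes cover the line -/
theorem touch_le (N : ℕ) (a b c : ℤ) (F : Finset H974.Edg) (hF : F ⊆ ES (BoxO_finite N a b)) :
    (touch N (BoxO N a b) c (cf F)).ncard ≤ ∑ j ∈ range 7,
      H974.NC H974.src H974.tgt
        (Kb (c / 2 + j * (2 * (N / 12 : ℕ) + 1) + (N / 12 : ℕ))
          (c - (c / 2 + j * (2 * (N / 12 : ℕ) + 1) + (N / 12 : ℕ))) (N / 12))
        (Bb (c / 2 + j * (2 * (N / 12 : ℕ) + 1) + (N / 12 : ℕ))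
          (c - (c / 2 + j * (2 * (N / 12 : ℕ) + 1) + (N / 12 : ℕ))) (N / 12)) (↑F : Set H974.Edg) := by
  classical
  set m : ℕ := N / 12 with hm
  have hm1 : 12 * m ≤ N := by omega
  have hm2 : N ≤ 12 * m + 11 := by omega
  set X : ℕ → ℤ := fun j => c / 2 + j * (2 * (m : ℕ) + 1) + (m : ℕ) with hX
  have hsub : touch N (BoxO N a b) c (cf F) ⊆
      ((range 7).biUnion (fun j => H974.TC H974.src H974.tgt (Kb (X j) (c - X j) m)
        (Bb (X j) (c - X j) m) (↑F : Set H974.Edg)) : Finset (Set (ℤ × ℤ))) := by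
    rintro C ⟨⟨p, hp, hp0, rfl, q, hq, hqN⟩, x, hx, hxc⟩
    have hxS : x ∈ BoxO N a b := cluO_sub hp hx
    obtain ⟨k1, k2, k3, k4⟩ := hxS
    rw [Finset.coe_biUnion, Set.mem_iUnion₂]
    -- the index of the box
    obtain ⟨j, hj, hj1, hj2⟩ : ∃ j : ℕ, j < 7 ∧ X j - m ≤ x.1 ∧ x.1 ≤ X j + m := by
      have hd : 0 ≤ x.1 - c / 2 := by omega
      have hd2 : x.1 - c / 2 ≤ 6 * m + 6 := by omega
      refine ⟨((x.1 - c / 2) / (2 * m + 1)).toNat, ?_, ?_, ?_⟩
      · have h0 : 0 ≤ (x.1 - c / 2) / (2 * m + 1) := Int.ediv_nonneg hd (by omega)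
        have h1 : (x.1 - c / 2) / (2 * m + 1) < 7 := by
          apply Int.ediv_lt_of_lt_mul (by omega)
          omega
        omega
      · have h0 : 0 ≤ (x.1 - c / 2) / (2 * m + 1) := Int.ediv_nonneg hd (by omega)
        have h1 : (((x.1 - c / 2) / (2 * m + 1)).toNat : ℤ) = (x.1 - c / 2) / (2 * m + 1) :=
          Int.toNat_of_nonneg h0
        have h2 := Int.ediv_mul_le (x.1 - c / 2) (b := 2 * (m:ℤ) + 1) (by omega)
        simp only [hX]
        rw [h1]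
        linarith
      · have h0 : 0 ≤ (x.1 - c / 2) / (2 * m + 1) := Int.ediv_nonneg hd (by omega)
        have h1 : (((x.1 - c / 2) / (2 * m + 1)).toNat : ℤ) = (x.1 - c / 2) / (2 * m + 1) :=
          Int.toNat_of_nonneg h0
        have h2 := Int.lt_ediv_add_one_mul_self (x.1 - c / 2) (b := 2 * (m:ℤ) + 1) (by omega)
        simp only [hX]
        rw [h1]
        linarith
    refine ⟨j, Finset.mem_coe.2 (Finset.mem_range.2 hj), ?_⟩
    rw [Finset.mem_coe, H974.mem_TC]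
    have ec1 : H974.clu H974.src H974.tgt (↑F : Set H974.Edg) x =
        cluO (BoxO N a b) (cf F) p := by
      rw [← cluO_cf (BoxO_finite N a b) hF, cluO_eq hx]
    have mem_of : ∀ z ∈ cluO (BoxO N a b) (cf F) p,
        H974.GR H974.src H974.tgt (↑F : Set H974.Edg) x z := by
      intro z hz
      rw [← ec1] at hz
      exact hz
    refine ⟨x, ?_, ?_, ec1⟩
    · rw [u4_mem_Kb]
      refine ⟨⟨hj1, hj2⟩, ?_, ?_⟩ <;> omega
    · by_cases h : p ∈ Bb (X j) (c - X j) m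
      · exact ⟨p, h, mem_of p (cluO_self _ _ p)⟩
      · refine ⟨q, ?_, mem_of q hq⟩
        unfold Bb at h ⊢
        simp only [Set.mem_ofPred_eq, not_or, not_le, le_abs] at h ⊢
        omega
  have h1 := Set.ncard_le_ncard hsub (Finset.finite_toSet _)
  rw [Set.ncard_coe_finset] at h1
  exact h1.trans Finset.card_biUnion_le

end Pool.Agent.TH601.CC
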