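import Pool.Agent.TH601.CC.Unif2

/-! Near-additivity of the mean number of crossing clusters. -/

namespace Pool.Agent.TH601.CC

open Pool.Agent.H988R2.Perc Pool.Agent.H980R2.Cross Pool.Agent.H980R2.Unif Finset Filter Topology
  MeasureTheory

/-- mean number of crossing clusters of `BoxO N a b` -/
noncomputable def eb (N : ℕ) (a b : ℤ) : ℝ := ∫ ω, ((crossO N (BoxO N a b) ω).ncard : ℝ) ∂perc

/-- mean number of crossing clusters of `BoxO N a b` touching `u + v = c` -/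
noncomputable def et (N : ℕ) (a b c : ℤ) : ℝ := ∫ ω, ((touch N (BoxO N a b) c ω).ncard : ℝ) ∂perc

theorem eb_ex (N : ℕ) (a b : ℤ) : eb N a b = H974.Ex (fun _ => (1/2 : ℝ)) (ES (BoxO_finite N a b))
      (fun F => ((crossO N (BoxO N a b) (cf F)).ncard : ℝ)) ∧
    Integrable (fun ω => ((crossO N (BoxO N a b) ω).ncard : ℝ)) perc :=
  ex_eq _ _ (fun ω ω' h => by rw [crossO_congr N (BoxO_finite N a b) h])

theorem et_ex (N : ℕ) (a b c : ℤ) :
    et N a b c = H974.Ex (fun _ => (1/2 : ℝ)) (ES (BoxO_finite N a b))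
      (fun F => ((touch N (BoxO N a b) c (cf F)).ncard : ℝ)) ∧
    Integrable (fun ω => ((touch N (BoxO N a b) c ω).ncard : ℝ)) perc :=
  ex_eq _ _ (fun ω ω' h => by rw [touch_congr N (BoxO_finite N a b) c h])

theorem et_nonneg (N : ℕ) (a b c : ℤ) : 0 ≤ et N a b c := integral_nonneg (fun _ => Nat.cast_nonneg _)

theorem et_le : ∃ A : ℝ, 0 ≤ A ∧ ∀ (N : ℕ) (a b c : ℤ), et N a b c ≤ A := by
  obtain ⟨A, hA⟩ := annulus_count
  have ok := H974.okq (q := 1/2) (by norm_num) (by norm_num)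
  have key : ∀ (N : ℕ) (a b c : ℤ), et N a b c ≤ 7 * A := by
    intro N a b c
    rw [(et_ex N a b c).1]
    refine (H974.Ex_mono ok (g := fun F => ∑ j ∈ range 7,
      (H974.NC H974.src H974.tgt
        (Kb (c / 2 + j * (2 * (N / 12 : ℕ) + 1) + (N / 12 : ℕ))
          (c - (c / 2 + j * (2 * (N / 12 : ℕ) + 1) + (N / 12 : ℕ))) (N / 12))
        (Bb (c / 2 + j * (2 * (N / 12 : ℕ) + 1) + (N / 12 : ℕ))
          (c - (c / 2 + j * (2 * (N / 12 : ℕ) + 1) + (N / 12 : ℕ))) (N / 12))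
        (↑F : Set H974.Edg) : ℝ)) ?_).trans ?_
    · intro F hF
      have := touch_le N a b c F hF
      exact_mod_cast this
    · rw [H974.Ex_sum]
      refine (Finset.sum_le_sum (fun j _ => hA _ _ _ _)).trans ?_
      rw [Finset.sum_const, Finset.card_range, nsmul_eq_mul]
      norm_num
  exact ⟨7 * A, (et_nonneg 0 0 0 0).trans (key 0 0 0 0), key⟩

theorem cut_mean : ∃ A : ℝ, 0 ≤ A ∧ ∀ (N : ℕ) (a c b : ℤ), a ≤ c → c ≤ b →
    |eb N a b - eb N a c - eb N c b| ≤ A := by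
  obtain ⟨A, hA0, hA⟩ := et_le
  refine ⟨2 * A, by positivity, fun N a c b hac hcb => ?_⟩
  have h : eb N a b + et N a c c + et N c b c = eb N a c + eb N c b + et N a b c := by
    have i1 := (eb_ex N a b).2
    have i2 := (et_ex N a c c).2
    have i3 := (eb_ex N a c).2
    have i4 := (eb_ex N c b).2
    have i5 : Integrable (fun ω => ((crossO N (BoxO N a b) ω).ncard : ℝ) +
      ((touch N (BoxO N a c) c ω).ncard : ℝ)) perc := i1.add i2
    have i6 : Integrable (fun ω => ((crossO N (BoxO N a c) ω).ncard : ℝ) +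
      ((crossO N (BoxO N c b) ω).ncard : ℝ)) perc := i3.add i4
    unfold eb et
    rw [← integral_add i1 i2, ← integral_add i5 (et_ex N c b c).2,
      ← integral_add i3 i4, ← integral_add i6 (et_ex N a b c).2]
    congr 1
    funext ω
    exact_mod_cast cut N a c b hac hcb ω
  have h1 := hA N a c c
  have h2 := hA N c b c
  have h3 := hA N a b c
  have h4 := et_nonneg N a c c
  have h5 := et_nonneg N c b c
  have h6 := et_nonneg N a b c
  rw [abs_le]
  constructor <;> linarith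

theorem perc_reindex (e : Edge ≃ Edge) (f : Conf → ℝ) :
    ∫ ω, f (fun i => ω (e i)) ∂perc = ∫ ω, f ω ∂perc := by
  set g := MeasurableEquiv.piCongrLeft (fun _ : Edge => Bool) e.symm with hg
  have hm : perc.map g = perc := by
    unfold perc
    exact Measure.infinitePi_map_piCongrLeft (X := fun _ : Edge => Bool) (fun _ => coin) e.symm
  have hgi : ∀ ω : Conf, g ω = fun i => ω (e i) := by
    intro ω
    funext i
    have h := MeasurableEquiv.piCongrLeft_apply_apply e.symm (β := fun _ : Edge => Bool) ω (e i)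
    rw [Equiv.symm_apply_apply] at h
    exact h
  conv_rhs => rw [← hm]
  rw [integral_map_equiv]
  simp only [hgi]

/-- translation of the edges -/
def trE (k : ℤ) : Edge ≃ Edge where
  toFun e := (e.1 + k, e.2.1 + k, e.2.2)
  invFun e := (e.1 - k, e.2.1 - k, e.2.2)
  left_inv e := by simp
  right_inv e := by simp

/-- translation of the vertices -/
def trV (k : ℤ) : (ℤ × ℤ) ≃ (ℤ × ℤ) where
  toFun e := (e.1 + k, e.2 + k)
  invFun e := (e.1 - k, e.2 - k)
  left_inv e := by simp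
  right_inv e := by simp

theorem openAdj_tr (k : ℤ) (ω : Conf) (x y : ℤ × ℤ) :
    OpenAdj ω (trV k x) (trV k y) ↔ OpenAdj (fun i => ω (trE k i)) x y := by
  obtain ⟨x1, x2⟩ := x
  obtain ⟨y1, y2⟩ := y
  unfold OpenAdj trV trE
  simp only [Equiv.coe_fn_mk, Prod.mk.injEq]
  have e1 : ∀ a b : ℤ, (a + k = b + k + 1 ↔ a = b + 1) := by intro a b; omega
  have e2 : ∀ a b : ℤ, (a + k = b + k ↔ a = b) := by intro a b; omega
  simp only [e1, e2]

theorem cluO_tr (k : ℤ) (S : Set (ℤ × ℤ)) (ω : Conf) (a : ℤ × ℤ) :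
    cluO (trV k '' S) ω (trV k a) = trV k '' cluO S (fun i => ω (trE k i)) a := by
  ext b
  constructor
  · intro h
    have h' : Relation.ReflTransGen
      (fun x y => OpenAdj ω x y ∧ x ∈ trV k '' S ∧ y ∈ trV k '' S) (trV k a) b := h
    induction h' with
    | refl => exact ⟨a, cluO_self _ _ _, rfl⟩
    | @tail y z hp hs ih =>
      obtain ⟨y', hy', rfl⟩ := ih hp
      obtain ⟨h1, h2, ⟨z', hz', rfl⟩⟩ := hs
      rw [openAdj_tr] at h1
      have h2' : y' ∈ S := by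
        obtain ⟨w, hw, hw2⟩ := h2
        rwa [(trV k).injective hw2] at hw
      exact ⟨z', Relation.ReflTransGen.tail (show Relation.ReflTransGen _ a _ from hy')
        ⟨h1, h2', hz'⟩, rfl⟩
  · rintro ⟨c, hc, rfl⟩
    have h' : Relation.ReflTransGen
      (fun x y => OpenAdj (fun i => ω (trE k i)) x y ∧ x ∈ S ∧ y ∈ S) a c := hc
    show Relation.ReflTransGen
      (fun x y => OpenAdj ω x y ∧ x ∈ trV k '' S ∧ y ∈ trV k '' S) (trV k a) (trV k c)
    induction h' with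
    | refl => exact Relation.ReflTransGen.refl
    | @tail y z hp hs ih =>
      refine (ih hp).tail ⟨?_, ⟨y, hs.2.1, rfl⟩, ⟨z, hs.2.2, rfl⟩⟩
      rw [openAdj_tr]
      exact hs.1

theorem crossO_tr (N : ℕ) (k : ℤ) (S : Set (ℤ × ℤ)) (ω : Conf) :
    crossO N (trV k '' S) ω = (fun C => trV k '' C) '' crossO N S (fun i => ω (trE k i)) := by
  ext C
  constructor
  · rintro ⟨a, ⟨a', ha', rfl⟩, h0, rfl, b, hb, hbN⟩
    rw [cluO_tr] at hb ⊢
    obtain ⟨b', hb', rfl⟩ := hb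
    refine ⟨_, ⟨a', ha', ?_, rfl, b', hb', ?_⟩, rfl⟩
    · simp only [trV, Equiv.coe_fn_mk] at h0; linarith
    · simp only [trV, Equiv.coe_fn_mk] at hbN; linarith
  · rintro ⟨C', ⟨a, ha, h0, rfl, b, hb, hbN⟩, rfl⟩
    simp only
    rw [← cluO_tr]
    refine ⟨trV k a, ⟨a, ha, rfl⟩, ?_, rfl, trV k b, ?_, ?_⟩
    · simp only [trV, Equiv.coe_fn_mk]; linarith
    · rw [cluO_tr]; exact ⟨b, hb, rfl⟩
    · simp only [trV, Equiv.coe_fn_mk]; linarith

theorem BoxO_tr (N : ℕ) (a b k : ℤ) : trV k '' BoxO N a b = BoxO N (a + 2*k) (b + 2*k) := by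
  ext ⟨x, y⟩
  constructor
  · rintro ⟨⟨x', y'⟩, ⟨h1, h2, h3, h4⟩, e⟩
    simp only [trV, Equiv.coe_fn_mk, Prod.mk.injEq] at h1 h2 h3 h4 e
    obtain ⟨rfl, rfl⟩ := e
    refine ⟨?_, ?_, ?_, ?_⟩ <;> simp only <;> linarith
  · rintro ⟨h1, h2, h3, h4⟩
    simp only at h1 h2 h3 h4
    refine ⟨(x - k, y - k), ⟨?_, ?_, ?_, ?_⟩, ?_⟩
    · simp only; linarith
    · simp only; linarith
    · simp only; linarith
    · simp only; linarith
    · simp only [trV, Equiv.coe_fn_mk, sub_add_cancel]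

theorem eb_tr (N : ℕ) (a b k : ℤ) : eb N (a + 2*k) (b + 2*k) = eb N a b := by
  unfold eb
  rw [← perc_reindex (trE k) (fun ω => ((crossO N (BoxO N a b) ω).ncard : ℝ))]
  congr 1
  funext ω
  rw [← BoxO_tr, crossO_tr, Set.ncard_image_of_injective _ (Set.image_injective.2 (trV k).injective)]

theorem ec_eb (N K : ℕ) : ec N K = eb N 1 (K + 1) := rfl

/-- near-additivity -/
theorem ec_add : ∃ A : ℝ, 0 ≤ A ∧ ∀ (N M K : ℕ),
    |ec N (2*M + K) - ec N (2*M) - ec N K| ≤ A := by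
  obtain ⟨A, hA0, hA⟩ := cut_mean
  refine ⟨A, hA0, fun N M K => ?_⟩
  have h := hA N 1 (2*M+1) (2*M+K+1) (by omega) (by omega)
  have e := eb_tr N 1 (K+1) M
  have e1 : (1:ℤ) + 2 * M = 2 * M + 1 := by ring
  have e2 : (K:ℤ) + 1 + 2 * M = 2*M+K+1 := by ring
  rw [e1, e2] at e
  rw [e] at h
  rw [ec_eb, ec_eb, ec_eb]
  push_cast
  exact h

theorem ec_mul : ∃ A : ℝ, 0 ≤ A ∧ ∀ (N M k : ℕ),
    |ec N (2*(M * (k+1))) - (k+1) * ec N (2*M)| ≤ A * k := by
  obtain ⟨A, hA0, hA⟩ := ec_add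
  refine ⟨A, hA0, fun N M k => ?_⟩
  induction k with
  | zero => simp
  | succ k ih =>
    have h := hA N M (2*(M*(k+1)))
    have e : 2*(M*(k+1+1)) = 2*M + 2*(M*(k+1)) := by ring
    rw [e]
    push_cast
    rw [abs_le] at h ih ⊢
    constructor <;> nlinarith [h.1, h.2, ih.1, ih.2]

/-- the uniform estimate for odd widths -/
theorem ec_unif : ∃ A : ℝ, 0 ≤ A ∧ ∀ (N M : ℕ), Odd N →
    |ec N (2*M) - M * Pool.Agent.H980R2.Cross.rho N| ≤ A := by
  obtain ⟨A, hA0, hA⟩ := ec_mul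
  obtain ⟨B, hB0, hB⟩ := ec_add
  refine ⟨A + B, by positivity, fun N M hN => ?_⟩
  rcases Nat.eq_zero_or_pos M with rfl | hM
  · have h := hB N 0 0
    simp only [mul_zero, add_zero, Nat.cast_zero, zero_mul, sub_zero] at h ⊢
    rw [abs_le] at h ⊢
    constructor <;> linarith [h.1, h.2]
  · have hM0 : (0:ℝ) < M := by exact_mod_cast hM
    have l1 := (ec_tendsto N hN).comp (show Tendsto (fun k : ℕ => M * (k+1)) atTop atTop from by
      apply tendsto_atTop_mono (fun k => ?_) tendsto_id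
      simp only [id]
      nlinarith)
    have l2 : Tendsto (fun k : ℕ => ec N (2*M) -
        M * (ec N (2*(M*(k+1))) / ((M*(k+1) : ℕ) : ℝ))) atTop
        (𝓝 (ec N (2*M) - M * Pool.Agent.H980R2.Cross.rho N)) :=
      (l1.const_mul (M:ℝ)).const_sub _
    have h3 : ∀ k : ℕ, |ec N (2*M) - M * (ec N (2*(M*(k+1))) / ((M*(k+1) : ℕ) : ℝ))| ≤ A + B := by
      intro k
      have h := hA N M k
      have hk : (0:ℝ) < (k:ℝ) + 1 := by positivity
      have e : ec N (2*M) - M * (ec N (2*(M*(k+1))) / ((M*(k+1) : ℕ) : ℝ)) =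
          - ((ec N (2*(M*(k+1))) - (k+1) * ec N (2*M)) / (k+1)) := by
        push_cast
        field_simp
        ring
      rw [e, abs_neg, abs_div, abs_of_pos hk, div_le_iff₀ hk]
      have hk0 : (0:ℝ) ≤ k := Nat.cast_nonneg k
      nlinarith
    exact le_of_tendsto l2.abs (Filter.Eventually.of_forall h3)

end Pool.Agent.TH601.CC
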