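import Pool.Agent.TH601.CC.Unif3
import Pool.Agent.TH601.CC.Rate

/-! The uniform estimate for all widths and all lengths. -/

namespace Pool.Agent.TH601.CC

open Pool.Agent.H988R2.Perc Pool.Agent.H980R2.Cross Pool.Agent.H980R2.Unif Finset Filter Topology
  MeasureTheory

theorem BoxO_mono_N (N : ℕ) (a b : ℤ) : BoxO N a b ⊆ BoxO (N+1) a b := by
  rintro x ⟨h1, h2, h3, h4⟩
  exact ⟨h1, by push_cast; linarith, h3, h4⟩

theorem first_pass (N : ℕ) (a b : ℤ) (ω : Conf) {p : ℤ × ℤ} (hp : p ∈ BoxO N a b) {x : ℤ × ℤ}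
    (hx : x ∈ cluO (BoxO (N+1) a b) ω p) :
    x ∈ cluO (BoxO N a b) ω p ∨ ∃ y ∈ cluO (BoxO N a b) ω p, y.1 - y.2 = N := by
  have h' : Relation.ReflTransGen
    (fun x y => OpenAdj ω x y ∧ x ∈ BoxO (N+1) a b ∧ y ∈ BoxO (N+1) a b) p x := hx
  induction h' with
  | refl => exact Or.inl (cluO_self _ _ _)
  | @tail y z hpy hs ih =>
    rcases ih hpy with h | h
    · have hy : y ∈ BoxO N a b := cluO_sub hp h
      by_cases hz : z ∈ BoxO N a b
      · exact Or.inl (Relation.ReflTransGen.tail (show Relation.ReflTransGen _ p y from h)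
          ⟨hs.1, hy, hz⟩)
      · right
        refine ⟨y, h, ?_⟩
        obtain ⟨h1, h2, h3, h4⟩ := hy
        obtain ⟨k1, k2, k3, k4⟩ := hs.2.2
        push_cast at k2
        have hz2 : ¬ (z.1 - z.2 ≤ N) := fun hh => hz ⟨k1, hh, k3, k4⟩
        have := OpenAdj.diff hs.1
        omega
    · exact Or.inr h

theorem crossO_N_succ (N : ℕ) (a b : ℤ) (ω : Conf) :
    (crossO (N+1) (BoxO (N+1) a b) ω).ncard ≤ (crossO N (BoxO N a b) ω).ncard := by
  have hsub : crossO (N+1) (BoxO (N+1) a b) ω ⊆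
      (fun D => {x | ∃ y ∈ D, x ∈ cluO (BoxO (N+1) a b) ω y}) '' crossO N (BoxO N a b) ω := by
    rintro C ⟨p, hp, hp0, rfl, q, hq, hqN⟩
    have hpS : p ∈ BoxO N a b := by
      obtain ⟨k1, k2, k3, k4⟩ := hp
      exact ⟨k1, by rw [hp0]; positivity, k3, k4⟩
    refine ⟨cluO (BoxO N a b) ω p, ⟨p, hpS, hp0, rfl, ?_⟩, ?_⟩
    · rcases first_pass N a b ω hpS hq with h | h
      · have h2 := cluO_sub hpS h
        obtain ⟨k1, k2, k3, k4⟩ := h2
        push_cast at hqN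
        exact absurd hqN (by linarith)
      · exact h
    · ext x
      constructor
      · rintro ⟨y, hy, hxy⟩
        exact cluO_trans (cluO_mono (BoxO_mono_N N a b) ω p hy) hxy
      · intro hx
        exact ⟨p, cluO_self _ _ _, hx⟩
  have hf := crossO_finite N (BoxO_finite N a b) ω
  exact (Set.ncard_le_ncard hsub (hf.image _)).trans (Set.ncard_image_le hf)

theorem eb_succ (N : ℕ) (a b : ℤ) : eb (N+1) a b ≤ eb N a b := by
  unfold eb
  apply integral_mono (eb_ex (N+1) a b).2 (eb_ex N a b).2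
  intro ω
  exact Nat.cast_le.2 (crossO_N_succ N a b ω)

theorem ec_succ (N K : ℕ) : ec (N+1) K ≤ ec N K := by
  rw [ec_eb, ec_eb]; exact eb_succ N 1 (K+1)

theorem ec_nonneg (N K : ℕ) : 0 ≤ ec N K := integral_nonneg (fun _ => Nat.cast_nonneg _)

theorem rho_le (N : ℕ) (hN : Odd N) : Pool.Agent.H980R2.Cross.rho N ≤ √3 / (2 * (N:ℝ) + 1) :=
  (rho_bounds' N hN).2

/-- all lengths, odd widths -/
theorem ec_unif_odd : ∃ A : ℝ, 0 ≤ A ∧ ∀ (N K : ℕ), Odd N →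
    |ec N K - K / 2 * Pool.Agent.H980R2.Cross.rho N| ≤ A := by
  obtain ⟨A, hA0, hA⟩ := ec_unif
  obtain ⟨B, hB0, hB⟩ := cut_mean
  refine ⟨4 * A + 4 * B + 4, by positivity, fun N K hN => ?_⟩
  have hN1 : (1:ℝ) ≤ N := by
    have : 1 ≤ N := hN.pos
    exact_mod_cast this
  have hr := rho_bounds' N hN
  have hs3 : √3 ≤ 2 := by
    rw [Real.sqrt_le_left (by norm_num)]; norm_num
  have hr1 : Pool.Agent.H980R2.Cross.rho N ≤ 1 := by
    refine hr.2.trans ?_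
    rw [div_le_one (by positivity)]
    linarith
  have hr0 : -1 ≤ Pool.Agent.H980R2.Cross.rho N := by
    refine le_trans ?_ hr.1
    have h1 : 0 ≤ √3 / (2 * (N:ℝ) + 1) := by positivity
    have h2 : 1 / (2 * (N:ℝ)^3) ≤ 1 := by
      rw [div_le_one (by positivity)]
      have : (1:ℝ) ≤ (N:ℝ)^3 := one_le_pow₀ hN1
      linarith
    linarith
  rcases Nat.even_or_odd' K with ⟨M, hM | hM⟩
  · rw [hM]
    have h := hA N M hN
    push_cast
    have e : (2 * (M:ℝ)) / 2 = M := by ring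
    rw [e]
    linarith
  · rw [hM]
    have h := hA N M hN
    have h1 := hA N 1 hN
    -- the last row
    have h2 := hB N 1 2 3 (by norm_num) (by norm_num)
    have e0 : ec N (2*1) = eb N 1 3 := by rw [ec_eb]; norm_num
    have e1 : ec N 1 = eb N 1 2 := by rw [ec_eb]; norm_num
    have e2 : 0 ≤ eb N 2 3 := integral_nonneg (fun _ => Nat.cast_nonneg _)
    have e3 := ec_nonneg N 1
    have h3 := hB N 1 (2*M+1) (2*M+2) (by omega) (by omega)
    have e4 := eb_tr N 1 2 M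
    have e5 : (1:ℤ) + 2 * M = 2 * M + 1 := by ring
    have e6 : (2:ℤ) + 2 * M = 2*M+2 := by ring
    rw [e5, e6] at e4
    have e7 : ec N (2*M+1) = eb N 1 (2*M+2) := by rw [ec_eb]; push_cast; ring_nf
    have e8 : ec N (2*M) = eb N 1 (2*M+1) := by rw [ec_eb]; push_cast; rfl
    rw [← e7, ← e8, e4, ← e1] at h3
    rw [← e0, ← e1] at h2
    push_cast at h h1 ⊢
    rw [abs_le] at h h1 h2 h3 ⊢
    constructor <;> linarith [h.1, h.2, h1.1, h1.2, h2.1, h2.2, h3.1, h3.2]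

/-- odd widths -/
theorem ec_cardy_odd : ∃ A : ℝ, 0 ≤ A ∧ ∀ (N K : ℕ), Odd N →
    |ec N K - √3 / 4 * (K / N)| ≤ A * (1 + K / (N:ℝ)^2) := by
  obtain ⟨A, hA0, hA⟩ := ec_unif_odd
  refine ⟨A + 1, by positivity, fun N K hN => ?_⟩
  have hN1 : (1:ℝ) ≤ N := by
    have : 1 ≤ N := hN.pos
    exact_mod_cast this
  have h := hA N K hN
  obtain ⟨r1, r2⟩ := rho_bounds' N hN
  generalize Pool.Agent.H980R2.Cross.rho N = r at *
  have hK : (0:ℝ) ≤ K := Nat.cast_nonneg K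
  have hs3 : √3 ≤ 2 := by
    rw [Real.sqrt_le_left (by norm_num)]; norm_num
  have hs0 : 0 ≤ √3 := Real.sqrt_nonneg _
  have hN0 : (0:ℝ) < N := by linarith
  -- comparison of the densities
  have d1 : √3 / (2 * (N:ℝ) + 1) ≤ √3 / (2 * N) := by
    apply div_le_div_of_nonneg_left hs0 (by positivity) (by linarith)
  have d2 : √3 / (2 * N) - √3 / (2 * (N:ℝ) + 1) ≤ 1 / (2 * (N:ℝ)^2) := by
    rw [div_sub_div _ _ (by positivity) (by positivity), div_le_div_iff₀ (by positivity) (by positivity)]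
    nlinarith [mul_nonneg hs0 hN0.le, mul_nonneg hs0 (sq_nonneg (N:ℝ)), mul_pos hN0 hN0,
      mul_nonneg (sub_nonneg.2 hs3) (sq_nonneg (N:ℝ))]
  have d3 : 1 / (2 * (N:ℝ)^3) ≤ 1 / (2 * (N:ℝ)^2) := by
    apply div_le_div_of_nonneg_left (by norm_num) (by positivity)
    have : (N:ℝ)^2 * 1 ≤ (N:ℝ)^2 * N := by gcongr
    nlinarith
  have e1 : √3 / 4 * (K / N) = K / 2 * (√3 / (2 * N)) := by field_simp; ring
  have d4 : |K / 2 * r - √3 / 4 * (K / N)| ≤ K / (N:ℝ)^2 := by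
    rw [e1, ← mul_sub, abs_mul, abs_of_nonneg (by positivity : (0:ℝ) ≤ K / 2)]
    have d5 : |r - √3 / (2 * N)| ≤ 1 / (N:ℝ)^2 := by
      have e : 1 / (N:ℝ)^2 = 1 / (2 * (N:ℝ)^2) + 1 / (2 * (N:ℝ)^2) := by field_simp; norm_num
      have p : 0 ≤ 1 / (2 * (N:ℝ)^2) := by positivity
      rw [abs_le]
      constructor <;> linarith
    calc K / 2 * |r - √3 / (2 * N)| ≤ K / 2 * (1 / (N:ℝ)^2) := by gcongr
      _ ≤ K / (N:ℝ)^2 := by
        rw [div_mul_div_comm, mul_one]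
        apply div_le_div_of_nonneg_left hK (by positivity)
        have : 0 < (N:ℝ)^2 := by positivity
        linarith
  have p1 : 0 ≤ K / (N:ℝ)^2 := by positivity
  calc |ec N K - √3 / 4 * (K / N)| = |(ec N K - K / 2 * r) + (K / 2 * r - √3 / 4 * (K / N))| := by
        ring_nf
    _ ≤ |ec N K - K / 2 * r| + |K / 2 * r - √3 / 4 * (K / N)| := abs_add_le _ _
    _ ≤ A + K / (N:ℝ)^2 := add_le_add h d4
    _ ≤ (A + 1) * (1 + K / (N:ℝ)^2) := by nlinarith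

/-- **the mean number of crossing clusters of a rectangle** -/
theorem ec_cardy : ∃ A : ℝ, 0 ≤ A ∧ ∀ (N K : ℕ), 1 ≤ N →
    |ec N K - √3 / 4 * (K / N)| ≤ A * (1 + K / (N:ℝ)^2) := by
  obtain ⟨A, hA0, hA⟩ := ec_cardy_odd
  refine ⟨4 * A + 2, by positivity, fun N K hN => ?_⟩
  have hK : (0:ℝ) ≤ K := Nat.cast_nonneg K
  have hN0 : (0:ℝ) < N := by exact_mod_cast hN
  have p1 : 0 ≤ K / (N:ℝ)^2 := by positivity
  have hs3 : √3 ≤ 2 := by
    rw [Real.sqrt_le_left (by norm_num)]; norm_num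
  have hs0 : 0 ≤ √3 := Real.sqrt_nonneg _
  rcases Nat.even_or_odd' N with ⟨m, hm | hm⟩
  · obtain ⟨n, rfl⟩ : ∃ n, m = n + 1 := ⟨m - 1, by omega⟩
    have ho1 : Odd (2*n+1) := ⟨n, rfl⟩
    have ho2 : Odd (2*(n+1)+1) := ⟨n+1, rfl⟩
    have a1 := hA (2*n+1) K ho1
    have a2 := hA (2*(n+1)+1) K ho2
    have m1 := ec_succ (2*n+1) K
    have m2 := ec_succ (2*(n+1)) K
    have eN : 2*n+1+1 = N := by omega
    have eN2 : 2*(n+1) = N := by omega
    rw [eN] at m1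
    rw [eN2] at m2 a2
    have hc1 : ((2*n+1 : ℕ) : ℝ) = N - 1 := by rw [← eN]; push_cast; ring
    have hc2 : ((N+1 : ℕ) : ℝ) = N + 1 := by push_cast; ring
    rw [hc1] at a1
    rw [hc2] at a2
    have hN2 : (2:ℝ) ≤ N := by
      have : 2 ≤ N := by omega
      exact_mod_cast this
    have q1 : K / ((N:ℝ) - 1) ≤ K / N + 2 * (K / (N:ℝ)^2) := by
      have hpos : (0:ℝ) < N - 1 := by linarith
      have : K / (N:ℝ) + 2 * (K / (N:ℝ)^2) = K * (N + 2) / (N:ℝ)^2 := by field_simp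
      rw [this, div_le_div_iff₀ hpos (by positivity)]
      nlinarith [mul_nonneg hK (by linarith : (0:ℝ) ≤ N - 2)]
    have q2 : K / ((N:ℝ) - 1)^2 ≤ 4 * (K / (N:ℝ)^2) := by
      have hpos : (0:ℝ) < N - 1 := by linarith
      have : 4 * (K / (N:ℝ)^2) = (4 * K) / (N:ℝ)^2 := by ring
      rw [this, div_le_div_iff₀ (by positivity) (by positivity)]
      have : (N:ℝ)^2 ≤ 4 * ((N:ℝ) - 1)^2 := by nlinarith
      nlinarith
    have q3 : K / (N:ℝ) - K / (N:ℝ)^2 ≤ K / ((N:ℝ) + 1) := by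
      have : K / (N:ℝ) - K / (N:ℝ)^2 = K * (N - 1) / (N:ℝ)^2 := by field_simp
      rw [this, div_le_div_iff₀ (by positivity) (by positivity)]
      nlinarith
    have q4 : K / ((N:ℝ) + 1)^2 ≤ K / (N:ℝ)^2 := by
      apply div_le_div_of_nonneg_left hK (by positivity)
      nlinarith
    rw [abs_le] at a1 a2 ⊢
    have q5 : √3 / 4 * (K / ((N:ℝ) - 1)) ≤ √3 / 4 * (K / N + 2 * (K / (N:ℝ)^2)) := by gcongr
    have q6 : √3 / 4 * (K / (N:ℝ) - K / (N:ℝ)^2) ≤ √3 / 4 * (K / ((N:ℝ) + 1)) := by gcongr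
    have q7 : √3 * (K / (N:ℝ)^2) ≤ 2 * (K / (N:ℝ)^2) := by gcongr
    have q8 : A * (K / ((N:ℝ) - 1)^2) ≤ A * (4 * (K / (N:ℝ)^2)) := by gcongr
    have q9 : A * (K / ((N:ℝ) + 1)^2) ≤ A * (K / (N:ℝ)^2) := by gcongr
    have q10 : 0 ≤ A * (K / (N:ℝ)^2) := by positivity
    constructor
    · nlinarith [a2.1]
    · nlinarith [a1.2]
  · have h := hA N K ⟨m, hm⟩
    refine h.trans ?_
    have : 0 ≤ 1 + K / (N:ℝ)^2 := by positivity
    nlinarith

end Pool.Agent.TH601.CC
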